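import Pool.Agent.Lib.MP_1a91b9_ntC.Sh.S

/-!
# MP_1a91b9_nt (stability of the Tate-Shafarevich group): the theorem

`A = N(√e)` is a quadratic extension of `N`, `E` an elliptic curve over `N`, `V` its twist by `√e`. If
the `q`-primary part of the Tate-Shafarevich group of `V` over `N` is trivial, `q` odd, then those of
`E` over `A` and over `N` are isomorphic (by the restriction).
-/

set_option autoImplicit false

namespace Pool.Agent.Lib.MP_1a91b9_ntC.Sh

open WeierstrassCurve Pool.Agent.Lib.MP_1a91b9_nuT.S9 NumberField IsDedekindDomain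
open Pool.Agent.Lib.MP_1a91b9_nuT.CT Pool.Agent.Lib.MP_1a91b9_nuT.S5
open Pool.Agent.Lib.MP_1a91b9_nuT3.S9 (ShaP)
open scoped Classical

variable [Pool.Agent.Lib.MP_1a91b9_nuT.CD]

theorem res_add {k k' : Type} [Field k] [Field k'] [Algebra k k'] {W : WeierstrassCurve k}
    {W' : WeierstrassCurve k'} {C : VariableChange k'} (hC : C • W.baseChange k' = W')
    (j : AlgebraicClosure k ≃ₐ[k] AlgebraicClosure k')
    (c d : Gal k → Pts W (AlgebraicClosure k)) : res hC j (c + d) = res hC j c + res hC j d := by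
  funext σ
  change (tr hC (AlgebraicClosure k')).symm
    (Affine.Point.map (j : AlgebraicClosure k →ₐ[k] AlgebraicClosure k')
      (c (resG j σ) + d (resG j σ))) = _
  rw [_root_.map_add, _root_.map_add]
  rfl

/-- The restriction as a homomorphism. -/
noncomputable def resH {k k' : Type} [Field k] [Field k'] [Algebra k k'] {W : WeierstrassCurve k}
    {W' : WeierstrassCurve k'} {C : VariableChange k'} (hC : C • W.baseChange k' = W')
    (j : AlgebraicClosure k ≃ₐ[k] AlgebraicClosure k') :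
    (Gal k → Pts W (AlgebraicClosure k)) →+ (Gal k' → Pts W' (AlgebraicClosure k')) :=
  AddMonoidHom.mk' (res hC j) (res_add hC j)

theorem resH_apply {k k' : Type} [Field k] [Field k'] [Algebra k k'] {W : WeierstrassCurve k}
    {W' : WeierstrassCurve k'} {C : VariableChange k'} (hC : C • W.baseChange k' = W')
    (j : AlgebraicClosure k ≃ₐ[k] AlgebraicClosure k') (c : Gal k → Pts W (AlgebraicClosure k)) :
    resH hC j c = res hC j c := rfl

/-- in an abelian group, a subgroup contains `x` if it contains two coprime multiples of `x` -/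
theorem mem_of_coprime {G : Type*} [AddCommGroup G] (S : AddSubgroup G) {x : G} {m n : ℕ}
    (h : m.Coprime n) (hm : m • x ∈ S) (hn : n • x ∈ S) : x ∈ S := by
  obtain ⟨u, v, huv⟩ := Nat.isCoprime_iff_coprime.2 h
  have h1 : x = u • (m • x) + v • (n • x) := by
    rw [← natCast_zsmul x m, ← natCast_zsmul x n, smul_smul, smul_smul, ← add_smul, huv, one_smul]
  rw [h1]
  exact add_mem (zsmul_mem hm u) (zsmul_mem hn v)

/-- a cocycle of `Sha` which is killed by a power of `q` is a coboundary if `ShaP q` is trivial -/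
theorem cob_of_shaP {N : Type} [Field N] [NumberField N] {W : WeierstrassCurve N} (q : ℕ)
    [Fact q.Prime] (hS : Subsingleton (ShaP q W)) (c : Gal N → Pts W (AlgebraicClosure N))
    (hc : c ∈ shaCoc W) (n : ℕ) (hn : q ^ n • c ∈ cob W) : c ∈ cob W := by
  obtain ⟨z, hz⟩ : ∃ z : Sha W, z = QuotientAddGroup.mk (⟨c, hc⟩ : shaCoc W) := ⟨_, rfl⟩
  have hz0 : q ^ n • z = 0 := by
    rw [hz, ← QuotientAddGroup.mk_nsmul, QuotientAddGroup.eq_zero_iff,
      AddSubgroup.mem_addSubgroupOf]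
    exact hn
  have h6 : (⟨z, ⟨n, hz0⟩⟩ : ShaP q W) = 0 := hS.elim _ _
  have h7 : z = 0 := congrArg Subtype.val h6
  rw [hz, QuotientAddGroup.eq_zero_iff, AddSubgroup.mem_addSubgroupOf] at h7
  exact h7

/-- **Stability of the `q`-primary part of the Tate-Shafarevich group.** -/
theorem sha_stab {N A : Type} [Field N] [NumberField N] [Field A] [NumberField A] [Algebra N A]
    (hcN : ∀ v : InfinitePlace N, v.IsComplex) (hcA : ∀ v : InfinitePlace A, v.IsComplex)
    {a b e : N} {x₀ : A} (hx : x₀ ^ 2 = algebraMap N A e) (he : e ≠ 0)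
    (hx' : ∀ z : A, ∃ α β : N, z = algebraMap N A α + algebraMap N A β * x₀)
    (hn : ¬ ∃ y : N, algebraMap N A y = x₀) (q : ℕ) [hqp : Fact q.Prime] (hq : q ≠ 2)
    (hV : Subsingleton (ShaP q (⟨0, e * a, 0, e ^ 2 * b, 0⟩ : WeierstrassCurve N))) :
    Nonempty (ShaP q ((⟨0, a, 0, b, 0⟩ : WeierstrassCurve N).baseChange A) ≃+
      ShaP q (⟨0, a, 0, b, 0⟩ : WeierstrassCurve N)) := by
  obtain ⟨E, hE⟩ : ∃ E : WeierstrassCurve N, E = ⟨0, a, 0, b, 0⟩ := ⟨_, rfl⟩
  have hfin : FiniteDimensional N A := Module.Finite.of_restrictScalars_finite ℚ N A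
  have halg : Algebra.IsAlgebraic N A := Algebra.IsAlgebraic.of_finite N A
  have hcl : IsAlgClosure N (AlgebraicClosure A) :=
    IsAlgClosure.ofAlgebraic N A (AlgebraicClosure A)
  obtain ⟨j⟩ : Nonempty (AlgebraicClosure N ≃ₐ[N] AlgebraicClosure A) :=
    ⟨IsAlgClosure.equiv N (AlgebraicClosure N) (AlgebraicClosure A)⟩
  -- an automorphism which does not fix `√e`
  obtain ⟨ρ, hρ⟩ : ∃ ρ : Gal N, ρ ∉ stH j x₀ := by
    by_contra hcon
    push Not at hcon
    obtain ⟨y, hy⟩ := fixed_elem (j.symm (algebraMap A (AlgebraicClosure A) x₀)) fun σ => hcon σ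
    refine hn ⟨y, (algebraMap A (AlgebraicClosure A)).injective ?_⟩
    have h1 := congrArg j hy
    rw [j.apply_symm_apply, j.commutes] at h1
    rw [← h1, ← IsScalarTower.algebraMap_apply]
  have hodd : ∀ n : ℕ, Nat.Coprime 2 (q ^ n) := fun n =>
    Nat.Coprime.pow_right n ((Nat.coprime_primes Nat.prime_two hqp.out).2 (Ne.symm hq))
  obtain ⟨C, h1, h2, h3, h4, hC⟩ := exists_vc (a := a) (b := b) hx he
  have hCE := one_smul_bc (A := A) (⟨0, a, 0, b, 0⟩ : WeierstrassCurve N)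
  -- the restriction
  have hres : ∀ c ∈ shaCoc (⟨0, a, 0, b, 0⟩ : WeierstrassCurve N), res hCE j c ∈ shaCoc _ :=
    fun c hc => res_sha hcA hCE j c hc
  let f : shaCoc (⟨0, a, 0, b, 0⟩ : WeierstrassCurve N) →+
      shaCoc ((⟨0, a, 0, b, 0⟩ : WeierstrassCurve N).baseChange A) :=
    ((resH hCE j).comp (shaCoc (⟨0, a, 0, b, 0⟩ : WeierstrassCurve N)).subtype).codRestrict _
      fun c => hres c c.2
  have hf : ∀ c : shaCoc (⟨0, a, 0, b, 0⟩ : WeierstrassCurve N),
      ((f c : shaCoc _) : Gal A → Pts _ (AlgebraicClosure A)) = res hCE j c := fun c => rfl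
  let φ : Sha (⟨0, a, 0, b, 0⟩ : WeierstrassCurve N) →+
      Sha ((⟨0, a, 0, b, 0⟩ : WeierstrassCurve N).baseChange A) :=
    QuotientAddGroup.map _ _ f (by
      intro c hc
      rw [AddSubgroup.mem_comap, AddSubgroup.mem_addSubgroupOf, hf]
      exact res_cob hCE j _ (AddSubgroup.mem_addSubgroupOf.1 hc))
  have hφ : ∀ c : shaCoc (⟨0, a, 0, b, 0⟩ : WeierstrassCurve N),
      φ (QuotientAddGroup.mk c) = QuotientAddGroup.mk (f c) := fun c => rfl
  have hφq : ∀ x : ShaP q (⟨0, a, 0, b, 0⟩ : WeierstrassCurve N), φ x ∈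
      AddCommGroup.primaryComponent
        (Sha ((⟨0, a, 0, b, 0⟩ : WeierstrassCurve N).baseChange A)) q := by
    rintro ⟨x, n, hn⟩
    refine ⟨n, ?_⟩
    rw [← _root_.map_nsmul, hn, _root_.map_zero]
  let ψ : ShaP q (⟨0, a, 0, b, 0⟩ : WeierstrassCurve N) →+
      ShaP q ((⟨0, a, 0, b, 0⟩ : WeierstrassCurve N).baseChange A) :=
    (φ.comp (AddCommGroup.primaryComponent
      (Sha (⟨0, a, 0, b, 0⟩ : WeierstrassCurve N)) q).subtype).codRestrict _ hφq
  have hψ : ∀ x : ShaP q (⟨0, a, 0, b, 0⟩ : WeierstrassCurve N), ((ψ x : ShaP q _) : Sha _) =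
      φ x := fun x => rfl
  refine ⟨(AddEquiv.ofBijective ψ ⟨?_, ?_⟩).symm⟩
  · -- injectivity
    rw [injective_iff_map_eq_zero]
    rintro ⟨x, n, hxn⟩ h0
    obtain ⟨⟨c, hc⟩, rfl⟩ := QuotientAddGroup.mk_surjective x
    have h5 : φ (QuotientAddGroup.mk ⟨c, hc⟩) = 0 := by
      rw [← hψ ⟨_, n, hxn⟩, h0]
      rfl
    rw [hφ, QuotientAddGroup.eq_zero_iff, AddSubgroup.mem_addSubgroupOf, hf] at h5
    rw [← QuotientAddGroup.mk_nsmul, QuotientAddGroup.eq_zero_iff,
      AddSubgroup.mem_addSubgroupOf] at hxn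
    have h6 : 2 • c ∈ cob _ := two_cob_of_res hCE j hx hx' c hc.1.1 h5
    have h7 : c ∈ cob _ := mem_of_coprime _ (hodd n) h6 hxn
    apply Subtype.ext
    change (QuotientAddGroup.mk ⟨c, hc⟩ : Sha _) = 0
    rw [QuotientAddGroup.eq_zero_iff, AddSubgroup.mem_addSubgroupOf]
    exact h7
  · -- surjectivity
    rintro ⟨y, n, hyn⟩
    obtain ⟨⟨c, hc⟩, rfl⟩ := QuotientAddGroup.mk_surjective y
    rw [← QuotientAddGroup.mk_nsmul, QuotientAddGroup.eq_zero_iff,
      AddSubgroup.mem_addSubgroupOf] at hyn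
    have hyn' : q ^ n • c ∈ cob _ := hyn
    obtain ⟨Dp, hp1, hp2, hp3⟩ := exists_cor hCE j hx hx' hρ c hc.1.1
    obtain ⟨Dm, hm1, hm2, hm3⟩ := exists_cor hC j hx hx' hρ c hc.1.1
    obtain ⟨c', hc', hcj⟩ := exists_conj hcA hx he hx' j hρ h1 h2 h3 h4 hC c hc
    have hlift : ∀ σ : Gal A, ∃ σ' : Gal A, resG j σ' = ρ * resG j σ * ρ⁻¹ := by
      intro σ
      refine exists_lift j hx' (stH_mul j hx _ _ ?_ ?_)
      · intro h
        exact hρ (by simpa using (stH j x₀).mul_mem h ((stH j x₀).inv_mem (resG_mem j x₀ σ)))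
      · intro h
        exact hρ (by simpa using (stH j x₀).inv_mem h)
    have hrp : res hCE j Dp = c + c' := by
      funext σ
      obtain ⟨σ', hσ'⟩ := hlift σ
      rw [hp3 σ σ' hσ', Pi.add_apply, (hcj σ σ' hσ').1]
    have hrm : res hC j Dm = c - c' := by
      funext σ
      obtain ⟨σ', hσ'⟩ := hlift σ
      rw [hm3 σ σ' hσ', Pi.sub_apply, sub_eq_add_neg, (hcj σ σ' hσ').2]
    -- the minus part is a coboundary
    have h6 : 2 • Dm ∈ shaCoc _ := desc_sha hcN hx hx' hC j Dm hm1 (by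
      rw [hrm]
      exact sub_mem hc hc')
    have h7 : 2 • Dm ∈ cob _ := cob_of_shaP q hV _ h6 n (by
      rw [smul_comm]
      exact nsmul_mem (hm2 _ hyn') 2)
    have h8 : Dm ∈ cob _ := mem_of_coprime _ (hodd n) h7 (hm2 _ hyn')
    have h9 : c - c' ∈ cob _ := by
      rw [← hrm]
      exact res_cob hC j _ h8
    -- the plus part
    have h10 : 2 • Dp ∈ shaCoc _ := desc_sha hcN hx hx' hCE j Dp hp1 (by
      rw [hrp]
      exact add_mem hc hc')
    have h11 : q ^ n • (2 • Dp) ∈ cob _ := by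
      rw [smul_comm]
      exact nsmul_mem (hp2 _ hyn') 2
    have h4q : Nat.Coprime 4 (q ^ n) := by
      have := Nat.Coprime.mul_left (hodd n) (hodd n)
      simpa using this
    obtain ⟨u, v, huv⟩ := Nat.isCoprime_iff_coprime.2 h4q
    push_cast at huv
    obtain ⟨x, hx1⟩ : ∃ x : Sha (⟨0, a, 0, b, 0⟩ : WeierstrassCurve N),
        x = QuotientAddGroup.mk (⟨u • (2 • Dp), zsmul_mem h10 u⟩ : shaCoc _) := ⟨_, rfl⟩
    have hxn : q ^ n • x = 0 := by
      rw [hx1, ← QuotientAddGroup.mk_nsmul, QuotientAddGroup.eq_zero_iff,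
        AddSubgroup.mem_addSubgroupOf]
      change q ^ n • (u • (2 • Dp)) ∈ cob _
      rw [smul_comm]
      exact zsmul_mem h11 u
    refine ⟨⟨x, n, hxn⟩, Subtype.ext ?_⟩
    rw [hψ]
    change φ x = QuotientAddGroup.mk ⟨c, hc⟩
    rw [hx1, hφ, ← sub_eq_zero, ← QuotientAddGroup.mk_sub, QuotientAddGroup.eq_zero_iff,
      AddSubgroup.mem_addSubgroupOf]
    change res hCE j (u • (2 • Dp)) - c ∈ cob _
    have h12 : res hCE j (u • (2 • Dp)) = u • (2 • (c + c')) := by
      rw [← hrp, ← resH_apply, ← resH_apply, _root_.map_zsmul, _root_.map_nsmul]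
    have h13 : res hCE j (u • (2 • Dp)) - c = -(v • (q ^ n • c)) - u • (2 • (c - c')) := by
      rw [h12]
      have e1 : c = (u * 4 + v * (q : ℤ) ^ n) • c := by rw [huv, one_smul]
      calc u • (2 • (c + c')) - c = u • (2 • (c + c')) - (u * 4 + v * (q : ℤ) ^ n) • c := by
            rw [← e1]
        _ = -(v • (((q ^ n : ℕ) : ℤ) • c)) - u • (2 • (c - c')) := by
            push_cast
            module
        _ = _ := by rw [natCast_zsmul]
    rw [h13]
    exact sub_mem (neg_mem (zsmul_mem hyn' v)) (zsmul_mem (nsmul_mem h9 2) u)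

end Pool.Agent.Lib.MP_1a91b9_ntC.Sh
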