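import Pool.Agent.Lib.MP_1a91b9_ntC.NoNew

/-!
# MP_1a91b9_nt (the relative conjecture): the index of `E(L)` in `E(L')`

`L' = L(y)`, `y² = e ∈ L`, `y` not in `L`; `E : y² = x³ + a x² + b x`, `V` its twist by `√e`. If `V(L)` is
finite of order prime to `q`, `q` odd, then the index of `E(L)` in `E(L')` is finite and prime to `q`.
Proof: for `P` in `E(L')`, `2 P = (P + σ P) + (P - σ P)`, the first is in `E(L)`, the second comes from `V(L)`:
so `2 m` kills `E(L') / E(L)`, `m = #V(L)`; it is finitely generated (Mordell-Weil).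
-/

set_option autoImplicit false

namespace Pool.Agent.Lib.MP_1a91b9_ntC.Sh

open WeierstrassCurve NumberField

/-- A finitely generated group killed by a number prime to `q` has order prime to `q`. -/
theorem ix_card {A : Type} [AddCommGroup A] (hA : AddGroup.FG A) {n q : ℕ} (hn : n ≠ 0)
    (hq : q.Prime) (hc : n.Coprime q) (hk : ∀ x : A, n • x = 0) : (Nat.card A).Coprime q := by
  have h1 : Module.Finite ℤ A := Module.Finite.iff_addGroup_fg.2 hA
  have h2 : Finite A := by
    refine Module.finite_of_fg_torsion _ ?_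
    intro x
    refine ⟨⟨(n : ℤ), mem_nonZeroDivisors_of_ne_zero (by exact_mod_cast hn)⟩, ?_⟩
    change (n : ℤ) • x = 0
    rw [natCast_zsmul, hk]
  have hF : Fact q.Prime := ⟨hq⟩
  rw [Nat.coprime_comm, Nat.Prime.coprime_iff_not_dvd hq]
  intro hd
  obtain ⟨x, hx⟩ := exists_prime_addOrderOf_dvd_card' q hd
  have h3 : addOrderOf x ∣ n := addOrderOf_dvd_of_nsmul_eq_zero (hk x)
  rw [hx] at h3
  exact (Nat.Prime.coprime_iff_not_dvd hq).1 hc.symm h3

theorem idx_coprime {L L' : Type} [Field L] [NumberField L] [Field L'] [NumberField L']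
    [DecidableEq L] [DecidableEq L'] [Algebra L L'] {a b : L} (hE : b * (a ^ 2 - 4 * b) ≠ 0) {e : L}
    (he : e ≠ 0) {y : L'} (hy : y ^ 2 = algebraMap L L' e) (hn : ¬ ∃ z : L, algebraMap L L' z = y)
    (hg : ∀ z : L', ∃ α β : L, z = algebraMap L L' α + algebraMap L L' β * y) {q : ℕ}
    (hq : q.Prime) (hq2 : q ≠ 2)
    (hV : Finite (⟨0, e * a, 0, e ^ 2 * b, 0⟩ : WeierstrassCurve L).toAffine.Point)
    (hc : (Nat.card (⟨0, e * a, 0, e ^ 2 * b, 0⟩ : WeierstrassCurve L).toAffine.Point).Coprime q) :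
    ((AddSubgroup.closure {P : ((⟨0, a, 0, b, 0⟩ : WeierstrassCurve L).baseChange
        L').toAffine.Point | ∃ (u v : L) (h : ((⟨0, a, 0, b, 0⟩ : WeierstrassCurve L).baseChange
          L').toAffine.Nonsingular (algebraMap L L' u) (algebraMap L L' v)),
        P = Affine.Point.some _ _ h}).index).Coprime q := by
  obtain ⟨W, hW⟩ : ∃ W : WeierstrassCurve L, W = ⟨0, a, 0, b, 0⟩ := ⟨_, rfl⟩
  obtain ⟨V, hVe⟩ : ∃ V : WeierstrassCurve L, V = ⟨0, e * a, 0, e ^ 2 * b, 0⟩ := ⟨_, rfl⟩
  rw [← hVe] at hV hc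
  rw [← hW]
  have w1 : W.a₁ = 0 := by rw [hW]
  have w2 : W.a₂ = a := by rw [hW]
  have w3 : W.a₃ = 0 := by rw [hW]
  have w4 : W.a₄ = b := by rw [hW]
  have w6 : W.a₆ = 0 := by rw [hW]
  have hWΔ : W.Δ ≠ 0 := by
    have h4 : W.Δ = 16 * b * (b * (a ^ 2 - 4 * b)) := by
      rw [hW]
      simp only [WeierstrassCurve.Δ, WeierstrassCurve.b₂, WeierstrassCurve.b₄,
        WeierstrassCurve.b₆, WeierstrassCurve.b₈]
      ring
    rw [h4]
    exact mul_ne_zero (mul_ne_zero (by norm_num) (left_ne_zero_of_mul hE)) hE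
  have hVΔ : V.Δ ≠ 0 := by
    have h4 : V.Δ = 16 * b * (b * (a ^ 2 - 4 * b)) * e ^ 6 := by
      rw [hVe]
      simp only [WeierstrassCurve.Δ, WeierstrassCurve.b₂, WeierstrassCurve.b₄,
        WeierstrassCurve.b₆, WeierstrassCurve.b₈]
      ring
    rw [h4]
    exact mul_ne_zero (mul_ne_zero (mul_ne_zero (by norm_num) (left_ne_zero_of_mul hE)) hE)
      (pow_ne_zero _ he)
  have hWΔ' : (W.baseChange L').Δ ≠ 0 := by
    change (W.map (algebraMap L L')).Δ ≠ 0
    rw [WeierstrassCurve.map_Δ]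
    exact (_root_.map_ne_zero _).2 hWΔ
  have hell : (W.baseChange L').IsElliptic := ⟨isUnit_iff_ne_zero.2 hWΔ'⟩
  have hy0 : y ≠ 0 := by
    rintro rfl
    exact hn ⟨0, map_zero _⟩
  obtain ⟨σ, hσ⟩ := nn_auto hy hn hg
  have hσσ : ∀ z, σ (σ z) = z := by
    intro z
    obtain ⟨b, c, rfl⟩ := hg z
    simp only [map_add, map_mul, AlgHom.commutes, hσ, map_neg]
    ring
  have hfix : ∀ z : L', σ z = z → ∃ a : L, algebraMap L L' a = z := by
    intro z hz
    obtain ⟨b, c, rfl⟩ := hg z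
    rw [map_add, map_mul, AlgHom.commutes, AlgHom.commutes, hσ] at hz
    have h4 : (2 : L') * algebraMap L L' c * y = 0 := by linear_combination -hz
    refine ⟨b, ?_⟩
    rcases mul_eq_zero.1 h4 with h5 | h5
    · rw [(mul_eq_zero.1 h5).resolve_left two_ne_zero, zero_mul, add_zero]
    · exact absurd h5 hy0
  have hanti : ∀ z : L', σ z = -z → ∃ c : L, z = algebraMap L L' c * y := by
    intro z hz
    obtain ⟨b, c, rfl⟩ := hg z
    rw [map_add, map_mul, AlgHom.commutes, AlgHom.commutes, hσ] at hz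
    have h4 : (2 : L') * algebraMap L L' b = 0 := by linear_combination hz
    refine ⟨c, ?_⟩
    rw [(mul_eq_zero.1 h4).resolve_left two_ne_zero, zero_add]
  have ha1 : (W.baseChange L').toAffine.a₁ = 0 := by
    change algebraMap L L' W.a₁ = 0
    rw [w1, map_zero]
  have ha3 : (W.baseChange L').toAffine.a₃ = 0 := by
    change algebraMap L L' W.a₃ = 0
    rw [w3, map_zero]
  have ha6 : (W.baseChange L').toAffine.a₆ = 0 := by
    change algebraMap L L' W.a₆ = 0
    rw [w6, map_zero]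
  have ha2 : (W.baseChange L').toAffine.a₂ = algebraMap L L' a := by
    change algebraMap L L' W.a₂ = _
    rw [w2]
  have ha4 : (W.baseChange L').toAffine.a₄ = algebraMap L L' b := by
    change algebraMap L L' W.a₄ = _
    rw [w4]
  have hnegY : ∀ x y : L', (W.baseChange L').toAffine.negY x y = -y := by
    intro x y
    rw [Affine.negY, ha1, ha3, zero_mul, sub_zero, sub_zero]
  have hnsW : ∀ x z : L', (W.baseChange L').toAffine.Nonsingular x z ↔
      z ^ 2 = x ^ 3 + algebraMap L L' a * x ^ 2 + algebraMap L L' b * x := by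
    intro x z
    rw [← Affine.equation_iff_nonsingular_of_Δ_ne_zero hWΔ', Affine.equation_iff, ha1, ha3, ha6,
      ha2, ha4, zero_mul, zero_mul, add_zero, add_zero, add_zero]
  have hnsV : ∀ x z : L, V.toAffine.Nonsingular x z ↔
      z ^ 2 = x ^ 3 + e * a * x ^ 2 + e ^ 2 * b * x := by
    intro x z
    have v1 : V.toAffine.a₁ = 0 := by rw [hVe]
    have v2 : V.toAffine.a₂ = e * a := by rw [hVe]
    have v3 : V.toAffine.a₃ = 0 := by rw [hVe]
    have v4 : V.toAffine.a₄ = e ^ 2 * b := by rw [hVe]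
    have v6 : V.toAffine.a₆ = 0 := by rw [hVe]
    rw [← Affine.equation_iff_nonsingular_of_Δ_ne_zero hVΔ, Affine.equation_iff, v1, v3, v6,
      v2, v4, zero_mul, zero_mul, add_zero, add_zero, add_zero]
  -- the involution on the points
  let S : (W.baseChange L').toAffine.Point →+ (W.baseChange L').toAffine.Point :=
    Affine.Point.map (W' := W) σ
  have hS : ∀ x y h, ∃ h', S (Affine.Point.some x y h) = Affine.Point.some (σ x) (σ y) h' :=
    fun x y h => ⟨_, rfl⟩
  have hSS : ∀ Q, S (S Q) = Q := by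
    rintro (_ | ⟨x, y, h⟩)
    · rfl
    · obtain ⟨h', e⟩ := hS x y h
      obtain ⟨h'', e'⟩ := hS _ _ h'
      rw [e, e', Affine.Point.some.injEq]
      exact ⟨hσσ x, hσσ y⟩
  obtain ⟨H, hH⟩ : ∃ H : AddSubgroup (W.baseChange L').toAffine.Point,
    H = AddSubgroup.closure {P : (W.baseChange L').toAffine.Point | ∃ (u v : L)
      (h : (W.baseChange L').toAffine.Nonsingular (algebraMap L L' u) (algebraMap L L' v)),
        P = Affine.Point.some _ _ h} := ⟨_, rfl⟩
  rw [← hH]
  have hSfix : ∀ Q, S Q = Q → Q ∈ H := by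
    rintro (_ | ⟨x, y, h⟩) hQ
    · exact H.zero_mem
    · obtain ⟨h', e⟩ := hS x y h
      rw [e, Affine.Point.some.injEq] at hQ
      obtain ⟨a, rfl⟩ := hfix x hQ.1
      obtain ⟨b, rfl⟩ := hfix y hQ.2
      rw [hH]
      exact AddSubgroup.subset_closure ⟨a, b, h, rfl⟩
  -- the anti-invariants
  let Am : AddSubgroup (W.baseChange L').toAffine.Point := (S + AddMonoidHom.id _).ker
  have hAm : ∀ Q, Q ∈ Am ↔ S Q = -Q := by
    intro Q
    rw [AddMonoidHom.mem_ker]
    show S Q + Q = 0 ↔ _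
    exact add_eq_zero_iff_eq_neg
  have hAmc : ∀ x z h, Affine.Point.some x z h ∈ Am →
      ∃ x₀ c : L, x = algebraMap L L' x₀ ∧ z = algebraMap L L' c * y ∧
        c ^ 2 * e = x₀ ^ 3 + a * x₀ ^ 2 + b * x₀ := by
    intro x z h hQ
    rw [hAm] at hQ
    obtain ⟨h', e'⟩ := hS x z h
    rw [e', Affine.Point.neg_some, Affine.Point.some.injEq, hnegY] at hQ
    obtain ⟨x₀, rfl⟩ := hfix x hQ.1
    obtain ⟨c, rfl⟩ := hanti z hQ.2
    refine ⟨x₀, c, rfl, rfl, ?_⟩
    apply (algebraMap L L').injective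
    have h4 := (hnsW _ _).1 h
    rw [map_mul, map_pow, ← hy, map_add, map_add, map_mul, map_mul, map_pow, map_pow]
    linear_combination h4
  have key : ∀ Q : Am, ∃ R : V.toAffine.Point,
      (Q.1 = 0 ∧ R = 0) ∨ ∃ (x₀ c : L) (h : _) (h' : _),
        Q.1 = Affine.Point.some (algebraMap L L' x₀) (algebraMap L L' c * y) h ∧
          R = Affine.Point.some (e * x₀) (e ^ 2 * c) h' := by
    rintro ⟨Q, hQ⟩
    rcases Q with _ | ⟨x, z, h⟩
    · exact ⟨0, Or.inl ⟨rfl, rfl⟩⟩
    · obtain ⟨x₀, c, rfl, rfl, h4⟩ := hAmc x z h hQ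
      have h5 : V.toAffine.Nonsingular (e * x₀) (e ^ 2 * c) := by
        rw [hnsV]
        linear_combination e ^ 3 * h4
      exact ⟨Affine.Point.some _ _ h5, Or.inr ⟨x₀, c, h, h5, rfl, rfl⟩⟩
  choose f hf using key
  have hfinj : Function.Injective f := by
    intro Q Q' hQQ
    apply Subtype.ext
    rcases hf Q with ⟨h4, h5⟩ | ⟨x, c, h, h', h4, h5⟩
    · rcases hf Q' with ⟨h4', h5'⟩ | ⟨x', c', g, g', h4', h5'⟩
      · rw [h4, h4']
      · rw [h5, h5'] at hQQ
        cases hQQ
    · rcases hf Q' with ⟨h4', h5'⟩ | ⟨x', c', g, g', h4', h5'⟩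
      · rw [h5, h5'] at hQQ
        cases hQQ
      · rw [h5, h5', Affine.Point.some.injEq] at hQQ
        have h6 : x = x' := mul_left_cancel₀ he hQQ.1
        have h7 : c = c' := mul_left_cancel₀ (pow_ne_zero 2 he) hQQ.2
        rw [h4, h4', Affine.Point.some.injEq, h6, h7]
        exact ⟨rfl, rfl⟩
  have hfsur : Function.Surjective f := by
    intro R
    rcases R with _ | ⟨x, z, h⟩
    · refine ⟨0, ?_⟩
      rcases hf 0 with ⟨h4, h5⟩ | ⟨x', c', g, g', h4', h5'⟩
      · exact h5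
      · cases h4'
    · have h0 := (hnsV _ _).1 h
      have h1 : (W.baseChange L').toAffine.Nonsingular (algebraMap L L' (e⁻¹ * x))
          (algebraMap L L' ((e ^ 2)⁻¹ * z) * y) := by
        rw [hnsW]
        have h2 : ((e ^ 2)⁻¹ * z) ^ 2 * e = (e⁻¹ * x) ^ 3 + a * (e⁻¹ * x) ^ 2 + b * (e⁻¹ * x) := by
          field_simp
          linear_combination h0
        have h3 := congrArg (algebraMap L L') h2
        simp only [map_mul, map_pow, map_add, ← hy] at h3 ⊢
        linear_combination h3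
      have h2 : Affine.Point.some _ _ h1 ∈ Am := by
        rw [hAm]
        obtain ⟨h', e'⟩ := hS _ _ h1
        rw [e', Affine.Point.neg_some, Affine.Point.some.injEq, hnegY]
        refine ⟨AlgHom.commutes _ _, ?_⟩
        rw [_root_.map_mul σ, AlgHom.commutes, hσ]
        ring
      refine ⟨⟨_, h2⟩, ?_⟩
      rcases hf ⟨_, h2⟩ with ⟨h4, h5⟩ | ⟨x', c', g, g', h4', h5'⟩
      · cases h4
      · rw [h5', Affine.Point.some.injEq]
        rw [Affine.Point.some.injEq] at h4'
        have h6 : e⁻¹ * x = x' := (algebraMap L L').injective h4'.1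
        have h7 : (e ^ 2)⁻¹ * z = c' :=
          (algebraMap L L').injective (mul_right_cancel₀ hy0 h4'.2)
        rw [← h6, ← h7]
        constructor
        · field_simp
        · field_simp
  have hcard : Nat.card Am = Nat.card V.toAffine.Point := Nat.card_eq_of_bijective f ⟨hfinj, hfsur⟩
  have hm0 : Nat.card V.toAffine.Point ≠ 0 := Nat.card_ne_zero.2 ⟨⟨0⟩, hV⟩
  have hkill : ∀ P : (W.baseChange L').toAffine.Point, (2 * Nat.card V.toAffine.Point) • P ∈ H := by
    intro P
    have h1 : P - S P ∈ Am := by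
      rw [hAm, map_sub, hSS, neg_sub]
    have h2 : Nat.card V.toAffine.Point • (P - S P) = 0 := by
      have h3 : Nat.card Am • (⟨P - S P, h1⟩ : Am) = 0 := card_nsmul_eq_zero'
      rw [hcard] at h3
      exact congrArg Subtype.val h3
    have h4 : P + S P ∈ H := hSfix _ (by rw [map_add, hSS, add_comm])
    have h5 : (2 * Nat.card V.toAffine.Point) • P =
        Nat.card V.toAffine.Point • (P + S P) + Nat.card V.toAffine.Point • (P - S P) := by
      rw [← smul_add, mul_comm, mul_smul, two_nsmul]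
      congr 1
      abel
    rw [h5, h2, add_zero]
    exact H.nsmul_mem h4 _
  have hfg : AddGroup.FG (W.baseChange L').toAffine.Point :=
    Pool.Agent.Lib.MP_17a322_nt.VJ.mordell_weil (W.baseChange L')
  have hfg' : AddGroup.FG ((W.baseChange L').toAffine.Point ⧸ H) := inferInstance
  have hfin := ix_card hfg' (n := 2 * Nat.card V.toAffine.Point)
    (mul_ne_zero two_ne_zero hm0) hq
    (Nat.Coprime.mul_left ((Nat.coprime_primes Nat.prime_two hq).2 (Ne.symm hq2)) hc) (by
      intro x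
      obtain ⟨P, rfl⟩ := QuotientAddGroup.mk_surjective x
      rw [← QuotientAddGroup.mk_nsmul, QuotientAddGroup.eq_zero_iff]
      exact hkill P)
  exact hfin

end Pool.Agent.Lib.MP_1a91b9_ntC.Sh
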