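import Pool.Agent.Lib.MP_1a91b9_ntC.Sh.R
import Pool.Agent.Lib.MP_1a91b9_nuI.Ta.Gen
import Pool.Agent.Lib.MP_1a91b9_ntC.LAll

/-!
# MP_1a91b9_nt (the relative conjecture): the Tamagawa numbers of `E`

`tam_gen` (MP_1a91b9_nuI/Ta/Gen.lean): integral `j`, `q ≥ 5`, the place prime to `q` or of good reduction.
-/

set_option autoImplicit false

namespace Pool.Agent.Lib.MP_1a91b9_ntC.Sh

open NumberField IsDedekindDomain WeierstrassCurve
open Pool.Agent.Lib.MP_1a91b9_nuT.S9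
open Pool.Agent.Lib.MP_1a91b9_nuI (HasJ)

variable [Pool.Agent.Lib.MP_1a91b9_nuT.CD]

open Pool.Agent.Lib.MP_1a91b9_nuX.GM (GoodW IntW)
open Pool.Agent.Lib.MP_1a91b9_nuX.TM (sw)

omit [Pool.Agent.Lib.MP_1a91b9_nuT.CD] in
/-- the short form of the curve -/
theorem short_form {N : Type} [Field N] [CharZero N] (a b : N) :
    (⟨1, -a / 3, 0, 0⟩ : VariableChange N) • (⟨0, a, 0, b, 0⟩ : WeierstrassCurve N) =
      sw (b - a ^ 2 / 3) (2 * a ^ 3 / 27 - a * b / 3) := by
  rw [variableChange_def, sw]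
  simp only [inv_one, Units.val_one]
  ext <;> ring

/-- **All Tamagawa numbers are prime to `q`.** -/
theorem tam_good {N : Type} [Field N] [NumberField N] {a b : N} (hE : b * (a ^ 2 - 4 * b) ≠ 0)
    {j : ℤ} (hj : HasJ (⟨0, a, 0, b, 0⟩ : WeierstrassCurve N) j) {q : ℕ} (hq : q.Prime)
    (h5 : 5 ≤ q) (hg : GoodQ q (⟨0, a, 0, b, 0⟩ : WeierstrassCurve N))
    (v : HeightOneSpectrum (𝓞 N)) :
    (tam (⟨0, a, 0, b, 0⟩ : WeierstrassCurve N) v).Coprime q := by
  have hD := short_form a b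
  have hb : b ≠ 0 := left_ne_zero_of_mul hE
  have hab : 4 * (b - a ^ 2 / 3) ^ 3 + 27 * (2 * a ^ 3 / 27 - a * b / 3) ^ 2 ≠ 0 := by
    have h1 : 4 * (b - a ^ 2 / 3) ^ 3 + 27 * (2 * a ^ 3 / 27 - a * b / 3) ^ 2 =
        -(b * (b * (a ^ 2 - 4 * b))) := by ring
    rw [h1]
    exact neg_ne_zero.2 (mul_ne_zero hb hE)
  have hj' : 6912 * (b - a ^ 2 / 3) ^ 3 =
      j * (4 * (b - a ^ 2 / 3) ^ 3 + 27 * (2 * a ^ 3 / 27 - a * b / 3) ^ 2) := by
    have h1 := hj
    simp only [HasJ, WeierstrassCurve.c₄, WeierstrassCurve.Δ, WeierstrassCurve.b₂,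
      WeierstrassCurve.b₄, WeierstrassCurve.b₆, WeierstrassCurve.b₈] at h1
    linear_combination (-1 / 16) * h1
  refine Pool.Agent.Lib.MP_1a91b9_nuI.tam_gen hab hj' hD hq h5 v ?_
  by_cases hv : (q : 𝓞 N) ∈ v.asIdeal
  · right
    obtain ⟨⟨g1, g2, g3, g4, g6⟩, g7⟩ := hg v hv
    have key : ∀ z : N, Valued.v (algebraMap N (v.adicCompletion N) z) = v.valuation N z :=
      fun z => HeightOneSpectrum.valuedAdicCompletion_eq_valuation' v z
    refine ⟨((⟨1, -a / 3, 0, 0⟩ : VariableChange N).map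
      (algebraMap N (v.adicCompletion N)))⁻¹, ?_⟩
    rw [← hD, WeierstrassCurve.baseChange, ← WeierstrassCurve.map_variableChange, inv_smul_smul]
    exact
      { a1 := by rw [WeierstrassCurve.map_a₁, key]; exact g1
        a2 := by rw [WeierstrassCurve.map_a₂, key]; exact g2
        a3 := by rw [WeierstrassCurve.map_a₃, key]; exact g3
        a4 := by rw [WeierstrassCurve.map_a₄, key]; exact g4
        a6 := by rw [WeierstrassCurve.map_a₆, key]; exact g6
        disc := by rw [WeierstrassCurve.map_Δ, key]; exact g7 }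
  · left
    have e : (q : v.adicCompletion N) = algebraMap N (v.adicCompletion N) (q : N) :=
      (map_natCast _ q).symm
    have e' : (q : N) = algebraMap (𝓞 N) N (q : 𝓞 N) := (map_natCast _ q).symm
    have e2 : Valued.v (algebraMap N (v.adicCompletion N) (q : N)) = v.valuation N (q : N) :=
      HeightOneSpectrum.valuedAdicCompletion_eq_valuation' v _
    rw [e, e2, e']
    refine le_antisymm (v.valuation_le_one _) (not_lt.1 fun h => hv ?_)
    exact (v.valuation_lt_one_iff_mem (K := N) (q : 𝓞 N)).1 h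

end Pool.Agent.Lib.MP_1a91b9_ntC.Sh
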