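import Pool.Agent.Lib.MP_1a91b9_ntC.Sh.G
import Pool.Agent.Lib.MP_1a91b9_ntC.Sh.F
import Pool.Agent.Lib.MP_1a91b9_ntC.Sh.Ix
import Pool.Agent.Lib.MP_1a91b9_ntC.Sh.Tm
import Pool.Agent.Lib.MP_1a91b9_ntC.Stab
import Pool.Agent.Lib.MP_1a91b9_ntJ.KSFin
import Pool.Agent.Lib.MP_1a91b9_ntW.Base

/-!
# MP_1a91b9_nt (the relative conjecture): the step in the towers above `F`
-/

set_option autoImplicit false

namespace Pool.Agent.Lib.MP_1a91b9_ntC.Sh

open NumberField IsDedekindDomain WeierstrassCurve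
open Pool.Agent.Lib.MP_1a91b9_nuI (HasJ)
open Pool.Agent.Lib.MP_1a91b9_ntL (crv)
open Pool.Agent.Lib.MP_1a91b9_ntJ (TowP)
open Pool.Agent.Lib.MP_1a91b9_ntW.J (RkZ twd twd_crv)

/-- a non-square stays a non-square in an extension of odd degree -/
theorem not_sq_odd {F L : Type} [Field F] [NumberField F] [Field L] [NumberField L] [Algebra F L]
    (h : Odd (Module.finrank F L)) {e : F} (he : ¬ IsSquare e) :
    ¬ ∃ y : L, y ^ 2 = algebraMap F L e := by
  rintro ⟨y, hy⟩
  have hfin : FiniteDimensional F L := Module.Finite.of_restrictScalars_finite ℚ F L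
  have hint : IsIntegral F y := Algebra.IsIntegral.isIntegral y
  have hdeg : (minpoly F y).natDegree ∣ Module.finrank F L := minpoly.degree_dvd hint
  have hroot : Polynomial.aeval y (Polynomial.X ^ 2 - Polynomial.C e : Polynomial F) = 0 := by
    simp [hy]
  have hdvd := minpoly.dvd F y hroot
  have hmon : (Polynomial.X ^ 2 - Polynomial.C e : Polynomial F) ≠ 0 :=
    (Polynomial.monic_X_pow_sub_C e two_ne_zero).ne_zero
  have hle : (minpoly F y).natDegree ≤ 2 := by
    have := Polynomial.natDegree_le_of_dvd hdvd hmon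
    rwa [Polynomial.natDegree_X_pow_sub_C] at this
  have hpos : 0 < (minpoly F y).natDegree := minpoly.natDegree_pos hint
  interval_cases hd : (minpoly F y).natDegree
  · obtain ⟨z, hz⟩ := minpoly.mem_range_of_degree_eq_one F y (by
      rw [Polynomial.degree_eq_natDegree (minpoly.ne_zero hint), hd]
      rfl)
    refine he ⟨z, (algebraMap F L).injective ?_⟩
    rw [map_mul, hz, ← hy, sq]
  · exact (Nat.not_even_iff_odd.2 h) (even_iff_two_dvd.2 hdeg)

/-- the places of a field which contains the square root of a negative integer are complex -/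
theorem cplx {L : Type} [Field L] {s : L} {D : ℤ} (hs : s ^ 2 = D) (hD : D < 0)
    (v : InfinitePlace L) : v.IsComplex := by
  rw [← InfinitePlace.not_isReal_iff_isComplex]
  intro h
  have h1 := congrArg (InfinitePlace.embedding_of_isReal h) hs
  rw [map_pow, map_intCast] at h1
  have h2 : (D : ℝ) < 0 := by exact_mod_cast hD
  nlinarith [sq_nonneg (InfinitePlace.embedding_of_isReal h s)]

theorem unitQ_nat {q n : ℕ} (h : n.Coprime q) : UnitQ q (n : ℚ) := by
  refine ⟨?_, ?_⟩
  · rw [Rat.num_natCast]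
    exact Nat.isCoprime_iff_coprime.2 h
  · rw [Rat.den_natCast]
    exact Nat.coprime_one_left q

open Classical in
/-- The index of `W(L)` in `W(L')` is finite and prime to `q`. -/
def IdxQ (q : ℕ) (L : Type) {L' : Type} [Field L] [Field L'] [Algebra L L']
    (W' : WeierstrassCurve L') : Prop :=
  ((AddSubgroup.closure {P : W'.toAffine.Point | ∃ (u v : L)
    (h : W'.toAffine.Nonsingular (algebraMap L L' u) (algebraMap L L' v)),
    P = Affine.Point.some _ _ h}).index).Coprime q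

/-- The conclusion for `L' = L(√e)` over `L`. -/
def RelQ (q : ℕ) [Fact q.Prime] {L L' : Type} [Field L] [NumberField L] [Field L'] [NumberField L']
    [Algebra L L'] (W : WeierstrassCurve L) (W' : WeierstrassCurve L') : Prop :=
  (∃ g : ℂ → ℂ, Differentiable ℂ g ∧ g 1 ≠ 0 ∧
    (∀ s : ℂ, 3 / 2 < s.re → W'.LSeries s = W.LSeries s * g s) ∧
    ∃ r : ℚ, UnitQ q r ∧
      g 1 * ((√|(discr L' : ℝ)| / Pool.Agent.Lib.MP_1a91b9_nuT.S9.period W' : ℝ) : ℂ) =
        (r : ℂ) * ((√|(discr L : ℝ)| / Pool.Agent.Lib.MP_1a91b9_nuT.S9.period W : ℝ) : ℂ)) ∧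
  rk W' = rk W ∧ IdxQ q L W' ∧
  (∀ v : HeightOneSpectrum (𝓞 L), (Pool.Agent.Lib.MP_1a91b9_nuT.S9.tam W v).Coprime q) ∧
  (∀ v : HeightOneSpectrum (𝓞 L'), (Pool.Agent.Lib.MP_1a91b9_nuT.S9.tam W' v).Coprime q) ∧
  Nonempty (Pool.Agent.Lib.MP_1a91b9_nuT3.S9.ShaP q W' ≃+
    Pool.Agent.Lib.MP_1a91b9_nuT3.S9.ShaP q W)

/-- **The step in the towers.** -/
theorem tow_step {K : Type} [Field K] [NumberField K] {a b : K} (hE : b * (a ^ 2 - 4 * b) ≠ 0)
    (hQ : QL (crv a b)) {j : ℤ} (hj : HasJ (crv a b) j) {s : K} {D : ℤ} (hs : s ^ 2 = D) (hD : D < 0)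
    {F : Type} [Field F] [NumberField F] [Algebra K F] {d : 𝓞 K} (hd : d ≠ 0)
    (hsq : ¬ IsSquare (algebraMap K F (d : K)))
    (hT : TowP K (⟨0, algebraMap K F ((d : K) * a), 0, algebraMap K F ((d : K) ^ 2 * b), 0⟩ :
      WeierstrassCurve F)) :
    ∃ S : Finset ℕ, ∀ (q : ℕ) [Fact q.Prime], q ∉ S →
      ∀ (k : ℕ) (L M : Type) [Field L] [NumberField L] [Field M] [NumberField M] [Algebra F L]
        [Algebra L M] [Algebra F M] [IsScalarTower F L M] [IsGalois F M],
        Module.finrank F M = q ^ k →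
      (∀ (v : HeightOneSpectrum (𝓞 F)) (w : HeightOneSpectrum (𝓞 L)),
        v.asIdeal.map (algebraMap (𝓞 F) (𝓞 L)) ≤ w.asIdeal ^ 2 →
          ((q : 𝓞 F) ∈ v.asIdeal → Ideal.absNorm (v.asIdeal.comap (algebraMap (𝓞 K) (𝓞 F))) = q) ∧
            ((q : 𝓞 F) ∉ v.asIdeal → ∀ (V₀ : WeierstrassCurve (𝓞 F)) (C₀ : VariableChange F),
              C₀ • (⟨0, algebraMap K F ((d : K) * a), 0, algebraMap K F ((d : K) ^ 2 * b), 0⟩ :
                WeierstrassCurve F) = V₀.map (algebraMap (𝓞 F) F) → V₀.Δ ∉ v.asIdeal →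
                ¬ q ∣ Nat.card (V₀.map (Ideal.Quotient.mk v.asIdeal)).toAffine.Point)) →
      ∀ (L' : Type) [Field L'] [NumberField L'] [Algebra L L'] (y : L'),
        y ^ 2 = algebraMap L L' (algebraMap F L (algebraMap K F (d : K))) →
        IntermediateField.adjoin L {y} = ⊤ →
        RelQ q (((crv a b).map (algebraMap K F)).map (algebraMap F L))
          ((((crv a b).map (algebraMap K F)).map (algebraMap F L)).map (algebraMap L L')) := by
  have _ : Pool.Agent.Lib.MP_1a91b9_nuT.CD := Pool.Agent.Lib.MP_1a91b9_ntW.cd8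
  obtain ⟨S1, hS1⟩ := hT
  obtain ⟨S2, hS2⟩ := exists_good hE hd
  refine ⟨{3} ∪ (S1 ∪ S2), fun q hq hqS k L M _ _ _ _ _ _ _ _ _ hM hram L' _ _ _ y hy hgen => ?_⟩
  obtain ⟨hq3, hqS1, hqS2⟩ : q ≠ 3 ∧ q ∉ S1 ∧ q ∉ S2 := by
    rw [Finset.mem_union, Finset.mem_union, not_or, not_or, Finset.mem_singleton] at hqS
    exact hqS
  obtain ⟨hq2, hgood⟩ := hS2 q hq.out hqS2
  have h5 : 5 ≤ q := by
    have h1 := hq.out.two_le
    have h4 : q ≠ 4 := by
      rintro rfl
      exact absurd hq.out (by decide)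
    omega
  -- `K → L`
  let _ : Algebra K L := ((algebraMap F L).comp (algebraMap K F)).toAlgebra
  have _ : IsScalarTower K F L := IsScalarTower.of_algebraMap_eq fun x => rfl
  let _ : Algebra K L' := ((algebraMap L L').comp (algebraMap K L)).toAlgebra
  have _ : IsScalarTower K L L' := IsScalarTower.of_algebraMap_eq fun x => rfl
  have hKL : ∀ x : K, algebraMap F L (algebraMap K F x) = algebraMap K L x := fun x => rfl
  -- the degree
  have hfM : FiniteDimensional F M := Module.Finite.of_restrictScalars_finite ℚ F M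
  have hodd : Odd (Module.finrank F L) := by
    have h1 : Odd (q ^ k) := (hq.out.odd_of_ne_two hq2).pow
    rw [← hM, ← Module.finrank_mul_finrank F L M] at h1
    exact Nat.Odd.of_mul_left h1
  have hn : ¬ ∃ z : L, algebraMap L L' z = y := by
    rintro ⟨z, rfl⟩
    refine not_sq_odd hodd hsq ⟨z, (algebraMap L L').injective ?_⟩
    rw [map_pow, hy]
  have hy' : y ^ 2 = algebraMap L L' (algebraMap K L (d : K)) := by rw [hy, hKL]
  have hgen' := quad_gen hy' hgen
  have hd0 : algebraMap K L (d : K) ≠ 0 := by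
    rw [Ne, map_eq_zero]
    exact_mod_cast hd
  -- the curve
  have eE : ((crv a b).map (algebraMap K F)).map (algebraMap F L) =
      (⟨0, algebraMap K L a, 0, algebraMap K L b, 0⟩ : WeierstrassCurve L) :=
    WeierstrassCurve.ext (by simp [crv]) rfl (by simp [crv]) rfl (by simp [crv])
  have eV : (⟨0, algebraMap K F ((d : K) * a), 0, algebraMap K F ((d : K) ^ 2 * b), 0⟩ :
      WeierstrassCurve F).baseChange L = (⟨0, algebraMap K L (d : K) * algebraMap K L a, 0,
        algebraMap K L (d : K) ^ 2 * algebraMap K L b, 0⟩ : WeierstrassCurve L) := by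
    refine WeierstrassCurve.ext (map_zero _) ?_ (map_zero _) ?_ (map_zero _)
    · change algebraMap F L (algebraMap K F ((d : K) * a)) = _
      rw [hKL, map_mul]
    · change algebraMap F L (algebraMap K F ((d : K) ^ 2 * b)) = _
      rw [hKL, map_mul, map_pow]
  obtain ⟨g, g1, g2, g3, ⟨r, r1, r2, r3⟩, g5, g6, g7, g8⟩ := hS1 q hqS1 k L L M hM hram
    (⟨0, algebraMap K L (d : K) * algebraMap K L a, 0,
        algebraMap K L (d : K) ^ 2 * algebraMap K L b, 0⟩ : WeierstrassCurve L) 1 (by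
      rw [eV, one_smul]
      exact WeierstrassCurve.map_id _)
  obtain ⟨hgE, hgV, hge⟩ := hgood L
  obtain ⟨hgE', -, -⟩ := hgood L'
  have hsL : (algebraMap K L s) ^ 2 = D := by rw [← map_pow, hs, map_intCast]
  have hsL' : (algebraMap K L' s) ^ 2 = D := by rw [← map_pow, hs, map_intCast]
  rw [eE]
  obtain ⟨e, he⟩ : ∃ e : 𝓞 L, (e : L) = algebraMap K L (d : K) :=
    ⟨algebraMap (𝓞 K) (𝓞 L) d, rfl⟩
  have he0 : e ≠ 0 := by
    rintro rfl
    exact hd0 (by rw [← he]; rfl)
  have hEL : algebraMap K L b * (algebraMap K L a ^ 2 - 4 * algebraMap K L b) ≠ 0 := by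
    have h1 := (map_ne_zero (algebraMap K L)).2 hE
    rwa [map_mul, map_sub, map_mul, map_pow, map_ofNat] at h1
  have hEL' : algebraMap K L' b * (algebraMap K L' a ^ 2 - 4 * algebraMap K L' b) ≠ 0 := by
    have h1 := (map_ne_zero (algebraMap K L')).2 hE
    rwa [map_mul, map_sub, map_mul, map_pow, map_ofNat] at h1
  have hjL : HasJ (⟨0, algebraMap K L a, 0, algebraMap K L b, 0⟩ : WeierstrassCurve L) j := by
    have h1 := Pool.Agent.Lib.MP_1a91b9_ntW.J.hasJ_map (algebraMap K L) hj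
    rwa [crv_map] at h1
  have hjL' : HasJ (⟨0, algebraMap K L' a, 0, algebraMap K L' b, 0⟩ : WeierstrassCurve L') j := by
    have h1 := Pool.Agent.Lib.MP_1a91b9_ntW.J.hasJ_map (algebraMap K L') hj
    rwa [crv_map] at h1
  have eL' : (⟨0, algebraMap K L a, 0, algebraMap K L b, 0⟩ : WeierstrassCurve L).map
      (algebraMap L L') = (⟨0, algebraMap K L' a, 0, algebraMap K L' b, 0⟩ : WeierstrassCurve L') :=
    WeierstrassCurve.ext (map_zero _) rfl (map_zero _) rfl (map_zero _)
  refine ⟨⟨g, g1, g3, fun z hz => ?_, ?_⟩, ?_, ?_, fun v => tam_good hEL hjL hq.out h5 hgE v,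
    ?_, ?_⟩
  · -- the L-series
    have h1 := hQ L L' (algebraMap K L (d : K)) y hd0 hy' hn hgen' z hz
    have h2 : twd ((crv a b).map (algebraMap K L)) (algebraMap K L (d : K)) =
        (⟨0, algebraMap K L (d : K) * algebraMap K L a, 0,
          algebraMap K L (d : K) ^ 2 * algebraMap K L b, 0⟩ : WeierstrassCurve L) := by
      rw [crv_map, twd_crv]
    have h3 : (crv a b).map (algebraMap K L) =
        (⟨0, algebraMap K L a, 0, algebraMap K L b, 0⟩ : WeierstrassCurve L) := crv_map _ a b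
    rw [h2, h3] at h1
    rw [g2 z hz, h1]
  · -- the leading terms
    obtain ⟨ρ, hρ1, hρ2⟩ := period_rel (cplx hsL hD) (algebraMap K L a) (algebraMap K L b)
      (by rw [he]; exact hy') he0 hgen' hn
    have hρ : UnitQ q ρ := by
      refine hρ1 q hq.out hq2 (hge e he) ?_ hgE ?_
      · rw [he]
        exact hgV
      · have h4 : (⟨0, algebraMap K L a, 0, algebraMap K L b, 0⟩ : WeierstrassCurve L).baseChange
            L' = (⟨0, algebraMap K L' a, 0, algebraMap K L' b, 0⟩ : WeierstrassCurve L') :=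
          WeierstrassCurve.ext (map_zero _) rfl (map_zero _) rfl (map_zero _)
        rw [h4]
        exact hgE'
    obtain ⟨V, hV⟩ : ∃ V : WeierstrassCurve L, V = ⟨0, algebraMap K L (d : K) * algebraMap K L a,
      0, algebraMap K L (d : K) ^ 2 * algebraMap K L b, 0⟩ := ⟨_, rfl⟩
    rw [← hV] at g5 g6 g8 r3
    rw [he, ← hV] at hρ2
    have htam : (∏ᶠ v : HeightOneSpectrum (𝓞 L),
        Pool.Agent.Lib.MP_1a91b9_nuT.S9.tam V v).Coprime q :=
      finprod_induction (fun x : ℕ => x.Coprime q) (Nat.coprime_one_left q)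
        (fun _ _ => Nat.Coprime.mul_left) g6
    obtain ⟨tp, htp⟩ : ∃ tp : ℕ, tp = ∏ᶠ v : HeightOneSpectrum (𝓞 L),
      Pool.Agent.Lib.MP_1a91b9_nuT.S9.tam V v := ⟨_, rfl⟩
    rw [← htp] at htam r3
    have hr₀ : UnitQ q (r * ((tp : ℚ) * (((Nat.card V.toAffine.Point : ℕ) : ℚ) *
        ((Nat.card V.toAffine.Point : ℕ) : ℚ))⁻¹)) :=
      UnitQ.mul ⟨r1, r2⟩ ((unitQ_nat htam).mul (((unitQ_nat g8).mul (unitQ_nat g8)).inv hq.out))
    refine lead_rel hq.out (by exact_mod_cast discr_ne_zero L) (by exact_mod_cast discr_ne_zero L')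
      hr₀ hρ g3 ?_ hρ2
    rw [r3, g5]
    push_cast
    rw [sq, one_mul, div_eq_mul_inv]
  · -- the rank
    classical
    have hsqL : ¬ IsSquare (algebraMap K L (d : K)) := fun h => hn (isSquare_of_mem hy' h)
    have h4 : (⟨0, algebraMap K L a, 0, algebraMap K L b, 0⟩ : WeierstrassCurve L).map
        (algebraMap L L') = (⟨0, algebraMap L L' (algebraMap K L a), 0,
          algebraMap L L' (algebraMap K L b), 0⟩ : WeierstrassCurve L') :=
      WeierstrassCurve.ext (map_zero _) rfl (map_zero _) rfl (map_zero _)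
    rw [h4]
    exact finrank_quad (F' := L') (algebraMap K L a) (algebraMap K L b) (algebraMap K L (d : K))
      hsqL (Pool.Agent.Lib.MP_1a91b9_ntN.G.finrank_two' hn hgen') y hy' g7
  · -- the index
    classical
    exact idx_coprime hEL hd0 hy' hn hgen' hq.out hq2 g7 g8
  · -- the Tamagawa numbers over `L'`
    rw [eL']
    exact fun v => tam_good hEL' hjL' hq.out h5 hgE' v
  · -- the Tate-Shafarevich group
    have hsub : Subsingleton (Pool.Agent.Lib.MP_1a91b9_nuT3.S9.ShaP q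
        (⟨0, algebraMap K L (d : K) * algebraMap K L a, 0,
          algebraMap K L (d : K) ^ 2 * algebraMap K L b, 0⟩ : WeierstrassCurve L)) :=
      (Nat.card_eq_one_iff_unique.1 g5).1
    exact sha_stab (cplx hsL hD) (cplx hsL' hD) hy' hd0 hgen' hn q hq2 hsub

end Pool.Agent.Lib.MP_1a91b9_ntC.Sh
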