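import Mathlib

/-!
# MP_1a91b9_nt (stability of the Tate-Shafarevich group): cocycles and a subgroup of index two

`act` is an action of the group `G` on `A`, `H` a subgroup such that the product of two elements
outside `H` is in `H` (so `H = G`, or `H` has index two and is normal).
-/

set_option autoImplicit false

namespace Pool.Agent.Lib.MP_1a91b9_ntC.Sh

theorem mul_notMem_left {G : Type*} [Group G] {H : Subgroup G} {σ τ : G} (hσ : σ ∈ H)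
    (hτ : τ ∉ H) : σ * τ ∉ H := fun h => hτ ((H.mul_mem_cancel_left hσ).1 h)

theorem mul_notMem_right {G : Type*} [Group G] {H : Subgroup G} {σ τ : G} (hσ : σ ∉ H)
    (hτ : τ ∈ H) : σ * τ ∉ H := fun h => hσ ((H.mul_mem_cancel_right hτ).1 h)

theorem inv_notMem {G : Type*} [Group G] {H : Subgroup G} {σ : G} (hσ : σ ∉ H) : σ⁻¹ ∉ H :=
  fun h => hσ (H.inv_mem_iff.1 h)

/-- A cocycle which is a coboundary on `H` becomes a coboundary after multiplication by two. -/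
theorem two_cob {G A : Type*} [Group G] [AddCommGroup A] (act : G → A →+ A)
    (h1 : ∀ a, act 1 a = a) (hm : ∀ σ τ a, act (σ * τ) a = act σ (act τ a)) (H : Subgroup G)
    (hH : ∀ σ τ, σ ∉ H → τ ∉ H → σ * τ ∈ H) (c : G → A)
    (hc : ∀ σ τ, c (σ * τ) = c σ + act σ (c τ)) (P : A) (h0 : ∀ σ ∈ H, c σ = act σ P - P) :
    ∃ R : A, ∀ σ, 2 • c σ = act σ R - R := by
  by_cases hG : ∀ σ, σ ∈ H
  · refine ⟨2 • P, fun σ => ?_⟩
    rw [h0 σ (hG σ), map_nsmul, nsmul_sub]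
  · push Not at hG
    obtain ⟨ρ, hρ⟩ := hG
    -- the cocycle minus the coboundary
    obtain ⟨q, hq⟩ : ∃ q, q = c ρ - (act ρ P - P) := ⟨_, rfl⟩
    have e1 : ∀ τ ∈ H, act τ q = q := by
      intro τ hτ
      have hτ' : ρ⁻¹ * τ * ρ ∈ H := hH _ _ (mul_notMem_right (inv_notMem hρ) hτ) hρ
      have a1 := hc τ ρ
      have a2 := hc ρ (ρ⁻¹ * τ * ρ)
      have a3 : ρ * (ρ⁻¹ * τ * ρ) = τ * ρ := by group
      rw [a3, h0 _ hτ', map_sub, ← hm, a3, hm] at a2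
      rw [h0 τ hτ] at a1
      rw [hq, map_sub, map_sub]
      rw [a1] at a2
      have : act τ (c ρ) = c ρ + (act τ (act ρ P) - act ρ P) - (act τ P - P) := by
        rw [← a2]
        abel
      rw [this]
      abel
    have e2 : act ρ q = -q := by
      have a1 := hc ρ ρ
      rw [h0 _ (hH ρ ρ hρ hρ), hm] at a1
      rw [hq, map_sub, map_sub]
      have : act ρ (c ρ) = act ρ (act ρ P) - P - c ρ := by
        rw [a1]
        abel
      rw [this]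
      abel
    refine ⟨2 • P - q, fun σ => ?_⟩
    by_cases hσ : σ ∈ H
    · rw [h0 σ hσ, map_sub, map_nsmul, e1 σ hσ, nsmul_sub]
      abel
    · have hτ : σ * ρ⁻¹ ∈ H := hH _ _ hσ (inv_notMem hρ)
      have a1 := hc (σ * ρ⁻¹) ρ
      have a2 : act σ q = -q := by
        have := hm (σ * ρ⁻¹) ρ q
        rw [inv_mul_cancel_right, e2, map_neg, e1 _ hτ] at this
        exact this
      have a3 : act (σ * ρ⁻¹) (c ρ) = q + (act σ P - act (σ * ρ⁻¹) P) := by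
        have hcρ : c ρ = q + (act ρ P - P) := by
          rw [hq]
          abel
        rw [hcρ, map_add, map_sub, e1 _ hτ, ← hm, inv_mul_cancel_right]
      rw [inv_mul_cancel_right, h0 _ hτ, a3] at a1
      rw [a1, map_sub, map_nsmul, a2, two_nsmul, two_nsmul, two_nsmul]
      abel

/-- The corestriction of `u` (`u` is zero outside `H`, a cocycle on `H`); `ρ` is not in `H`. -/
def corF {G A : Type*} [Group G] [AddCommGroup A] (act : G → A →+ A) (ρ : G) (u : G → A) (τ : G) :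
    A :=
  u τ + u (τ * ρ⁻¹) + act ρ⁻¹ (u (ρ * τ * ρ⁻¹) + u (ρ * τ))

theorem corF_mem {G A : Type*} [Group G] [AddCommGroup A] (act : G → A →+ A)
    (H : Subgroup G) (hH : ∀ σ τ, σ ∉ H → τ ∉ H → σ * τ ∈ H) {ρ : G} (hρ : ρ ∉ H) (u : G → A)
    (h0 : ∀ σ, σ ∉ H → u σ = 0) {τ : G} (hτ : τ ∈ H) :
    corF act ρ u τ = u τ + act ρ⁻¹ (u (ρ * τ * ρ⁻¹)) := by
  unfold corF
  rw [h0 _ (mul_notMem_left hτ (inv_notMem hρ)), h0 _ (mul_notMem_right hρ hτ), add_zero, add_zero]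

theorem corF_notMem {G A : Type*} [Group G] [AddCommGroup A] (act : G → A →+ A)
    (H : Subgroup G) (hH : ∀ σ τ, σ ∉ H → τ ∉ H → σ * τ ∈ H) {ρ : G} (hρ : ρ ∉ H) (u : G → A)
    (h0 : ∀ σ, σ ∉ H → u σ = 0) {τ : G} (hτ : τ ∉ H) :
    corF act ρ u τ = u (τ * ρ⁻¹) + act ρ⁻¹ (u (ρ * τ)) := by
  unfold corF
  rw [h0 _ hτ, h0 _ (mul_notMem_left (hH ρ τ hρ hτ) (inv_notMem hρ)), zero_add, zero_add]

theorem corF_coc {G A : Type*} [Group G] [AddCommGroup A] (act : G → A →+ A)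
    (h1 : ∀ a, act 1 a = a) (hm : ∀ σ τ a, act (σ * τ) a = act σ (act τ a)) (H : Subgroup G)
    (hH : ∀ σ τ, σ ∉ H → τ ∉ H → σ * τ ∈ H) {ρ : G} (hρ : ρ ∉ H) (u : G → A)
    (h0 : ∀ σ, σ ∉ H → u σ = 0) (hu : ∀ σ ∈ H, ∀ τ ∈ H, u (σ * τ) = u σ + act σ (u τ)) (σ τ : G) :
    corF act ρ u (σ * τ) = corF act ρ u σ + act σ (corF act ρ u τ) := by
  have hρ' := inv_notMem hρ
  have hconj : ∀ x ∈ H, ρ * x * ρ⁻¹ ∈ H := fun x hx => hH _ _ (mul_notMem_right hρ hx) hρ'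
  have hl : ∀ x, x ∉ H → ρ * x ∈ H := fun x hx => hH _ _ hρ hx
  have hr : ∀ x, x ∉ H → x * ρ⁻¹ ∈ H := fun x hx => hH _ _ hx hρ'
  have key : ∀ (x : G) (a : A), act ρ⁻¹ (act (ρ * x) a) = act x a := by
    intro x a
    rw [← hm, inv_mul_cancel_left]
  by_cases hσ : σ ∈ H <;> by_cases hτ : τ ∈ H
  · rw [corF_mem act H hH hρ u h0 (H.mul_mem hσ hτ), corF_mem act H hH hρ u h0 hσ,
      corF_mem act H hH hρ u h0 hτ, hu σ hσ τ hτ,
      show ρ * (σ * τ) * ρ⁻¹ = (ρ * σ * ρ⁻¹) * (ρ * τ * ρ⁻¹) by group,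
      hu _ (hconj σ hσ) _ (hconj τ hτ), map_add, map_add, mul_assoc ρ σ ρ⁻¹, key, hm σ ρ⁻¹,
      ← mul_assoc ρ σ ρ⁻¹]
    abel
  · rw [corF_notMem act H hH hρ u h0 (mul_notMem_left hσ hτ), corF_mem act H hH hρ u h0 hσ,
      corF_notMem act H hH hρ u h0 hτ, mul_assoc σ τ ρ⁻¹, hu σ hσ _ (hr τ hτ),
      show ρ * (σ * τ) = (ρ * σ * ρ⁻¹) * (ρ * τ) by group,
      hu _ (hconj σ hσ) _ (hl τ hτ), map_add, map_add, mul_assoc ρ σ ρ⁻¹, key, hm σ ρ⁻¹,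
      ← mul_assoc ρ σ ρ⁻¹]
    abel
  · rw [corF_notMem act H hH hρ u h0 (mul_notMem_right hσ hτ), corF_notMem act H hH hρ u h0 hσ,
      corF_mem act H hH hρ u h0 hτ,
      show σ * τ * ρ⁻¹ = (σ * ρ⁻¹) * (ρ * τ * ρ⁻¹) by group,
      hu _ (hr σ hσ) _ (hconj τ hτ), ← mul_assoc ρ σ τ, hu _ (hl σ hσ) _ hτ, map_add, map_add,
      key, hm σ ρ⁻¹]
    abel
  · rw [corF_mem act H hH hρ u h0 (hH σ τ hσ hτ), corF_notMem act H hH hρ u h0 hσ,
      corF_notMem act H hH hρ u h0 hτ,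
      show ρ * (σ * τ) * ρ⁻¹ = (ρ * σ) * (τ * ρ⁻¹) by group,
      show u (σ * τ) = u ((σ * ρ⁻¹) * (ρ * τ)) by congr 1; group,
      hu _ (hr σ hσ) _ (hl τ hτ), hu _ (hl σ hσ) _ (hr τ hτ), map_add, map_add, key, hm σ ρ⁻¹]
    abel

theorem corF_cob {G A : Type*} [Group G] [AddCommGroup A] (act : G → A →+ A)
    (h1 : ∀ a, act 1 a = a) (hm : ∀ σ τ a, act (σ * τ) a = act σ (act τ a)) (H : Subgroup G)
    (hH : ∀ σ τ, σ ∉ H → τ ∉ H → σ * τ ∈ H) {ρ : G} (hρ : ρ ∉ H) (u : G → A)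
    (h0 : ∀ σ, σ ∉ H → u σ = 0) (P : A) (hu : ∀ σ ∈ H, u σ = act σ P - P) (τ : G) :
    corF act ρ u τ = act τ (P + act ρ⁻¹ P) - (P + act ρ⁻¹ P) := by
  have hρ' := inv_notMem hρ
  have key : ∀ (x : G) (a : A), act ρ⁻¹ (act (ρ * x) a) = act x a := by
    intro x a
    rw [← hm, inv_mul_cancel_left]
  by_cases hτ : τ ∈ H
  · rw [corF_mem act H hH hρ u h0 hτ, hu τ hτ, hu _ (hH _ _ (mul_notMem_right hρ hτ) hρ'), map_sub,
      mul_assoc ρ τ ρ⁻¹, key, hm τ ρ⁻¹, map_add]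
    abel
  · rw [corF_notMem act H hH hρ u h0 hτ, hu _ (hH _ _ hτ hρ'), hu _ (hH _ _ hρ hτ), map_sub,
      key, hm τ ρ⁻¹, map_add]
    abel

theorem corF_nsmul {G A : Type*} [Group G] [AddCommGroup A] (act : G → A →+ A) (ρ : G)
    (u : G → A) (n : ℕ) (τ : G) : corF act ρ (n • u) τ = n • corF act ρ u τ := by
  unfold corF
  simp only [Pi.smul_apply]
  rw [← nsmul_add, ← nsmul_add, map_nsmul, ← nsmul_add]

end Pool.Agent.Lib.MP_1a91b9_ntC.Sh
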