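import Mathlib

/-!
# MP_1a91b9_nt (the period relation): the discriminant of a quadratic extension up to rational squares

`A = N(x₀)`, `x₀² = e`, `e` an algebraic integer of `N`, `x₀` not in `N`. Proof: for an integral basis `ω` of
`N`, `(ω, x₀ ω)` is a basis of `A` over `ℚ` of elements of `𝓞 A`; its matrix of traces has the blocks
`2 Tr(ω_i ω_j)`, `0`, `2 Tr(e ω_i ω_j)`; so its discriminant is `4^n d_N² N(e)`, and it is `f² d_A` with a
natural number `f`, the index. As `d_N²` divides `d_A`, `f²` divides `4^n N(e)` (for the second theorem).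
-/

set_option autoImplicit false

namespace Pool.Agent.Lib.MP_1a91b9_ntC.Sh

open NumberField

/-- `r` is a unit at `q` -/
def UnitQ (q : ℕ) (r : ℚ) : Prop := IsCoprime r.num (q : ℤ) ∧ r.den.Coprime q

theorem UnitQ.mul {q : ℕ} {r s : ℚ} (hr : UnitQ q r) (hs : UnitQ q s) : UnitQ q (r * s) := by
  refine ⟨?_, ?_⟩
  · have h1 : (r * s).num * (r.den * s.den : ℤ) = r.num * s.num * (r * s).den := by
      rw [← mul_assoc]
      exact Rat.mul_num_den' r s
    have h2 : (r * s).num ∣ r.num * s.num := by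
      have h3 : IsCoprime (r * s).num ((r * s).den : ℤ) := by
        rw [Int.isCoprime_iff_gcd_eq_one]
        exact (r * s).reduced
      exact h3.dvd_of_dvd_mul_right ⟨_, h1.symm⟩
    exact (hr.1.mul_left hs.1).of_isCoprime_of_dvd_left h2
  · exact (Nat.Coprime.mul_left hr.2 hs.2).coprime_dvd_left (Rat.mul_den_dvd r s)

theorem UnitQ.ne_zero {q : ℕ} (hq : q.Prime) {r : ℚ} (hr : UnitQ q r) : r ≠ 0 := by
  rintro rfl
  have h1 := hr.1
  rw [Rat.num_zero, isCoprime_zero_left] at h1
  have h2 := Int.isUnit_iff.1 h1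
  have h3 := hq.two_le
  omega

theorem UnitQ.inv {q : ℕ} (hq : q.Prime) {r : ℚ} (hr : UnitQ q r) : UnitQ q r⁻¹ := by
  have h0 := hr.ne_zero hq
  have h0' : r.num ≠ 0 := Rat.num_ne_zero.2 h0
  refine ⟨?_, ?_⟩
  · rw [Rat.num_inv]
    refine IsCoprime.mul_left ?_ (Nat.isCoprime_iff_coprime.2 hr.2)
    rcases lt_or_gt_of_ne h0' with h | h
    · rw [Int.sign_eq_neg_one_of_neg h]
      exact isCoprime_one_left.neg_left
    · rw [Int.sign_eq_one_of_pos h]
      exact isCoprime_one_left
  · rw [Rat.den_inv_of_ne_zero h0]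
    have h1 := Int.isCoprime_iff_gcd_eq_one.1 hr.1
    rw [Int.gcd, Int.natAbs_natCast] at h1
    exact h1

private theorem D_nat {q n : ℕ} (h : n.Coprime q) : UnitQ q (n : ℚ) := by
  refine ⟨?_, ?_⟩
  · rw [Rat.num_natCast]
    exact Nat.isCoprime_iff_coprime.2 h
  · rw [Rat.den_natCast]
    exact Nat.coprime_one_left q

section

variable {N A : Type} [Field N] [NumberField N] [Field A] [NumberField A] [Algebra N A]

private theorem D_basis {x₀ : A}
    (hx' : ∀ z : A, ∃ α β : N, z = algebraMap N A α + algebraMap N A β * x₀)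
    (hn : ¬ ∃ y : N, algebraMap N A y = x₀) :
    ∃ b : Module.Basis (Fin 2) N A, b 0 = 1 ∧ b 1 = x₀ := by
  have hli : LinearIndependent N ![(1 : A), x₀] := by
    rw [LinearIndependent.pair_iff]
    intro s t h
    rw [Algebra.smul_def, Algebra.smul_def, mul_one] at h
    have ht : t = 0 := by
      by_contra ht
      refine hn ⟨-s / t, ?_⟩
      have ht' : algebraMap N A t ≠ 0 := (map_ne_zero _).2 ht
      rw [map_div₀, map_neg, div_eq_iff ht']
      linear_combination -h
    refine ⟨?_, ht⟩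
    rw [ht, map_zero, zero_mul, add_zero] at h
    exact (map_eq_zero _).1 h
  have hsp : ⊤ ≤ Submodule.span N (Set.range ![(1 : A), x₀]) := by
    intro z _
    obtain ⟨α, β, rfl⟩ := hx' z
    have h1 : algebraMap N A α + algebraMap N A β * x₀ = α • (1 : A) + β • x₀ := by
      rw [Algebra.smul_def, Algebra.smul_def, mul_one]
    rw [h1]
    exact Submodule.add_mem _ (Submodule.smul_mem _ _ (Submodule.subset_span ⟨0, rfl⟩))
      (Submodule.smul_mem _ _ (Submodule.subset_span ⟨1, rfl⟩))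
  exact ⟨Module.Basis.mk hli hsp, by rw [Module.Basis.mk_apply]; rfl,
    by rw [Module.Basis.mk_apply]; rfl⟩

private theorem D_finrank {x₀ : A}
    (hx' : ∀ z : A, ∃ α β : N, z = algebraMap N A α + algebraMap N A β * x₀)
    (hn : ¬ ∃ y : N, algebraMap N A y = x₀) : Module.finrank N A = 2 := by
  obtain ⟨b, -, -⟩ := D_basis hx' hn
  rw [Module.finrank_eq_card_basis b, Fintype.card_fin]

private theorem D_trace {e : N} {x₀ : A} (hx : x₀ ^ 2 = algebraMap N A e)
    (hx' : ∀ z : A, ∃ α β : N, z = algebraMap N A α + algebraMap N A β * x₀)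
    (hn : ¬ ∃ y : N, algebraMap N A y = x₀) : Algebra.trace N A x₀ = 0 := by
  obtain ⟨b, h0, h1⟩ := D_basis hx' hn
  rw [Algebra.trace_eq_matrix_trace b, Matrix.trace_fin_two, Algebra.leftMulMatrix_eq_repr_mul,
    Algebra.leftMulMatrix_eq_repr_mul, h0, mul_one, ← h1, Module.Basis.repr_self,
    Finsupp.single_apply, if_neg (by decide), zero_add, h1, ← pow_two, hx]
  have h2 : algebraMap N A e = e • b 0 := by rw [h0, Algebra.smul_def, mul_one]
  rw [h2, map_smul, Module.Basis.repr_self, Finsupp.smul_apply, Finsupp.single_apply,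
    if_neg (by decide), smul_zero]

/-- the traces over `ℚ` -/
private theorem D_tr {e : N} {x₀ : A} (hx : x₀ ^ 2 = algebraMap N A e)
    (hx' : ∀ z : A, ∃ α β : N, z = algebraMap N A α + algebraMap N A β * x₀)
    (hn : ¬ ∃ y : N, algebraMap N A y = x₀) (α β : N) :
    Algebra.trace ℚ A (algebraMap N A α + algebraMap N A β * x₀) = 2 * Algebra.trace ℚ N α := by
  rw [← Algebra.trace_trace (S := N), map_add, Algebra.trace_algebraMap, D_finrank hx' hn,
    ← Algebra.smul_def, map_smul, D_trace hx hx' hn, smul_zero, add_zero, map_nsmul,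
    nsmul_eq_mul]
  norm_num

/-- the family `(ω, ω x₀)` -/
private noncomputable def D_fam {ι : Type} (ω : ι → N) (x₀ : A) : ι ⊕ ι → A :=
  Sum.elim (fun i => algebraMap N A (ω i)) (fun i => algebraMap N A (ω i) * x₀)

private theorem D_det {ι : Type} [Fintype ι] [DecidableEq ι] (ω : Module.Basis ι ℚ N) {e : N}
    {x₀ : A} (hx : x₀ ^ 2 = algebraMap N A e)
    (hx' : ∀ z : A, ∃ α β : N, z = algebraMap N A α + algebraMap N A β * x₀)
    (hn : ¬ ∃ y : N, algebraMap N A y = x₀) :
    Algebra.discr ℚ (D_fam ω x₀) =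
      (2 ^ Fintype.card ι) ^ 2 * Algebra.discr ℚ ω ^ 2 * Algebra.norm ℚ e := by
  have hM : Algebra.traceMatrix ℚ (D_fam ω x₀) = Matrix.fromBlocks
      ((2 : ℚ) • Algebra.traceMatrix ℚ ω) 0 0
      ((2 : ℚ) • (Algebra.traceMatrix ℚ ω * Algebra.leftMulMatrix ω e)) := by
    ext i j
    rcases i with i | i <;> rcases j with j | j
    · rw [Matrix.fromBlocks_apply₁₁, Algebra.traceMatrix_apply, Algebra.traceForm_apply,
        Matrix.smul_apply, Algebra.traceMatrix_apply, Algebra.traceForm_apply]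
      have h1 := D_tr hx hx' hn (ω i * ω j) 0
      rw [map_zero, zero_mul, add_zero, map_mul (algebraMap N A)] at h1
      exact h1
    · rw [Matrix.fromBlocks_apply₁₂, Algebra.traceMatrix_apply, Algebra.traceForm_apply,
        Matrix.zero_apply]
      have h1 := D_tr hx hx' hn 0 (ω i * ω j)
      rw [map_zero, zero_add, map_mul (algebraMap N A), map_zero, mul_zero, mul_assoc] at h1
      exact h1
    · rw [Matrix.fromBlocks_apply₂₁, Algebra.traceMatrix_apply, Algebra.traceForm_apply,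
        Matrix.zero_apply]
      have h1 := D_tr hx hx' hn 0 (ω i * ω j)
      rw [map_zero, zero_add, map_mul (algebraMap N A), map_zero, mul_zero, mul_right_comm] at h1
      exact h1
    · rw [Matrix.fromBlocks_apply₂₂, Algebra.traceMatrix_apply, Algebra.traceForm_apply,
        Matrix.smul_apply, Matrix.mul_apply]
      have h1 := D_tr hx hx' hn (ω i * (e * ω j)) 0
      rw [map_zero, zero_mul, add_zero, map_mul (algebraMap N A), map_mul (algebraMap N A),
        ← hx] at h1
      have h2 : D_fam ω x₀ (Sum.inr i) * D_fam ω x₀ (Sum.inr j) =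
          algebraMap N A (ω i) * (x₀ ^ 2 * algebraMap N A (ω j)) := by
        show algebraMap N A (ω i) * x₀ * (algebraMap N A (ω j) * x₀) = _
        ring
      rw [h2, h1, smul_eq_mul]
      congr 1
      have h3 : e * ω j = ∑ k, Algebra.leftMulMatrix ω e k j • ω k := by
        conv_lhs => rw [← ω.sum_repr (e * ω j)]
        exact Finset.sum_congr rfl fun k _ => by rw [Algebra.leftMulMatrix_eq_repr_mul]
      rw [h3, Finset.mul_sum, map_sum]
      refine Finset.sum_congr rfl fun k _ => ?_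
      rw [Algebra.traceMatrix_apply, Algebra.traceForm_apply, mul_smul_comm, map_smul,
        smul_eq_mul, mul_comm]
  rw [Algebra.discr_def, hM, Matrix.det_fromBlocks_zero₂₁, Matrix.det_smul, Matrix.det_smul,
    Matrix.det_mul, ← Algebra.discr_def, Algebra.norm_eq_matrix_det ω]
  ring

/-- the index -/
private theorem D_index {ι : Type} [Fintype ι] [DecidableEq ι] (v : ι → 𝓞 A)
    (hc : Fintype.card ι = Module.finrank ℚ A) :
    ∃ f : ℤ, Algebra.discr ℚ (fun i => (v i : A)) = (f : ℚ) ^ 2 * (discr A : ℚ) := by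
  classical
  have hcard : Fintype.card (Module.Free.ChooseBasisIndex ℤ (𝓞 A)) = Fintype.card ι := by
    rw [hc, ← RingOfIntegers.rank, Module.finrank_eq_card_basis (RingOfIntegers.basis A)]
  let e₁ : Module.Free.ChooseBasisIndex ℤ (𝓞 A) ≃ ι := Fintype.equivOfCardEq hcard
  let b := (integralBasis A).reindex e₁
  let P : Matrix ι ι ℤ := Matrix.of fun i j => (RingOfIntegers.basis A).repr (v j) (e₁.symm i)
  refine ⟨P.det, ?_⟩
  have h1 : b.toMatrix (fun i => (v i : A)) = P.map (algebraMap ℤ ℚ) := by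
    ext i j
    rw [Module.Basis.toMatrix_apply, Module.Basis.repr_reindex_apply]
    exact integralBasis_repr_apply A (v j) (e₁.symm i)
  have h2 := Algebra.discr_of_matrix_vecMul (A := ℚ) b (b.toMatrix (fun i => (v i : A)))
  rw [Module.Basis.toMatrix_map_vecMul] at h2
  rw [h2, h1]
  have h3 : (P.map (algebraMap ℤ ℚ)).det = (P.det : ℚ) := by
    have := (RingHom.map_det (algebraMap ℤ ℚ) P).symm
    exact this
  have h4 : Algebra.discr ℚ b = (discr A : ℚ) := by
    rw [coe_discr]
    have h5 : (b : ι → A) = integralBasis A ∘ e₁.symm := by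
      funext i
      exact Module.Basis.reindex_apply _ _ _
    rw [h5, Algebra.discr_reindex]
  rw [h3, h4]

end

theorem disc_quad {N A : Type} [Field N] [NumberField N] [Field A] [NumberField A] [Algebra N A]
    {e : 𝓞 N} {x₀ : A} (hx : x₀ ^ 2 = algebraMap N A (e : N)) (he : e ≠ 0)
    (hx' : ∀ z : A, ∃ α β : N, z = algebraMap N A α + algebraMap N A β * x₀)
    (hn : ¬ ∃ y : N, algebraMap N A y = x₀) :
    ∃ r : ℚ, r ≠ 0 ∧ (|(discr A : ℝ)| = (r : ℝ) ^ 2 * (discr N : ℝ) ^ 2 *
      |((Algebra.norm ℚ (e : N) : ℚ) : ℝ)|) ∧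
      ∀ q : ℕ, q.Prime → q ≠ 2 → IsCoprime (Algebra.norm ℤ e) (q : ℤ) → UnitQ q r := by
  classical
  let ι := Module.Free.ChooseBasisIndex ℤ (𝓞 N)
  set n := Fintype.card ι with hndef
  have hfr := D_finrank hx' hn
  have hnN : Module.finrank ℚ N = n := by
    rw [← RingOfIntegers.rank, Module.finrank_eq_card_basis (RingOfIntegers.basis N)]
  have hnA : Fintype.card (ι ⊕ ι) = Module.finrank ℚ A := by
    rw [Fintype.card_sum, ← Module.finrank_mul_finrank ℚ N A, hfr, hnN]
    ring
  have he' : (e : N) ≠ 0 := fun h => he (RingOfIntegers.coe_eq_zero_iff.1 h)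
  have hxi : IsIntegral ℤ x₀ := by
    have h1 : IsIntegral ℤ (x₀ ^ 2) := by
      rw [hx]
      exact (RingOfIntegers.isIntegral_coe e).map (IsScalarTower.toAlgHom ℤ N A)
    exact IsIntegral.of_pow two_pos h1
  have hωi : ∀ i : ι, IsIntegral ℤ (algebraMap N A (integralBasis N i)) := by
    intro i
    rw [integralBasis_apply]
    exact (RingOfIntegers.isIntegral_coe (RingOfIntegers.basis N i)).map
      (IsScalarTower.toAlgHom ℤ N A)
  have hvi : ∀ i : ι ⊕ ι, IsIntegral ℤ (D_fam (integralBasis N) x₀ i) := by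
    rintro (i | i)
    · exact hωi i
    · exact (hωi i).mul hxi
  obtain ⟨f, hf⟩ := D_index (fun i => (⟨D_fam (integralBasis N) x₀ i, hvi i⟩ : 𝓞 A)) hnA
  have hf1 : Algebra.discr ℚ (D_fam (integralBasis N) x₀) = (f : ℚ) ^ 2 * (discr A : ℚ) := hf
  rw [D_det (integralBasis N) hx hx' hn, ← coe_discr] at hf1
  have hdN : (discr N : ℚ) ≠ 0 := Int.cast_ne_zero.2 (discr_ne_zero N)
  have hne : Algebra.norm ℚ (e : N) ≠ 0 := Algebra.norm_ne_zero_iff.2 he'
  have hf0 : f ≠ 0 := by
    rintro rfl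
    rw [Int.cast_zero, zero_pow two_ne_zero, zero_mul] at hf1
    have h2 : ((2 : ℚ) ^ n) ^ 2 ≠ 0 := by positivity
    exact mul_ne_zero (mul_ne_zero h2 (pow_ne_zero 2 hdN)) hne hf1
  have hfq : (f : ℚ) ≠ 0 := Int.cast_ne_zero.2 hf0
  refine ⟨2 ^ n * (f.natAbs : ℚ)⁻¹, ?_, ?_, ?_⟩
  · have h1 : (f.natAbs : ℚ) ≠ 0 := Nat.cast_ne_zero.2 (Int.natAbs_ne_zero.2 hf0)
    positivity
  · have h1 : ((discr A : ℤ) : ℚ) = ((2 : ℚ) ^ n * (f : ℚ)⁻¹) ^ 2 * (discr N : ℚ) ^ 2 *
        Algebra.norm ℚ (e : N) := by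
      field_simp
      linear_combination -hf1
    have h2 : (discr A : ℝ) = ((2 : ℝ) ^ n * (f : ℝ)⁻¹) ^ 2 * (discr N : ℝ) ^ 2 *
        ((Algebra.norm ℚ (e : N) : ℚ) : ℝ) := by
      have h3 := congrArg (fun x : ℚ => (x : ℝ)) h1
      push_cast at h3
      exact h3
    have h4 : ((f.natAbs : ℝ))⁻¹ ^ 2 = ((f : ℝ)⁻¹) ^ 2 := by
      rw [inv_pow, inv_pow, Nat.cast_natAbs, Int.cast_abs, sq_abs]
    rw [h2, abs_mul, abs_mul, abs_of_nonneg (sq_nonneg ((2 : ℝ) ^ n * (f : ℝ)⁻¹)),
      abs_of_nonneg (sq_nonneg (discr N : ℝ))]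
    push_cast
    rw [mul_pow, mul_pow, h4]
  · intro q hq hq2 hcop
    have hfcop : f.natAbs.Coprime q := by
      have h1 := natAbs_discr_eq_absNorm_differentIdeal_mul_natAbs_discr_pow N (𝓞 N) A (𝓞 A)
      rw [hfr] at h1
      have h2 : ((2 : ℤ) ^ n) ^ 2 * discr N ^ 2 * Algebra.norm ℤ e = f ^ 2 * discr A := by
        have h3 : ((Algebra.norm ℤ e : ℤ) : ℚ) = Algebra.norm ℚ (e : N) :=
          Algebra.coe_norm_int e
        have h4 : ((((2 : ℤ) ^ n) ^ 2 * discr N ^ 2 * Algebra.norm ℤ e : ℤ) : ℚ) =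
            ((f ^ 2 * discr A : ℤ) : ℚ) := by
          push_cast
          rw [h3]
          exact hf1
        exact_mod_cast h4
      have h5 := congrArg Int.natAbs h2
      simp only [Int.natAbs_mul, Int.natAbs_pow] at h5
      rw [h1] at h5
      have h6 : 0 < (discr N).natAbs ^ 2 := by
        have := Int.natAbs_ne_zero.2 (discr_ne_zero N)
        positivity
      have h7 : (Int.natAbs 2 ^ n) ^ 2 * (Algebra.norm ℤ e).natAbs =
          f.natAbs ^ 2 * Ideal.absNorm (differentIdeal (𝓞 N) (𝓞 A)) := by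
        have h8 : (discr N).natAbs ^ 2 * ((Int.natAbs 2 ^ n) ^ 2 * (Algebra.norm ℤ e).natAbs) =
            (discr N).natAbs ^ 2 * (f.natAbs ^ 2 *
              Ideal.absNorm (differentIdeal (𝓞 N) (𝓞 A))) := by
          linear_combination h5
        exact Nat.eq_of_mul_eq_mul_left h6 h8
      have h9 : f.natAbs ∣ (Int.natAbs 2 ^ n) ^ 2 * (Algebra.norm ℤ e).natAbs := by
        rw [h7, pow_two, mul_assoc]
        exact Dvd.intro _ rfl
      have h10 : ((Int.natAbs 2 ^ n) ^ 2 * (Algebra.norm ℤ e).natAbs).Coprime q := by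
        refine Nat.Coprime.mul_left ?_ ?_
        · refine Nat.Coprime.pow_left 2 (Nat.Coprime.pow_left n ?_)
          exact (Nat.coprime_primes Nat.prime_two hq).2 (Ne.symm hq2)
        · have h11 := Int.isCoprime_iff_gcd_eq_one.1 hcop
          rw [Int.gcd, Int.natAbs_natCast] at h11
          exact h11
      exact h10.coprime_dvd_left h9
    have h12 : UnitQ q ((2 : ℚ) ^ n) := by
      have h13 : ((2 ^ n : ℕ) : ℚ) = (2 : ℚ) ^ n := by push_cast; rfl
      rw [← h13]
      exact D_nat (Nat.Coprime.pow_left n ((Nat.coprime_primes Nat.prime_two hq).2 (Ne.symm hq2)))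
    exact h12.mul ((D_nat hfcop).inv hq)

end Pool.Agent.Lib.MP_1a91b9_ntC.Sh
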