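import Pool.Agent.Lib.MP_1a91b9_ntC.Sh.R
import Pool.Agent.Lib.MP_1a91b9_ntC.LAll

/-!
# MP_1a91b9_nt (the period relation): the equations are integral with unit discriminant above almost all `q`
-/

set_option autoImplicit false

namespace Pool.Agent.Lib.MP_1a91b9_ntC.Sh

open NumberField IsDedekindDomain WeierstrassCurve
open Pool.Agent.Lib.MP_1a91b9_ntL (crv)

variable [Pool.Agent.Lib.MP_1a91b9_nuT.CD]

omit [Pool.Agent.Lib.MP_1a91b9_nuT.CD] in
/-- an integer prime to `q` is a unit at the places above `q` -/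
theorem val_int {L : Type} [Field L] [NumberField L] {q : ℕ} {D : ℤ} (hD : IsCoprime D (q : ℤ))
    {v : HeightOneSpectrum (𝓞 L)} (hv : (q : 𝓞 L) ∈ v.asIdeal) :
    v.valuation L ((D : ℤ) : L) = 1 := by
  have h1 : ((D : ℤ) : L) = algebraMap (𝓞 L) L ((D : ℤ) : 𝓞 L) := by simp
  rw [h1]
  refine le_antisymm (v.valuation_le_one _) (not_lt.1 fun h => ?_)
  rw [HeightOneSpectrum.valuation_lt_one_iff_mem] at h
  obtain ⟨a, b, hab⟩ := hD
  have h2 : (1 : 𝓞 L) ∈ v.asIdeal := by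
    have h3 : (1 : 𝓞 L) = (a : 𝓞 L) * (D : 𝓞 L) + (b : 𝓞 L) * (q : 𝓞 L) := by
      exact_mod_cast (congrArg (Int.cast : ℤ → 𝓞 L) hab).symm
    rw [h3]
    exact v.asIdeal.add_mem (v.asIdeal.mul_mem_left _ h) (v.asIdeal.mul_mem_left _ hv)
  exact v.isPrime.ne_top ((Ideal.eq_top_iff_one _).2 h2)

omit [Pool.Agent.Lib.MP_1a91b9_nuT.CD] in
/-- integrality at the places above `q` -/
theorem val_le {K L : Type} [Field K] [NumberField K] [Field L] [NumberField L] [Algebra K L]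
    {x : K} {D : ℤ} (hx : IsIntegral ℤ ((D : K) * x)) {q : ℕ} (hD : IsCoprime D (q : ℤ))
    {v : HeightOneSpectrum (𝓞 L)} (hv : (q : 𝓞 L) ∈ v.asIdeal) :
    v.valuation L (algebraMap K L x) ≤ 1 := by
  have h1 : IsIntegral ℤ (algebraMap K L ((D : K) * x)) := hx.map (algebraMap K L).toIntAlgHom
  have h2 : v.valuation L (algebraMap K L ((D : K) * x)) ≤ 1 :=
    v.valuation_le_one (⟨_, h1⟩ : 𝓞 L)
  rwa [map_mul, map_intCast, map_mul, val_int hD hv, one_mul] at h2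

omit [Pool.Agent.Lib.MP_1a91b9_nuT.CD] in
/-- a common denominator -/
theorem exists_den {K : Type} [Field K] [NumberField K] (x : K) :
    ∃ D : ℤ, D ≠ 0 ∧ IsIntegral ℤ ((D : K) * x) := by
  obtain ⟨y, hy, hxy⟩ := ((IsFractionRing.isAlgebraic_iff ℤ ℚ K).2
    (Algebra.IsAlgebraic.isAlgebraic (R := ℚ) x)).exists_integral_multiple
  rw [zsmul_eq_mul] at hxy
  exact ⟨y, hy, hxy⟩

omit [Pool.Agent.Lib.MP_1a91b9_nuT.CD] in
/-- a unit of `K` at `q` has value one above `q` -/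
theorem val_one {K L : Type} [Field K] [NumberField K] [Field L] [NumberField L] [Algebra K L]
    {x : K} {D : ℤ} (h0 : x ≠ 0) (hx : IsIntegral ℤ ((D : K) * x))
    (hx' : IsIntegral ℤ ((D : K) * x⁻¹)) {q : ℕ} (hD : IsCoprime D (q : ℤ))
    {v : HeightOneSpectrum (𝓞 L)} (hv : (q : 𝓞 L) ∈ v.asIdeal) :
    v.valuation L (algebraMap K L x) = 1 := by
  have h1 := val_le (L := L) hx hD hv
  have h2 := val_le (L := L) hx' hD hv
  have h3 : v.valuation L (algebraMap K L x) ≠ 0 :=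
    (Valuation.ne_zero_iff _).2 ((map_ne_zero _).2 h0)
  refine le_antisymm h1 ?_
  rw [map_inv₀, map_inv₀] at h2
  exact (inv_le_one₀ (zero_lt_iff.2 h3)).1 h2

omit [Pool.Agent.Lib.MP_1a91b9_nuT.CD] in
theorem good_crv {L : Type} [Field L] [NumberField L] {q : ℕ} {a b : L}
    (h : ∀ v : HeightOneSpectrum (𝓞 L), (q : 𝓞 L) ∈ v.asIdeal → v.valuation L a ≤ 1 ∧
      v.valuation L b ≤ 1 ∧ v.valuation L (16 * b ^ 2 * (a ^ 2 - 4 * b)) = 1) :
    GoodQ q (⟨0, a, 0, b, 0⟩ : WeierstrassCurve L) := by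
  intro v hv
  obtain ⟨h1, h2, h3⟩ := h v hv
  refine ⟨⟨?_, h1, ?_, h2, ?_⟩, ?_⟩
  · rw [map_zero]
    exact zero_le_one
  · rw [map_zero]
    exact zero_le_one
  · rw [map_zero]
    exact zero_le_one
  · rw [← h3]
    congr 1
    simp only [WeierstrassCurve.Δ, WeierstrassCurve.b₂, WeierstrassCurve.b₄, WeierstrassCurve.b₆,
      WeierstrassCurve.b₈]
    ring

omit [Pool.Agent.Lib.MP_1a91b9_nuT.CD] in
/-- **The exceptional primes.** -/
theorem exists_good {K : Type} [Field K] [NumberField K] {a b : K} (hE : b * (a ^ 2 - 4 * b) ≠ 0)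
    {d : 𝓞 K} (hd : d ≠ 0) : ∃ S : Finset ℕ, ∀ q : ℕ, q.Prime → q ∉ S → q ≠ 2 ∧
      ∀ (L : Type) [Field L] [NumberField L] [Algebra K L],
        GoodQ q (⟨0, algebraMap K L a, 0, algebraMap K L b, 0⟩ : WeierstrassCurve L) ∧
        GoodQ q (⟨0, algebraMap K L (d : K) * algebraMap K L a, 0,
          algebraMap K L (d : K) ^ 2 * algebraMap K L b, 0⟩ : WeierstrassCurve L) ∧
        ∀ e : 𝓞 L, (e : L) = algebraMap K L (d : K) → IsCoprime (Algebra.norm ℤ e) (q : ℤ) := by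
  have hd' : (d : K) ≠ 0 := by exact_mod_cast hd
  have hb : b ≠ 0 := left_ne_zero_of_mul hE
  have hΔ : (16 * b ^ 2 * (a ^ 2 - 4 * b) : K) ≠ 0 :=
    mul_ne_zero (mul_ne_zero (by norm_num) (pow_ne_zero 2 hb)) (right_ne_zero_of_mul hE)
  obtain ⟨D1, h1, i1⟩ := exists_den a
  obtain ⟨D2, h2, i2⟩ := exists_den b
  obtain ⟨D3, h3, i3⟩ := exists_den (16 * b ^ 2 * (a ^ 2 - 4 * b))
  obtain ⟨D4, h4, i4⟩ := exists_den (16 * b ^ 2 * (a ^ 2 - 4 * b))⁻¹
  obtain ⟨D5, h5, i5⟩ := exists_den (d : K)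
  obtain ⟨D6, h6, i6⟩ := exists_den (d : K)⁻¹
  obtain ⟨n, hn⟩ : ∃ n, n = Algebra.norm ℤ d := ⟨_, rfl⟩
  have hn0 : n ≠ 0 := by
    rw [hn]
    exact (Algebra.norm_ne_zero_iff).2 hd
  obtain ⟨D, hD⟩ : ∃ D : ℤ, D = D1 * D2 * (D3 * D4) * (D5 * D6) * n * 2 := ⟨_, rfl⟩
  have hD0 : D ≠ 0 := by
    rw [hD]
    exact mul_ne_zero (mul_ne_zero (mul_ne_zero (mul_ne_zero (mul_ne_zero h1 h2)
      (mul_ne_zero h3 h4)) (mul_ne_zero h5 h6)) hn0) two_ne_zero
  refine ⟨D.natAbs.primeFactors, fun q hq hqS => ?_⟩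
  have hqD : IsCoprime D (q : ℤ) := by
    rw [isCoprime_comm, Int.isCoprime_iff_gcd_eq_one, Int.gcd, Int.natAbs_natCast]
    refine (Nat.Prime.coprime_iff_not_dvd hq).2 fun h => hqS ?_
    exact Nat.mem_primeFactors.2 ⟨hq, h, Int.natAbs_ne_zero.2 hD0⟩
  have c1 : IsCoprime D1 (q : ℤ) := hqD.of_isCoprime_of_dvd_left ⟨D2 * (D3 * D4) * (D5 * D6) * n * 2, by
    rw [hD]; ring⟩
  have c2 : IsCoprime D2 (q : ℤ) := hqD.of_isCoprime_of_dvd_left ⟨D1 * (D3 * D4) * (D5 * D6) * n * 2, by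
    rw [hD]; ring⟩
  have c34 : IsCoprime (D3 * D4) (q : ℤ) := hqD.of_isCoprime_of_dvd_left
    ⟨D1 * D2 * (D5 * D6) * n * 2, by rw [hD]; ring⟩
  have c56 : IsCoprime (D5 * D6) (q : ℤ) := hqD.of_isCoprime_of_dvd_left
    ⟨D1 * D2 * (D3 * D4) * n * 2, by rw [hD]; ring⟩
  have cn : IsCoprime n (q : ℤ) := hqD.of_isCoprime_of_dvd_left
    ⟨D1 * D2 * (D3 * D4) * (D5 * D6) * 2, by rw [hD]; ring⟩
  have c2' : IsCoprime 2 (q : ℤ) := hqD.of_isCoprime_of_dvd_left
    ⟨D1 * D2 * (D3 * D4) * (D5 * D6) * n, by rw [hD]; ring⟩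
  have int_mul : ∀ (m : ℤ) {x : K}, _root_.IsIntegral ℤ x → _root_.IsIntegral ℤ ((m : K) * x) := fun m x hx =>
    (isIntegral_algebraMap (x := m)).mul hx
  have j3 : _root_.IsIntegral ℤ (((D3 * D4 : ℤ) : K) * (16 * b ^ 2 * (a ^ 2 - 4 * b))) := by
    have := int_mul D4 i3
    rwa [← mul_assoc, ← Int.cast_mul, mul_comm D4] at this
  have j4 : _root_.IsIntegral ℤ (((D3 * D4 : ℤ) : K) * (16 * b ^ 2 * (a ^ 2 - 4 * b))⁻¹) := by
    have := int_mul D3 i4
    rwa [← mul_assoc, ← Int.cast_mul] at this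
  have j5 : _root_.IsIntegral ℤ (((D5 * D6 : ℤ) : K) * (d : K)) := by
    have := int_mul D6 i5
    rwa [← mul_assoc, ← Int.cast_mul, mul_comm D6] at this
  have j6 : _root_.IsIntegral ℤ (((D5 * D6 : ℤ) : K) * (d : K)⁻¹) := by
    have := int_mul D5 i6
    rwa [← mul_assoc, ← Int.cast_mul] at this
  refine ⟨?_, ?_⟩
  · rintro rfl
    have h7 := Int.isCoprime_iff_gcd_eq_one.1 c2'
    norm_num at h7
  · intro L _ _ _
    refine ⟨good_crv fun v hv => ⟨val_le i1 c1 hv, val_le i2 c2 hv, ?_⟩,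
      good_crv fun v hv => ⟨?_, ?_, ?_⟩, ?_⟩
    · have h7 := val_one (L := L) hΔ j3 j4 c34 hv
      have h8 : algebraMap K L (16 * b ^ 2 * (a ^ 2 - 4 * b)) = 16 * algebraMap K L b ^ 2 *
          (algebraMap K L a ^ 2 - 4 * algebraMap K L b) := by
        have m16 : algebraMap K L 16 = 16 := map_ofNat _ 16
        have m4 : algebraMap K L 4 = 4 := map_ofNat _ 4
        rw [map_mul, map_mul, map_sub, map_mul, map_pow, map_pow, m16, m4]
      rwa [h8] at h7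
    · rw [map_mul, val_one (L := L) hd' j5 j6 c56 hv, one_mul]
      exact val_le i1 c1 hv
    · rw [map_mul, map_pow, val_one (L := L) hd' j5 j6 c56 hv, one_pow, one_mul]
      exact val_le i2 c2 hv
    · have h7 := val_one (L := L) hΔ j3 j4 c34 hv
      have h9 : algebraMap K L (16 * b ^ 2 * (a ^ 2 - 4 * b)) = 16 * algebraMap K L b ^ 2 *
          (algebraMap K L a ^ 2 - 4 * algebraMap K L b) := by
        have m16 : algebraMap K L 16 = 16 := map_ofNat _ 16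
        have m4 : algebraMap K L 4 = 4 := map_ofNat _ 4
        rw [map_mul, map_mul, map_sub, map_mul, map_pow, map_pow, m16, m4]
      rw [h9] at h7
      have h8 : (16 * (algebraMap K L (d : K) ^ 2 * algebraMap K L b) ^ 2 *
          ((algebraMap K L (d : K) * algebraMap K L a) ^ 2 -
            4 * (algebraMap K L (d : K) ^ 2 * algebraMap K L b)) : L) =
          algebraMap K L (d : K) ^ 6 * (16 * algebraMap K L b ^ 2 *
            (algebraMap K L a ^ 2 - 4 * algebraMap K L b)) := by ring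
      rw [h8, map_mul, map_pow, val_one (L := L) hd' j5 j6 c56 hv, one_pow, one_mul]
      exact h7
    · intro e he
      have h7 : ((Algebra.norm ℤ e : ℤ) : ℚ) = ((n ^ Module.finrank K L : ℤ) : ℚ) := by
        have : FiniteDimensional K L := Module.Finite.of_restrictScalars_finite ℚ K L
        rw [Algebra.coe_norm_int, he, ← Algebra.norm_norm (S := K), Algebra.norm_algebraMap,
          map_pow, hn]
        push_cast
        rw [Algebra.coe_norm_int]
      have h8 : Algebra.norm ℤ e = n ^ Module.finrank K L := by exact_mod_cast h7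
      rw [h8]
      exact cn.pow_left

end Pool.Agent.Lib.MP_1a91b9_ntC.Sh
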