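import Pool.Agent.Lib.MP_1a91b9_ntC.Sh.L
import Pool.Agent.Lib.MP_1a91b9_nuX.PX.ShaD

/-!
# MP_1a91b9_nt (stability of the Tate-Shafarevich group): completions, restriction and descent

See `sha_down_gal` in `MP_1a91b9_nuX/PX/ShaD.lean` for `res_sha`.
-/

set_option autoImplicit false

namespace Pool.Agent.Lib.MP_1a91b9_ntC.Sh

open WeierstrassCurve Pool.Agent.Lib.MP_1a91b9_nuT.S9 NumberField IsDedekindDomain
open Pool.Agent.Lib.MP_1a91b9_nuT.CT Pool.Agent.Lib.MP_1a91b9_nuT.S5
open scoped Classical

private theorem k_over {N A : Type} [Field N] [NumberField N] [Field A] [NumberField A]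
    [Algebra N A] (w : HeightOneSpectrum (𝓞 A)) : w.asIdeal.LiesOver (below N w).asIdeal :=
  ⟨rfl⟩

private theorem k_cont (N : Type) {A : Type} [Field N] [NumberField N] [Field A]
    [NumberField A] [Algebra N A] (w : HeightOneSpectrum (𝓞 A)) :
    Continuous (algebraMap (WithVal ((below N w).valuation N)) (WithVal (w.valuation A))) := by
  have := k_over (N := N) w
  exact (HeightOneSpectrum.uniformContinuous_algebraMap_liesOver N A (below N w) w).continuous

open HeightOneSpectrum in
/-- The map between the completions, with its continuity. -/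
private theorem exists_contMap (N : Type) {A : Type} [Field N] [NumberField N] [Field A]
    [NumberField A] [Algebra N A] (w : HeightOneSpectrum (𝓞 A)) :
    ∃ φ : (below N w).adicCompletion N →+* w.adicCompletion A, Continuous φ ∧
      ∀ x : N, φ (algebraMap N _ x) = algebraMap A _ (algebraMap N A x) := by
  have hc := k_cont N w
  let ψ := UniformSpace.Completion.mapRingHom _ hc
  let φ : (below N w).adicCompletion N →+* w.adicCompletion A :=
    (adicCompletion.equiv A w).symm.toRingHom.comp
      (ψ.comp (adicCompletion.equiv N (below N w)).toRingHom)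
  have hφ : ∀ x, φ x = adicCompletion.ofCompletion (ψ x.toCompletion) := fun x => rfl
  have hφc : Continuous φ := by
    have h1 : Continuous ψ := UniformSpace.Completion.continuous_map
    exact (adicCompletion.continuous_ofCompletion A w).comp
      (h1.comp (adicCompletion.continuous_toCompletion N (below N w)))
  refine ⟨φ, hφc, ?_⟩
  intro x
  rw [hφ]
  apply adicCompletion.ext
  exact UniformSpace.Completion.mapRingHom_coe hc _

variable [Pool.Agent.Lib.MP_1a91b9_nuT.CD]

open scoped Valued in
/-- The completion of `A = N(x₀)` is generated by `x₀` over the completion of `N`, and is algebraic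
over it. -/
theorem exists_compL {N A : Type} [Field N] [NumberField N] [Field A] [NumberField A]
    [Algebra N A] (w : HeightOneSpectrum (𝓞 A)) {x₀ : A}
    (hx : ∀ z : A, ∃ α β : N, z = algebraMap N A α + algebraMap N A β * x₀) :
    ∃ φ : (below N w).adicCompletion N →+* w.adicCompletion A,
      (∀ x : N, φ (algebraMap N _ x) = algebraMap A _ (algebraMap N A x)) ∧
      (∀ z : w.adicCompletion A, ∃ α β : (below N w).adicCompletion N,
        z = φ α + φ β * algebraMap A _ x₀) ∧
      ∀ z : w.adicCompletion A, φ.IsIntegralElem z := by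
  obtain ⟨φ, hφc, hφ⟩ := exists_contMap N w
  let _ : Algebra ((below N w).adicCompletion N) (w.adicCompletion A) := φ.toAlgebra
  have hcs : ContinuousSMul ((below N w).adicCompletion N) (w.adicCompletion A) :=
    ⟨(hφc.comp continuous_fst).mul continuous_snd⟩
  let y₀ : w.adicCompletion A := algebraMap A _ x₀
  let Φ : (((below N w).adicCompletion N) × ((below N w).adicCompletion N)) →ₗ[(below N
      w).adicCompletion N] w.adicCompletion A :=
    LinearMap.coprod (LinearMap.toSpanSingleton _ _ 1) (LinearMap.toSpanSingleton _ _ y₀)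
  have h1 : ∀ p, Φ p = φ p.1 + φ p.2 * y₀ := by
    intro p
    change p.1 • (1 : w.adicCompletion A) + p.2 • y₀ = _
    rw [Algebra.smul_def, Algebra.smul_def, mul_one]
    rfl
  have hd : DenseRange Φ := by
    apply (HeightOneSpectrum.denseRange_algebraMap A w).mono
    rintro _ ⟨l, rfl⟩
    obtain ⟨α, β, h⟩ := hx l
    refine ⟨(algebraMap N _ α, algebraMap N _ β), ?_⟩
    rw [h1, hφ, hφ, h, map_add, map_mul]
  have hs : Function.Surjective Φ := by
    rw [← Set.range_eq_univ, ← Φ.coe_range, ← Φ.range.closed_of_finiteDimensional.closure_eq]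
    exact hd.closure_range
  have hfin : Module.Finite ((below N w).adicCompletion N) (w.adicCompletion A) :=
    Module.Finite.of_surjective Φ hs
  refine ⟨φ, hφ, fun z => ?_, fun z => ?_⟩
  · obtain ⟨p, hp⟩ := hs z
    exact ⟨p.1, p.2, by rw [← hp, h1]⟩
  · exact IsIntegral.of_finite ((below N w).adicCompletion N) z

/-- The restriction of a cocycle of `Sha`. -/
theorem res_sha {N A : Type} [Field N] [NumberField N] [Field A] [NumberField A] [Algebra N A]
    (hc : ∀ v : InfinitePlace A, v.IsComplex) {W : WeierstrassCurve N} {W' : WeierstrassCurve A}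
    {C : VariableChange A} (hC : C • W.baseChange A = W')
    (j : AlgebraicClosure N ≃ₐ[N] AlgebraicClosure A) (c : Gal N → Pts W (AlgebraicClosure N))
    (h : c ∈ shaCoc W) : res hC j c ∈ shaCoc W' := by
  have hfin : FiniteDimensional N A := Module.Finite.of_restrictScalars_finite ℚ N A
  have halg : Algebra.IsAlgebraic N A := Algebra.IsAlgebraic.of_finite N A
  have h1 : res hC j c ∈ coc W' := res_coc hC j c h.1.1
  have h3 : ∀ w : HeightOneSpectrum (𝓞 A), res hC j c ∈ trivOver W' (w.adicCompletion A) := by
    intro w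
    obtain ⟨φ, hφ, -⟩ := exists_compMap N w
    have : CharZero ((below N w).adicCompletion N) :=
      charZero_of_injective_algebraMap (algebraMap N ((below N w).adicCompletion N)).injective
    let _ : Algebra ((below N w).adicCompletion N) (w.adicCompletion A) := φ.toAlgebra
    let _ : Algebra N (w.adicCompletion A) :=
      ((algebraMap A (w.adicCompletion A)).comp (algebraMap N A)).toAlgebra
    have : IsScalarTower N ((below N w).adicCompletion N) (w.adicCompletion A) :=
      IsScalarTower.of_algebraMap_eq fun x => (hφ x).symm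
    have : IsScalarTower N A (w.adicCompletion A) :=
      IsScalarTower.of_algebraMap_eq fun x => rfl
    have hcv : c ∈ trivOver W ((below N w).adicCompletion N) := by
      have h : c ∈ ⨅ v : HeightOneSpectrum (𝓞 N), trivOver W (v.adicCompletion N) := h.1.2
      exact AddSubgroup.mem_iInf.1 h (below N w)
    exact res_triv hC j c hcv
  refine ⟨⟨h1, AddSubgroup.mem_iInf.2 h3⟩, AddSubgroup.mem_iInf.2 fun v => ?_⟩
  have : IsAlgClosed v.Completion :=
    Pool.Agent.Lib.MP_1a91b9_nuT.PL.algClosed_of_equiv
      (InfinitePlace.Completion.ringEquivComplexOfIsComplex (hc v))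
  exact Pool.Agent.Lib.MP_1a91b9_nuT.PL.triv_closed W' v.Completion _
    (Pool.Agent.Lib.MP_1a91b9_nuT.PL.coc_one W' _ h1)

/-- The descent of a cocycle of `Sha`. -/
theorem desc_sha {N A : Type} [Field N] [NumberField N] [Field A] [NumberField A] [Algebra N A]
    (hc : ∀ v : InfinitePlace N, v.IsComplex) {x₀ : A} {e : N} (hx : x₀ ^ 2 = algebraMap N A e)
    (hx' : ∀ z : A, ∃ α β : N, z = algebraMap N A α + algebraMap N A β * x₀)
    {W : WeierstrassCurve N} {W' : WeierstrassCurve A} {C : VariableChange A}
    (hC : C • W.baseChange A = W') (j : AlgebraicClosure N ≃ₐ[N] AlgebraicClosure A)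
    (c : Gal N → Pts W (AlgebraicClosure N)) (hcc : c ∈ coc W) (h : res hC j c ∈ shaCoc W') :
    2 • c ∈ shaCoc W := by
  have hfin : FiniteDimensional N A := Module.Finite.of_restrictScalars_finite ℚ N A
  have halg : Algebra.IsAlgebraic N A := Algebra.IsAlgebraic.of_finite N A
  have h1 : 2 • c ∈ coc W := AddSubgroup.nsmul_mem _ hcc 2
  have h3 : ∀ v : HeightOneSpectrum (𝓞 N), 2 • c ∈ trivOver W (v.adicCompletion N) := by
    intro v
    obtain ⟨w, rfl⟩ := exists_above (K := N) A v
    obtain ⟨φ, hφ, hφ2, hφ3⟩ := exists_compL w hx'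
    have : CharZero ((below N w).adicCompletion N) :=
      charZero_of_injective_algebraMap (algebraMap N ((below N w).adicCompletion N)).injective
    let _ : Algebra ((below N w).adicCompletion N) (w.adicCompletion A) := φ.toAlgebra
    let _ : Algebra N (w.adicCompletion A) :=
      ((algebraMap A (w.adicCompletion A)).comp (algebraMap N A)).toAlgebra
    have : IsScalarTower N ((below N w).adicCompletion N) (w.adicCompletion A) :=
      IsScalarTower.of_algebraMap_eq fun x => (hφ x).symm
    have : IsScalarTower N A (w.adicCompletion A) :=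
      IsScalarTower.of_algebraMap_eq fun x => rfl
    have : Algebra.IsAlgebraic ((below N w).adicCompletion N) (w.adicCompletion A) := by
      refine ⟨fun z => ?_⟩
      have hz : IsIntegral ((below N w).adicCompletion N) z := hφ3 z
      exact hz.isAlgebraic
    have hcv : res hC j c ∈ trivOver W' (w.adicCompletion A) := by
      have h : res hC j c ∈ ⨅ v : HeightOneSpectrum (𝓞 A),
        trivOver W' (v.adicCompletion A) := h.1.2
      exact AddSubgroup.mem_iInf.1 h w
    exact loc_desc hx hx' hφ2 hC j c hcc hcv
  refine ⟨⟨h1, AddSubgroup.mem_iInf.2 h3⟩, AddSubgroup.mem_iInf.2 fun v => ?_⟩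
  have : IsAlgClosed v.Completion :=
    Pool.Agent.Lib.MP_1a91b9_nuT.PL.algClosed_of_equiv
      (InfinitePlace.Completion.ringEquivComplexOfIsComplex (hc v))
  exact Pool.Agent.Lib.MP_1a91b9_nuT.PL.triv_closed W v.Completion _
    (Pool.Agent.Lib.MP_1a91b9_nuT.PL.coc_one W _ h1)

end Pool.Agent.Lib.MP_1a91b9_ntC.Sh
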