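import Pool.Agent.Lib.MP_1a91b9_ntC.Sh.A
import Pool.Agent.Lib.MP_1a91b9_nuT.CT.Sl

/-!
# MP_1a91b9_nt (stability of the Tate-Shafarevich group): descent of the local conditions

`k' = k(x₀)`, `L' = L(x₀)`, `x₀² = e ∈ k`; `L` and `L'` are completions of `k` and `k'` below.
-/

set_option autoImplicit false

namespace Pool.Agent.Lib.MP_1a91b9_ntC.Sh

open WeierstrassCurve Pool.Agent.Lib.MP_1a91b9_nuT.S9
open Pool.Agent.Lib.MP_1a91b9_nuT.CT
open scoped Classical

variable [Pool.Agent.Lib.MP_1a91b9_nuT.CD]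

/-- For a cocycle it is enough to consider one embedding. -/
theorem triv_of_one {k L : Type} [Field k] [CharZero k] [Field L] [Algebra k L]
    {W : WeierstrassCurve k} (c : Gal k → Pts W (AlgebraicClosure k)) (hc : c ∈ coc W)
    (i : AlgebraicClosure k →ₐ[k] AlgebraicClosure L) (h : ∃ P : Pts W (AlgebraicClosure L),
      ∀ (σ : Gal L) (τ : Gal k), (∀ x, i (τ x) = σ (i x)) → Affine.Point.map i (c τ) =
        Affine.Point.map ((σ : AlgebraicClosure L →ₐ[L] _).restrictScalars k) P - P) :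
    c ∈ trivOver W L := by
  intro i'
  obtain ⟨ρ, hρ⟩ := exists_comp i i'
  obtain ⟨P, hP⟩ := h
  have hi' : i' = i.comp (ρ : AlgebraicClosure k →ₐ[k] AlgebraicClosure k) := by
    ext x
    exact hρ x
  refine ⟨P + Affine.Point.map i (c ρ), fun σ τ' hστ => ?_⟩
  -- the conjugate of `τ'`
  obtain ⟨τ, hτ⟩ : ∃ τ : Gal k, τ = ρ * τ' * ρ⁻¹ := ⟨_, rfl⟩
  have hτρ : τ * ρ = ρ * τ' := by
    rw [hτ, inv_mul_cancel_right]
  have h1 : ∀ y, i (τ y) = σ (i y) := by
    intro y
    have h2 : τ (ρ (ρ.symm y)) = ρ (τ' (ρ.symm y)) := DFunLike.congr_fun hτρ (ρ.symm y)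
    rw [AlgEquiv.apply_symm_apply] at h2
    have h3 := hστ (ρ.symm y)
    rw [hρ, hρ, AlgEquiv.apply_symm_apply] at h3
    rw [h2, h3]
  have h4 := hP σ τ h1
  have a1 := hc.2 τ ρ
  have a2 := hc.2 ρ τ'
  rw [hτρ, a2] at a1
  have a3 := congrArg (Affine.Point.map i) a1
  rw [_root_.map_add, _root_.map_add, Affine.Point.map_map, Affine.Point.map_map, h4] at a3
  have h5 : i.comp (τ : AlgebraicClosure k →ₐ[k] AlgebraicClosure k) =
      ((σ : AlgebraicClosure L →ₐ[L] _).restrictScalars k).comp i := by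
    ext x
    exact h1 x
  rw [h5, ← hi', ← Affine.Point.map_map] at a3
  rw [_root_.map_add]
  have a4 : Affine.Point.map i' (c τ') = Affine.Point.map i (c ρ) +
      Affine.Point.map i' (c τ') - Affine.Point.map i (c ρ) := by
    abel
  rw [a4, a3]
  abel

/-- **Descent of the local condition.** -/
theorem loc_desc {k k' L L' : Type} [Field k] [Field k'] [Algebra k k'] [Field L] [Field L']
    [Algebra k L] [Algebra k' L'] [Algebra k L'] [IsScalarTower k k' L'] [Algebra L L']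
    [IsScalarTower k L L'] [CharZero k] [CharZero L] [Algebra.IsAlgebraic k k']
    [Algebra.IsAlgebraic L L'] {x₀ : k'} {e : k} (hx : x₀ ^ 2 = algebraMap k k' e)
    (hk' : ∀ z : k', ∃ α β : k, z = algebraMap k k' α + algebraMap k k' β * x₀)
    (hL' : ∀ z : L', ∃ α β : L, z = algebraMap L L' α + algebraMap L L' β * algebraMap k' L' x₀)
    {W : WeierstrassCurve k} {W' : WeierstrassCurve k'} {C : VariableChange k'}
    (hC : C • W.baseChange k' = W') (j : AlgebraicClosure k ≃ₐ[k] AlgebraicClosure k')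
    (c : Gal k → Pts W (AlgebraicClosure k)) (hc : c ∈ coc W) (h : res hC j c ∈ trivOver W' L') :
    2 • c ∈ trivOver W L := by
  have _ : IsAlgClosure L (AlgebraicClosure L') :=
    ⟨inferInstance, Algebra.IsAlgebraic.trans L L' (AlgebraicClosure L')⟩
  obtain ⟨Φ, -⟩ : ∃ Φ : AlgebraicClosure L ≃ₐ[L] AlgebraicClosure L', True :=
    ⟨IsAlgClosure.equiv L (AlgebraicClosure L) (AlgebraicClosure L'), trivial⟩
  obtain ⟨i2, -⟩ : ∃ i2 : AlgebraicClosure k' →ₐ[k'] AlgebraicClosure L', True :=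
    ⟨IsAlgClosed.lift, trivial⟩
  let ik : AlgebraicClosure k' →ₐ[k] AlgebraicClosure L' := i2.restrictScalars k
  let jk : AlgebraicClosure k →ₐ[k] AlgebraicClosure k' := (j : _ →ₐ[k] _)
  let Ψ : AlgebraicClosure L' →ₐ[k] AlgebraicClosure L :=
    ((Φ.symm : AlgebraicClosure L' →ₐ[L] AlgebraicClosure L)).restrictScalars k
  let i0 : AlgebraicClosure k →ₐ[k] AlgebraicClosure L := (Ψ.comp ik).comp jk
  have hi0 : ∀ x, i0 x = Φ.symm (i2 (j x)) := fun x => rfl
  -- the restriction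
  have hr : ∀ σ : Gal L, ∃ τ : Gal k, ∀ x, i0 (τ x) = σ (i0 x) := by
    intro σ
    obtain ⟨τ, hτ⟩ := exists_comp i0
      ((((σ : AlgebraicClosure L →ₐ[L] _)).restrictScalars k).comp i0)
    exact ⟨τ, fun x => (hτ x).symm⟩
  choose r hr using hr
  have huniq : ∀ (σ : Gal L) (τ : Gal k), (∀ x, i0 (τ x) = σ (i0 x)) → τ = r σ := by
    intro σ τ hτ
    ext x
    exact i0.injective ((hτ x).trans (hr σ x).symm)
  have hrm : ∀ σ τ : Gal L, r (σ * τ) = r σ * r τ := by
    intro σ τ
    refine (huniq (σ * τ) (r σ * r τ) fun x => ?_).symm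
    change i0 (r σ (r τ x)) = σ (τ (i0 x))
    rw [hr, hr]
  -- the action
  let act : Gal L → Pts W (AlgebraicClosure L) →+ Pts W (AlgebraicClosure L) := fun σ =>
    Affine.Point.map ((σ : AlgebraicClosure L →ₐ[L] AlgebraicClosure L).restrictScalars k)
  have hact : ∀ (σ : Gal L) (Q : Pts W (AlgebraicClosure L)), act σ Q =
      Affine.Point.map ((σ : AlgebraicClosure L →ₐ[L] AlgebraicClosure L).restrictScalars k) Q :=
    fun σ Q => rfl
  have h1 : ∀ a, act 1 a = a := by
    intro a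
    rcases a with _ | ⟨x, y, h⟩ <;> rfl
  have hm : ∀ σ τ a, act (σ * τ) a = act σ (act τ a) := by
    intro σ τ a
    rw [hact, hact, hact, Affine.Point.map_map]
    rfl
  have hcomp : ∀ σ : Gal L, i0.comp ((r σ : Gal k) : AlgebraicClosure k →ₐ[k] AlgebraicClosure k) =
      ((σ : AlgebraicClosure L →ₐ[L] AlgebraicClosure L).restrictScalars k).comp i0 := by
    intro σ
    ext x
    exact hr σ x
  let cL : Gal L → Pts W (AlgebraicClosure L) := fun σ => Affine.Point.map i0 (c (r σ))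
  have hcL : ∀ σ τ, cL (σ * τ) = cL σ + act σ (cL τ) := by
    intro σ τ
    change Affine.Point.map i0 (c (r (σ * τ))) = Affine.Point.map i0 (c (r σ)) +
      act σ (Affine.Point.map i0 (c (r τ)))
    rw [hrm, hc.2, _root_.map_add, Affine.Point.map_map, hcomp, hact, Affine.Point.map_map]
  -- the subgroup
  let z0 : AlgebraicClosure L := Φ.symm (algebraMap L' _ (algebraMap k' L' x₀))
  have hz0 : z0 ^ 2 = algebraMap L _ (algebraMap k L e) := by
    change (Φ.symm (algebraMap L' _ (algebraMap k' L' x₀))) ^ 2 = _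
    rw [← map_pow, ← map_pow, ← map_pow, hx, ← IsScalarTower.algebraMap_apply k k' L',
      IsScalarTower.algebraMap_apply k L L', ← IsScalarTower.algebraMap_apply L L' _,
      AlgEquiv.commutes]
  have hpm : ∀ σ : Gal L, σ z0 = z0 ∨ σ z0 = -z0 := by
    intro σ
    have h2 : σ z0 ^ 2 = z0 ^ 2 := by
      rw [← map_pow, hz0, σ.commutes]
    exact sq_eq_sq_iff_eq_or_eq_neg.1 h2
  let H : Subgroup (Gal L) := MulAction.stabilizer (Gal L) z0
  have hmemH : ∀ σ : Gal L, σ ∈ H ↔ σ z0 = z0 := fun σ => MulAction.mem_stabilizer_iff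
  have hH : ∀ σ τ, σ ∉ H → τ ∉ H → σ * τ ∈ H := by
    intro σ τ hσ hτ
    rw [hmemH] at hσ hτ ⊢
    change σ (τ z0) = z0
    rw [(hpm τ).resolve_left hτ, map_neg, (hpm σ).resolve_left hσ, neg_neg]
  -- the condition on the subgroup
  obtain ⟨P', hP'⟩ := h i2
  have h0 : ∀ σ ∈ H, cL σ = act σ (Affine.Point.map Ψ (tr hC (AlgebraicClosure L') P')) -
      Affine.Point.map Ψ (tr hC (AlgebraicClosure L') P') := by
    intro σ hσ
    rw [hmemH] at hσ
    have hfix : ∀ z : L', σ (Φ.symm (algebraMap L' _ z)) = Φ.symm (algebraMap L' _ z) := by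
      intro z
      obtain ⟨α, β, hz⟩ := hL' z
      have h3 : Φ.symm (algebraMap L' _ z) = algebraMap L _ α + algebraMap L _ β * z0 := by
        rw [hz, map_add, map_mul, map_add, map_mul, ← IsScalarTower.algebraMap_apply L L' _,
          ← IsScalarTower.algebraMap_apply L L' _, AlgEquiv.commutes, AlgEquiv.commutes]
      rw [h3, map_add, map_mul, σ.commutes, σ.commutes, hσ]
    let σ' : Gal L' := AlgEquiv.ofRingEquiv
      (f := ((Φ.symm.trans σ).trans Φ).toRingEquiv) fun z => by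
        change Φ (σ (Φ.symm (algebraMap L' _ z))) = _
        rw [hfix z, Φ.apply_symm_apply]
    have hσ' : ∀ x, σ' x = Φ (σ (Φ.symm x)) := fun x => rfl
    obtain ⟨τ', hτ'⟩ := exists_comp i2
      ((((σ' : AlgebraicClosure L' →ₐ[L'] _)).restrictScalars k').comp i2)
    have hτ1 : ∀ x, i2 (τ' x) = σ' (i2 x) := fun x => (hτ' x).symm
    have hres : resG j τ' = r σ := by
      refine huniq σ _ fun x => ?_
      rw [hi0, hi0, resG_apply, j.apply_symm_apply, hτ1, hσ', Φ.symm_apply_apply]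
    have h6 := congrArg (tr hC (AlgebraicClosure L')) (hP' σ' τ' hτ1)
    unfold res at h6
    rw [_root_.map_sub, tr_map hC i2, tr_map hC, AddEquiv.apply_symm_apply, hres] at h6
    have h7 := congrArg (Affine.Point.map Ψ) h6
    rw [Affine.Point.map_map, Affine.Point.map_map, _root_.map_sub, Affine.Point.map_map] at h7
    change Affine.Point.map i0 (c (r σ)) = _
    refine Eq.trans h7 ?_
    rw [hact, Affine.Point.map_map]
    have h8 : Ψ.comp ((((σ' : AlgebraicClosure L' →ₐ[L'] _)).restrictScalars k').restrictScalars k) =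
        ((σ : AlgebraicClosure L →ₐ[L] AlgebraicClosure L).restrictScalars k).comp Ψ := by
      ext x
      change Φ.symm (σ' x) = σ (Φ.symm x)
      rw [hσ', Φ.symm_apply_apply]
    rw [h8]
  obtain ⟨R, hR⟩ := two_cob act h1 hm H hH cL hcL _ h0
  refine triv_of_one (2 • c) (AddSubgroup.nsmul_mem _ hc 2) i0 ⟨R, fun σ τ hστ => ?_⟩
  rw [huniq σ τ hστ]
  have h9 := hR σ
  change Affine.Point.map i0 (2 • c (r σ)) = _
  rw [_root_.map_nsmul]
  exact h9

end Pool.Agent.Lib.MP_1a91b9_ntC.Sh
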