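import Pool.Agent.Lib.MP_1a91b9_ntC.Sh.D
import Pool.Agent.Lib.MP_1a91b9_nuT3.R3.Defs
import Pool.Agent.Lib.MP_1a91b9_nuT.CT.La

/-!
# MP_1a91b9_nt (the period relation): the norm of `a_ω` is a unit at `q` if `W` is integral with unit discriminant
at the places above `q`

Places not above `q`: the factor is a power of the norm of `v`, a power of another prime. Places above `q`:
`unit_min` in `MP_1a91b9_nuT/CT/La.lean` gives `v(u) = 1`, so the factor is `1`.
-/

set_option autoImplicit false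
set_option linter.unusedSectionVars false

namespace Pool.Agent.Lib.MP_1a91b9_ntC.Sh

open NumberField IsDedekindDomain WeierstrassCurve
open Pool.Agent.Lib.MP_1a91b9_nuT.S9

variable [Pool.Agent.Lib.MP_1a91b9_nuT.CD]

private theorem NF_one {q : ℕ} : UnitQ q 1 := by
  refine ⟨?_, ?_⟩
  · rw [Rat.num_one]
    exact isCoprime_one_left
  · rw [Rat.den_one]
    exact Nat.coprime_one_left q

private theorem NF_nat {q n : ℕ} (h : n.Coprime q) : UnitQ q (n : ℚ) := by
  refine ⟨?_, ?_⟩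
  · rw [Rat.num_natCast]
    exact Nat.isCoprime_iff_coprime.2 h
  · rw [Rat.den_natCast]
    exact Nat.coprime_one_left q

private theorem NF_pow {q : ℕ} {r : ℚ} (h : UnitQ q r) (n : ℕ) : UnitQ q (r ^ n) := by
  induction n with
  | zero =>
    rw [pow_zero]
    exact NF_one
  | succ n ih =>
    rw [pow_succ]
    exact ih.mul h

private theorem NF_zpow {q : ℕ} (hq : q.Prime) {r : ℚ} (h : UnitQ q r) (n : ℤ) :
    UnitQ q (r ^ n) := by
  rcases n with n | n
  · rw [Int.ofNat_eq_natCast, zpow_natCast]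
    exact NF_pow h n
  · rw [zpow_negSucc]
    exact (NF_pow h (n + 1)).inv hq

/-- the norm of a prime which is not above `q` is prime to `q` -/
private theorem NF_cop {N : Type} [Field N] [NumberField N] {q : ℕ} (hq : q.Prime)
    (v : HeightOneSpectrum (𝓞 N)) (hv : (q : 𝓞 N) ∉ v.asIdeal) :
    (Ideal.absNorm v.asIdeal).Coprime q := by
  rw [Nat.coprime_comm, hq.coprime_iff_not_dvd]
  intro hd
  have hf : Fact q.Prime := ⟨hq⟩
  have hmax : v.asIdeal.IsMaximal := v.isMaximal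
  have hne : v.asIdeal ≠ ⊥ := v.ne_bot
  have hfin : Finite (𝓞 N ⧸ v.asIdeal) := Ideal.finiteQuotientOfFreeOfNeBot v.asIdeal hne
  have hcard : Ideal.absNorm v.asIdeal = Nat.card (𝓞 N ⧸ v.asIdeal) := by
    rw [Ideal.absNorm_apply, Submodule.cardQuot_apply]
  rw [hcard] at hd
  obtain ⟨x, hx⟩ := exists_prime_addOrderOf_dvd_card' (G := 𝓞 N ⧸ v.asIdeal) q hd
  have h1 : q • x = 0 := by
    rw [← hx]
    exact addOrderOf_nsmul_eq_zero x
  have hx0 : x ≠ 0 := by
    rintro rfl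
    rw [addOrderOf_zero] at hx
    exact hq.one_lt.ne hx
  rw [nsmul_eq_mul] at h1
  have h2 : ((q : ℕ) : 𝓞 N ⧸ v.asIdeal) = 0 := by
    have hdom : IsDomain (𝓞 N ⧸ v.asIdeal) := Ideal.Quotient.isDomain v.asIdeal
    exact (mul_eq_zero.1 h1).resolve_right hx0
  refine hv (Ideal.Quotient.eq_zero_iff_mem.1 ?_)
  rw [map_natCast]
  exact h2

/-- an equation with integral coefficients over the completion -/
private theorem NF_int {N : Type} [Field N] [NumberField N] (W : WeierstrassCurve N)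
    (v : HeightOneSpectrum (𝓞 N))
    (h : v.valuation N W.a₁ ≤ 1 ∧ v.valuation N W.a₂ ≤ 1 ∧ v.valuation N W.a₃ ≤ 1 ∧
        v.valuation N W.a₄ ≤ 1 ∧ v.valuation N W.a₆ ≤ 1) :
    ∃ I : WeierstrassCurve (v.adicCompletionIntegers N),
      W.baseChange (v.adicCompletion N) = I.baseChange (v.adicCompletion N) := by
  have hi : ∀ a : N, v.valuation N a ≤ 1 →
      (algebraMap N (v.adicCompletion N) a) ∈ v.adicCompletionIntegers N := by
    intro a ha
    rw [HeightOneSpectrum.mem_adicCompletionIntegers]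
    have h1 := v.valuedAdicCompletion_eq_valuation' a
    rw [← h1] at ha
    exact ha
  obtain ⟨h1, h2, h3, h4, h6⟩ := h
  refine ⟨⟨⟨_, hi _ h1⟩, ⟨_, hi _ h2⟩, ⟨_, hi _ h3⟩, ⟨_, hi _ h4⟩, ⟨_, hi _ h6⟩⟩, ?_⟩
  ext <;> rfl

theorem nf_unit {N : Type} [Field N] [NumberField N] (W : WeierstrassCurve N) (q : ℕ)
    [Fact q.Prime] (h : ∀ v : HeightOneSpectrum (𝓞 N), (q : 𝓞 N) ∈ v.asIdeal →
      (v.valuation N W.a₁ ≤ 1 ∧ v.valuation N W.a₂ ≤ 1 ∧ v.valuation N W.a₃ ≤ 1 ∧
        v.valuation N W.a₄ ≤ 1 ∧ v.valuation N W.a₆ ≤ 1) ∧ v.valuation N W.Δ = 1) :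
    ∃ r : ℚ, UnitQ q r ∧ (r : ℝ) = ∏ᶠ v : HeightOneSpectrum (𝓞 N), normFactor W v := by
  have hq : q.Prime := Fact.out
  refine finprod_induction (p := fun x : ℝ => ∃ r : ℚ, UnitQ q r ∧ (r : ℝ) = x)
    ⟨1, NF_one, by norm_num⟩ ?_ ?_
  · rintro x y ⟨a, ha, rfl⟩ ⟨b, hb, rfl⟩
    exact ⟨a * b, ha.mul hb, by push_cast; ring⟩
  · intro v
    by_cases hv : (q : 𝓞 N) ∈ v.asIdeal
    · refine ⟨1, NF_one, ?_⟩
      obtain ⟨hint, hΔ⟩ := h v hv
      obtain ⟨I, hI⟩ := NF_int W v hint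
      have hΔ' : Valued.v (W.baseChange (v.adicCompletion N)).Δ = 1 := by
        have h1 := v.valuedAdicCompletion_eq_valuation' W.Δ
        rw [hΔ] at h1
        have h2 : (W.baseChange (v.adicCompletion N)).Δ = algebraMap N (v.adicCompletion N) W.Δ :=
          map_Δ W _
        rw [h2]
        exact h1
      have h3 := (Pool.Agent.Lib.MP_1a91b9_nuT.CT.unit_min (W.baseChange (v.adicCompletion N)) I hI
        hΔ' (minChange W v) ((W.baseChange (v.adicCompletion N)).exists_isMinimal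
          (v.adicCompletionIntegers N)).choose_spec).2
      rw [normFactor, h3, WithZero.log_one, neg_zero, zpow_zero, Rat.cast_one]
    · refine ⟨(Ideal.absNorm v.asIdeal : ℚ) ^ (-(WithZero.log
        (Valued.v ((minChange W v).u : v.adicCompletion N)))),
        NF_zpow hq (NF_nat (NF_cop hq v hv)) _, ?_⟩
      rw [normFactor]
      push_cast
      rfl

end Pool.Agent.Lib.MP_1a91b9_ntC.Sh
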