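import Pool.Agent.Lib.MP_1a91b9_nuT.CT.Pd1

/-!
# MP_1a91b9_nt (the period relation): the complex periods of a quadratic twist and of the base change

`A = N(x₀)`, `x₀² = e ∈ N`, `x₀` not in `N`; all the infinite places of `N` are complex.
-/

set_option autoImplicit false

namespace Pool.Agent.Lib.MP_1a91b9_ntC.Sh

set_option linter.unusedSectionVars false

open NumberField WeierstrassCurve MeasureTheory
open Pool.Agent.Lib.MP_1a91b9_nuT.Per Pool.Agent.Lib.MP_1a91b9_nuT.CT

variable [Pool.Agent.Lib.MP_1a91b9_nuT.CD]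

omit [Pool.Agent.Lib.MP_1a91b9_nuT.CD] in
/-- a square root in `ℂ`, as a unit -/
private theorem P_sqrt (z : ℂ) (hz : z ≠ 0) : ∃ u : ℂˣ, (u : ℂ) ^ 2 = z := by
  obtain ⟨y, hy⟩ := IsAlgClosed.exists_pow_nat_eq z (n := 2) (by norm_num)
  have hy0 : y ≠ 0 := by
    rintro rfl
    rw [zero_pow two_ne_zero] at hy
    exact hz hy.symm
  exact ⟨Units.mk0 y hy0, hy⟩

private theorem P_perC_tw (a b z : ℂ) (hz : z ≠ 0) :
    ‖z‖ * perC (⟨0, z * a, 0, z ^ 2 * b, 0⟩ : WeierstrassCurve ℂ) =
      perC (⟨0, a, 0, b, 0⟩ : WeierstrassCurve ℂ) := by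
  obtain ⟨u, hu⟩ := P_sqrt z hz
  have hu0 : (u : ℂ) ≠ 0 := u.ne_zero
  have h1 := perC_vc (⟨0, z * a, 0, z ^ 2 * b, 0⟩ : WeierstrassCurve ℂ) ⟨u, 0, 0, 0⟩
  have h2 : (⟨u, 0, 0, 0⟩ : VariableChange ℂ) • (⟨0, z * a, 0, z ^ 2 * b, 0⟩ : WeierstrassCurve ℂ) =
      (⟨0, a, 0, b, 0⟩ : WeierstrassCurve ℂ) := by
    ext
    · rw [variableChange_a₁]
      simp
    · rw [variableChange_a₂, Units.val_inv_eq_inv_val, ← hu]
      field_simp
      ring
    · rw [variableChange_a₃]
      simp
    · rw [variableChange_a₄, Units.val_inv_eq_inv_val, ← hu]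
      field_simp
      ring
    · rw [variableChange_a₆]
      simp
  rw [h2] at h1
  rw [h1, ← hu, norm_pow]

private theorem P_perAt {F : Type*} [Field F] (W : WeierstrassCurve F) {v : InfinitePlace F}
    (hv : v.IsComplex) : perAt W v = 2 * perC (W.map v.embedding) := by
  rw [perAt, dif_neg (InfinitePlace.not_isReal_iff_isComplex.2 hv)]

/-- the twist: `perC_vc` over `ℂ` with `u² = σ(e)`, and `∏ (v e)^2 = |N(e)|` -/
theorem prod_per_tw {N : Type} [Field N] [NumberField N] (hc : ∀ v : InfinitePlace N, v.IsComplex)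
    {a b e : N} (he : e ≠ 0) :
    √|((Algebra.norm ℚ e : ℚ) : ℝ)| *
      ∏ v : InfinitePlace N, perAt (⟨0, e * a, 0, e ^ 2 * b, 0⟩ : WeierstrassCurve N) v =
      ∏ v : InfinitePlace N, perAt (⟨0, a, 0, b, 0⟩ : WeierstrassCurve N) v := by
  have h1 : √|((Algebra.norm ℚ e : ℚ) : ℝ)| = ∏ v : InfinitePlace N, v e := by
    have h2 : |((Algebra.norm ℚ e : ℚ) : ℝ)| = (∏ v : InfinitePlace N, v e) ^ 2 := by
      have h3 := InfinitePlace.prod_eq_abs_norm e
      rw [← Finset.prod_pow]
      have h4 : ∏ v : InfinitePlace N, v e ^ 2 = ∏ v : InfinitePlace N, v e ^ v.mult := by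
        refine Finset.prod_congr rfl fun v _ => ?_
        rw [InfinitePlace.mult, if_neg (InfinitePlace.not_isReal_iff_isComplex.2 (hc v))]
      rw [h4, h3]
      push_cast
      rfl
    rw [h2, Real.sqrt_sq (Finset.prod_nonneg fun v _ => apply_nonneg v e)]
  rw [h1, ← Finset.prod_mul_distrib]
  refine Finset.prod_congr rfl fun v _ => ?_
  rw [P_perAt _ (hc v), P_perAt _ (hc v)]
  have h5 : (⟨0, e * a, 0, e ^ 2 * b, 0⟩ : WeierstrassCurve N).map v.embedding =
      (⟨0, v.embedding e * v.embedding a, 0, v.embedding e ^ 2 * v.embedding b, 0⟩ :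
        WeierstrassCurve ℂ) := by
    ext <;> simp
  have h6 : (⟨0, a, 0, b, 0⟩ : WeierstrassCurve N).map v.embedding =
      (⟨0, v.embedding a, 0, v.embedding b, 0⟩ : WeierstrassCurve ℂ) := by
    ext <;> simp
  rw [h5, h6, ← P_perC_tw (v.embedding a) (v.embedding b) (v.embedding e)
    ((map_ne_zero v.embedding).2 he), InfinitePlace.norm_embedding_eq]
  ring

/-! ### Complex conjugation -/

omit [Pool.Agent.Lib.MP_1a91b9_nuT.CD] in
/-- the points of the conjugate curve -/
private noncomputable def P_cj (W : WeierstrassCurve ℂ) (x : ℂ) : {y : ℂ // W.toAffine.Equation x y} ≃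
    {y : ℂ // (W.map (starRingEnd ℂ)).toAffine.Equation ((starRingEnd ℂ) x) y} where
  toFun y := ⟨(starRingEnd ℂ) y.1, (Affine.map_equation W (f := starRingEnd ℂ)
    (starRingEnd ℂ).injective x y.1).2 y.2⟩
  invFun y := ⟨(starRingEnd ℂ) y.1, by
    have h := y.2
    rw [← Complex.conj_conj y.1] at h
    exact (Affine.map_equation W (f := starRingEnd ℂ) (starRingEnd ℂ).injective x _).1 h⟩
  left_inv y := by
    apply Subtype.ext
    exact Complex.conj_conj y.1
  right_inv y := by
    apply Subtype.ext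
    exact Complex.conj_conj y.1

private theorem P_perC_conj (W : WeierstrassCurve ℂ) :
    perC (W.map (starRingEnd ℂ)) = perC W := by
  rw [perC, perC]
  have hmp : MeasurePreserving (Complex.conjLIE : ℂ ≃ₗᵢ[ℝ] ℂ) volume volume :=
    Complex.conjLIE.measurePreserving
  have hme : MeasurableEmbedding (Complex.conjLIE : ℂ ≃ₗᵢ[ℝ] ℂ) :=
    Complex.conjLIE.toHomeomorph.measurableEmbedding
  rw [← hmp.integral_comp hme]
  congr 1
  ext x
  have hx : (Complex.conjLIE : ℂ ≃ₗᵢ[ℝ] ℂ) x = (starRingEnd ℂ) x := rfl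
  rw [hx, ← (P_cj W x).tsum_eq]
  refine tsum_congr fun y => ?_
  have e1 : (((P_cj W x) y : {y : ℂ // (W.map (starRingEnd ℂ)).toAffine.Equation
      ((starRingEnd ℂ) x) y}) : ℂ) = (starRingEnd ℂ) (y : ℂ) := rfl
  rw [e1]
  have e2 : 2 * (starRingEnd ℂ) (y : ℂ) + (W.map (starRingEnd ℂ)).a₁ * (starRingEnd ℂ) x +
      (W.map (starRingEnd ℂ)).a₃ = (starRingEnd ℂ) (2 * (y : ℂ) + W.a₁ * x + W.a₃) := by
    rw [map_add, map_add, map_mul, map_mul, map_ofNat, map_a₁, map_a₃]
  rw [e2, Complex.norm_conj]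

private theorem P_perC_nonneg (W : WeierstrassCurve ℂ) : 0 ≤ perC W := by
  rw [perC]
  refine integral_nonneg fun x => tsum_nonneg fun y => ?_
  positivity

/-- the period at a complex place only depends on the place, not on the embedding -/
private theorem P_mk {F : Type*} [Field F] (W : WeierstrassCurve F) (φ : F →+* ℂ)
    (hv : (InfinitePlace.mk φ).IsComplex) :
    perAt W (InfinitePlace.mk φ) = 2 * perC (W.map φ) := by
  rw [P_perAt W hv]
  have h := InfinitePlace.mk_embedding (InfinitePlace.mk φ)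
  rw [InfinitePlace.mk_eq_iff] at h
  rcases h with h | h
  · rw [h]
  · have h1 : W.map φ = (W.map (InfinitePlace.mk φ).embedding).map (starRingEnd ℂ) := by
      rw [WeierstrassCurve.map_map]
      exact congrArg W.map h.symm
    rw [h1, P_perC_conj]

omit [Pool.Agent.Lib.MP_1a91b9_nuT.CD] in
private theorem P_prod_emb {F : Type} [Field F] [NumberField F]
    (hc : ∀ v : InfinitePlace F, v.IsComplex) (G : InfinitePlace F → ℝ) :
    ∏ φ : F →+* ℂ, G (InfinitePlace.mk φ) = (∏ v : InfinitePlace F, G v) ^ 2 := by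
  classical
  rw [← Finset.prod_fiberwise Finset.univ InfinitePlace.mk, ← Finset.prod_pow]
  refine Finset.prod_congr rfl fun v _ => ?_
  rw [Finset.prod_congr rfl fun φ hφ => by rw [(Finset.mem_filter.1 hφ).2], Finset.prod_const,
    InfinitePlace.card_filter_mk_eq, InfinitePlace.mult,
    if_neg (InfinitePlace.not_isReal_iff_isComplex.2 (hc v))]

/-- the base change: above each complex place there are two places -/
theorem prod_per_bc {N A : Type} [Field N] [NumberField N] [Field A] [NumberField A] [Algebra N A]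
    (hc : ∀ v : InfinitePlace N, v.IsComplex) {e : N} {x₀ : A} (hx : x₀ ^ 2 = algebraMap N A e)
    (hx' : ∀ z : A, ∃ α β : N, z = algebraMap N A α + algebraMap N A β * x₀)
    (hn : ¬ ∃ y : N, algebraMap N A y = x₀) (E : WeierstrassCurve N) :
    ∏ w : InfinitePlace A, perAt (E.baseChange A) w =
      (∏ v : InfinitePlace N, perAt E v) ^ 2 := by
  classical
  have hcA : ∀ w : InfinitePlace A, w.IsComplex := by
    intro w
    rw [← InfinitePlace.not_isReal_iff_isComplex]
    intro h
    exact InfinitePlace.not_isReal_iff_isComplex.2 (hc (w.comap (algebraMap N A)))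
      (h.comap (algebraMap N A))
  have hfr : Module.finrank N A = 2 := by
    have hli : LinearIndependent N ![(1 : A), x₀] := by
      rw [LinearIndependent.pair_iff]
      intro s t h
      rw [Algebra.smul_def, Algebra.smul_def, mul_one] at h
      have ht : t = 0 := by
        by_contra ht
        refine hn ⟨-s / t, ?_⟩
        have ht' : algebraMap N A t ≠ 0 := (map_ne_zero _).2 ht
        rw [map_div₀, map_neg, div_eq_iff ht']
        linear_combination -h
      refine ⟨?_, ht⟩
      rw [ht, map_zero, zero_mul, add_zero] at h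
      exact (map_eq_zero _).1 h
    have hsp : ⊤ ≤ Submodule.span N (Set.range ![(1 : A), x₀]) := by
      intro z _
      obtain ⟨α, β, rfl⟩ := hx' z
      have h1 : algebraMap N A α + algebraMap N A β * x₀ = α • (1 : A) + β • x₀ := by
        rw [Algebra.smul_def, Algebra.smul_def, mul_one]
      rw [h1]
      exact Submodule.add_mem _ (Submodule.smul_mem _ _ (Submodule.subset_span ⟨0, rfl⟩))
        (Submodule.smul_mem _ _ (Submodule.subset_span ⟨1, rfl⟩))
    rw [Module.finrank_eq_card_basis (Module.Basis.mk hli hsp), Fintype.card_fin]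
  have hcard : ∀ σ : N →+* ℂ,
      (Finset.univ.filter fun φ : A →+* ℂ => φ.comp (algebraMap N A) = σ).card = 2 := by
    intro σ
    let _ : Algebra N ℂ := σ.toAlgebra
    have h2 : Fintype.card (A →ₐ[N] ℂ) = 2 := by
      rw [AlgHom.card N A ℂ, hfr]
    rw [← h2, ← Fintype.card_subtype]
    refine Fintype.card_congr ⟨fun φ => ⟨φ.1, fun x => ?_⟩, fun ψ => ⟨ψ.toRingHom, ?_⟩, ?_, ?_⟩
    · exact congrArg (fun f : N →+* ℂ => f x) φ.2
    · ext x
      exact ψ.commutes x
    · intro φ
      rfl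
    · intro ψ
      rfl
  have h1 : (∏ w : InfinitePlace A, perAt (E.baseChange A) w) ^ 2 =
      ((∏ v : InfinitePlace N, perAt E v) ^ 2) ^ 2 := by
    rw [← P_prod_emb hcA, ← P_prod_emb hc, ← Finset.prod_pow,
      ← Finset.prod_fiberwise Finset.univ (fun φ : A →+* ℂ => φ.comp (algebraMap N A))]
    refine Finset.prod_congr rfl fun σ _ => ?_
    rw [← hcard σ, ← Finset.prod_const]
    refine Finset.prod_congr rfl fun φ hφ => ?_
    have hφ' : φ.comp (algebraMap N A) = σ := (Finset.mem_filter.1 hφ).2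
    rw [P_mk _ φ (hcA _), P_mk _ σ (hc _), ← hφ', ← WeierstrassCurve.map_map]
    rfl
  have hpos : ∀ {F : Type} [Field F] [NumberField F] (W : WeierstrassCurve F)
      (_ : ∀ v : InfinitePlace F, v.IsComplex), 0 ≤ ∏ v : InfinitePlace F, perAt W v := by
    intro F _ _ W hF
    refine Finset.prod_nonneg fun v _ => ?_
    rw [P_perAt W (hF v)]
    have := P_perC_nonneg (W.map v.embedding)
    positivity
  exact (pow_left_inj₀ (hpos _ hcA) (by positivity) two_ne_zero).1 h1

end Pool.Agent.Lib.MP_1a91b9_ntC.Sh
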