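import Pool.Agent.Lib.MP_1a91b9_ntC.Sh.NF
import Pool.Agent.Lib.MP_1a91b9_ntC.Sh.P

/-!
# MP_1a91b9_nt (the period relation)

`A = N(√e)` is a quadratic extension of the totally complex field `N`, `E : y² = x³ + a x² + b x` over `N`,
`V` its twist by `√e`: the period of `E` over `A` in terms of those of `E` and `V` over `N`, up to rational
numbers which are units at `q`.
-/

set_option autoImplicit false

namespace Pool.Agent.Lib.MP_1a91b9_ntC.Sh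

open NumberField IsDedekindDomain WeierstrassCurve
open Pool.Agent.Lib.MP_1a91b9_nuT.S9 Pool.Agent.Lib.MP_1a91b9_nuT.Per
open Pool.Agent.Lib.MP_1a91b9_nuT3.S9 (rat_normFactor finprod_normFactor_ne)

variable [Pool.Agent.Lib.MP_1a91b9_nuT.CD]

/-- integral with unit discriminant above `q` -/
def GoodQ {N : Type} [Field N] [NumberField N] (q : ℕ) (W : WeierstrassCurve N) : Prop :=
  ∀ v : HeightOneSpectrum (𝓞 N), (q : 𝓞 N) ∈ v.asIdeal →
    (v.valuation N W.a₁ ≤ 1 ∧ v.valuation N W.a₂ ≤ 1 ∧ v.valuation N W.a₃ ≤ 1 ∧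
      v.valuation N W.a₄ ≤ 1 ∧ v.valuation N W.a₆ ≤ 1) ∧ v.valuation N W.Δ = 1

theorem nf_unit' {N : Type} [Field N] [NumberField N] {W : WeierstrassCurve N} {q : ℕ}
    (hq : q.Prime) (h : GoodQ q W) {r : ℚ}
    (hr : (r : ℝ) = ∏ᶠ v : HeightOneSpectrum (𝓞 N), normFactor W v) : UnitQ q r := by
  have : Fact q.Prime := ⟨hq⟩
  obtain ⟨s, hs, hs'⟩ := nf_unit W q h
  rw [← hr] at hs'
  have h1 : s = r := by exact_mod_cast hs'
  exact h1 ▸ hs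

/-- **The period relation.** -/
theorem period_rel {N A : Type} [Field N] [NumberField N] [Field A] [NumberField A] [Algebra N A]
    (hc : ∀ v : InfinitePlace N, v.IsComplex) (a b : N) {e : 𝓞 N} {x₀ : A}
    (hx : x₀ ^ 2 = algebraMap N A (e : N)) (he : e ≠ 0)
    (hx' : ∀ z : A, ∃ α β : N, z = algebraMap N A α + algebraMap N A β * x₀)
    (hn : ¬ ∃ y : N, algebraMap N A y = x₀) :
    ∃ r : ℚ, (∀ q : ℕ, q.Prime → q ≠ 2 → IsCoprime (Algebra.norm ℤ e) (q : ℤ) →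
      GoodQ q (⟨0, (e : N) * a, 0, (e : N) ^ 2 * b, 0⟩ : WeierstrassCurve N) →
      GoodQ q (⟨0, a, 0, b, 0⟩ : WeierstrassCurve N) →
      GoodQ q ((⟨0, a, 0, b, 0⟩ : WeierstrassCurve N).baseChange A) → UnitQ q r) ∧
      period (⟨0, (e : N) * a, 0, (e : N) ^ 2 * b, 0⟩ : WeierstrassCurve N) *
        period (⟨0, a, 0, b, 0⟩ : WeierstrassCurve N) * √|(discr A : ℝ)| =
      (r : ℝ) * (|(discr N : ℝ)| *
        period ((⟨0, a, 0, b, 0⟩ : WeierstrassCurve N).baseChange A)) := by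
  have he' : (e : N) ≠ 0 := by
    intro h
    exact he (by exact_mod_cast h)
  obtain ⟨rd, hd1, hd2, hd3⟩ := disc_quad hx he hx' hn
  obtain ⟨rV, hV⟩ := rat_normFactor
    (⟨0, (e : N) * a, 0, (e : N) ^ 2 * b, 0⟩ : WeierstrassCurve N)
  obtain ⟨rE, hE⟩ := rat_normFactor (⟨0, a, 0, b, 0⟩ : WeierstrassCurve N)
  obtain ⟨rA, hA⟩ := rat_normFactor ((⟨0, a, 0, b, 0⟩ : WeierstrassCurve N).baseChange A)
  have hA0 := finprod_normFactor_ne ((⟨0, a, 0, b, 0⟩ : WeierstrassCurve N).baseChange A)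
  have hA1 : (rA : ℝ) ≠ 0 := by rw [hA]; exact hA0
  refine ⟨|rd| * rV * rE * rA⁻¹, ?_, ?_⟩
  · intro q hq hq2 hqe g1 g2 g3
    have h1 : UnitQ q |rd| := by
      have h2 := hd3 q hq hq2 hqe
      rcases abs_choice rd with h3 | h3
      · rw [h3]
        exact h2
      · rw [h3]
        exact ⟨by rw [Rat.num_neg_eq_neg_num]; exact h2.1.neg_left, by
          rw [Rat.den_neg_eq_den]; exact h2.2⟩
    exact ((h1.mul (nf_unit' hq g1 hV)).mul (nf_unit' hq g2 hE)).mul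
      ((nf_unit' hq g3 hA).inv hq)
  · have h1 := prod_per_tw hc (a := a) (b := b) he'
    have h2 := prod_per_bc hc hx hx' hn (⟨0, a, 0, b, 0⟩ : WeierstrassCurve N)
    have h3 : √|(discr A : ℝ)| = |(rd : ℝ)| * |(discr N : ℝ)| *
        √|((Algebra.norm ℚ (e : N) : ℚ) : ℝ)| := by
      rw [hd2, ← mul_pow, Real.sqrt_mul (sq_nonneg _), Real.sqrt_sq_eq_abs, abs_mul]
    rw [period, period, period, ← hV, ← hE, ← hA, h2, h3]
    push_cast
    have h4 : (rA : ℝ)⁻¹ * rA = 1 := inv_mul_cancel₀ hA1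
    calc (rV : ℝ) * (∏ v : InfinitePlace N,
            perAt (⟨0, (e : N) * a, 0, (e : N) ^ 2 * b, 0⟩ : WeierstrassCurve N) v) *
          ((rE : ℝ) * ∏ v : InfinitePlace N, perAt (⟨0, a, 0, b, 0⟩ : WeierstrassCurve N) v) *
          (|(rd : ℝ)| * |(discr N : ℝ)| * √|((Algebra.norm ℚ (e : N) : ℚ) : ℝ)|) =
        (rV : ℝ) * (√|((Algebra.norm ℚ (e : N) : ℚ) : ℝ)| * ∏ v : InfinitePlace N,
            perAt (⟨0, (e : N) * a, 0, (e : N) ^ 2 * b, 0⟩ : WeierstrassCurve N) v) *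
          ((rE : ℝ) * ∏ v : InfinitePlace N, perAt (⟨0, a, 0, b, 0⟩ : WeierstrassCurve N) v) *
          (|(rd : ℝ)| * |(discr N : ℝ)|) := by ring
      _ = |(rd : ℝ)| * rV * rE * ((rA : ℝ)⁻¹ * rA) * (|(discr N : ℝ)| *
          (∏ v : InfinitePlace N, perAt (⟨0, a, 0, b, 0⟩ : WeierstrassCurve N) v) ^ 2) := by
        rw [h1, h4]
        ring
      _ = _ := by ring

/-- **The relation between the leading terms.** -/
theorem lead_rel {q : ℕ} (hq : q.Prime) {g1 : ℂ} {pV pE pA dN dA : ℝ} (hdN : dN ≠ 0)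
    (hdA : dA ≠ 0) {r₀ r : ℚ} (h0 : UnitQ q r₀) (h : UnitQ q r) (hg : g1 ≠ 0)
    (h1 : g1 * (√|dN| : ℝ) / (pV : ℝ) = (r₀ : ℂ)) (h2 : pV * pE * √|dA| = (r : ℝ) * (|dN| * pA)) :
    ∃ s : ℚ, UnitQ q s ∧ g1 * ((√|dA| / pA : ℝ) : ℂ) = (s : ℂ) * ((√|dN| / pE : ℝ) : ℂ) := by
  have hr0 : (r₀ : ℂ) ≠ 0 := by exact_mod_cast h0.ne_zero hq
  have hrr : (r : ℝ) ≠ 0 := by exact_mod_cast h.ne_zero hq
  have hs : (√|dN| : ℝ) ≠ 0 := (Real.sqrt_pos.2 (abs_pos.2 hdN)).ne'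
  have hV : pV ≠ 0 := by
    rintro rfl
    rw [Complex.ofReal_zero, div_zero] at h1
    exact hr0 h1.symm
  refine ⟨r₀ * r, h0.mul h, ?_⟩
  have hsA : (√|dA| : ℝ) ≠ 0 := (Real.sqrt_pos.2 (abs_pos.2 hdA)).ne'
  by_cases hA : pA = 0
  · have hE : pE = 0 := by
      rw [hA, mul_zero, mul_zero] at h2
      exact (mul_eq_zero.1 ((mul_eq_zero.1 h2).resolve_right hsA)).resolve_left hV
    rw [hA, hE, div_zero, div_zero, Complex.ofReal_zero, mul_zero, mul_zero]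
  · have hE : pE ≠ 0 := by
      rintro rfl
      rw [mul_zero, zero_mul] at h2
      exact mul_ne_zero hrr (mul_ne_zero (abs_pos.2 hdN).ne' hA) h2.symm
    have hVc : (pV : ℂ) ≠ 0 := by exact_mod_cast hV
    have hEc : (pE : ℂ) ≠ 0 := by exact_mod_cast hE
    have hAc : (pA : ℂ) ≠ 0 := by exact_mod_cast hA
    have hsc : ((√|dN| : ℝ) : ℂ) ≠ 0 := by exact_mod_cast hs
    have h3 : g1 * ((√|dN| : ℝ) : ℂ) = (r₀ : ℂ) * (pV : ℂ) := (div_eq_iff hVc).1 h1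
    have h4 : (pV : ℂ) * (pE : ℂ) * ((√|dA| : ℝ) : ℂ) = (r : ℂ) * (((|dN| : ℝ) : ℂ) * (pA : ℂ)) := by
      exact_mod_cast h2
    have h5 : ((|dN| : ℝ) : ℂ) = ((√|dN| : ℝ) : ℂ) * ((√|dN| : ℝ) : ℂ) := by
      rw [← Complex.ofReal_mul, Real.mul_self_sqrt (abs_nonneg _)]
    rw [Complex.ofReal_div, Complex.ofReal_div, mul_div_assoc', mul_div_assoc',
      div_eq_div_iff hAc hEc]
    refine mul_right_cancel₀ hsc ?_
    push_cast
    calc g1 * ((√|dA| : ℝ) : ℂ) * (pE : ℂ) * ((√|dN| : ℝ) : ℂ) =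
        (g1 * ((√|dN| : ℝ) : ℂ)) * (pE : ℂ) * ((√|dA| : ℝ) : ℂ) := by ring
      _ = (r₀ : ℂ) * ((pV : ℂ) * (pE : ℂ) * ((√|dA| : ℝ) : ℂ)) := by rw [h3]; ring
      _ = (r₀ : ℂ) * ((r : ℂ) * (((√|dN| : ℝ) : ℂ) * ((√|dN| : ℝ) : ℂ) * (pA : ℂ))) := by
        rw [h4, h5]
      _ = _ := by ring

end Pool.Agent.Lib.MP_1a91b9_ntC.Sh
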