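import Pool.Agent.Lib.MP_1a91b9_ntC.Sh.U
import Pool.Agent.Lib.MP_1a91b9_ntC.Sh.K

/-!
# MP_1a91b9_nt (stability of the Tate-Shafarevich group): the conjugate cocycle

`A = N(x₀)`, `x₀² = e ∈ N`, `x₀` not in `N`, `E : y² = x³ + a x² + b x` over `N`, and
`V : y² = x³ + e a x² + e² b x` its twist.
-/

set_option autoImplicit false

namespace Pool.Agent.Lib.MP_1a91b9_ntC.Sh

open WeierstrassCurve Pool.Agent.Lib.MP_1a91b9_nuT.S9 NumberField IsDedekindDomain
open Pool.Agent.Lib.MP_1a91b9_nuT.CT Pool.Agent.Lib.MP_1a91b9_nuT.S5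
open scoped Classical

variable [Pool.Agent.Lib.MP_1a91b9_nuT.CD]

theorem one_smul_bc {N A : Type} [Field N] [Field A] [Algebra N A] (E : WeierstrassCurve N) :
    (1 : VariableChange A) • E.baseChange A = E.baseChange A := one_smul _ _

/-- The change of variables from the twist to `E` over `A`. -/
theorem exists_vc {N A : Type} [Field N] [Field A] [Algebra N A] {a b e : N} {x₀ : A}
    (hx : x₀ ^ 2 = algebraMap N A e) (he : e ≠ 0) :
    ∃ C : VariableChange A, (C.u : A) = x₀ ∧ C.r = 0 ∧ C.s = 0 ∧ C.t = 0 ∧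
      C • (⟨0, e * a, 0, e ^ 2 * b, 0⟩ : WeierstrassCurve N).baseChange A =
        (⟨0, a, 0, b, 0⟩ : WeierstrassCurve N).baseChange A := by
  have h0 : x₀ ≠ 0 := by
    rintro rfl
    rw [zero_pow two_ne_zero] at hx
    exact he ((algebraMap N A).injective (by rw [← hx, map_zero]))
  refine ⟨⟨Units.mk0 x₀ h0, 0, 0, 0⟩, rfl, rfl, rfl, rfl, ?_⟩
  have h1 : (((Units.mk0 x₀ h0)⁻¹ : Aˣ) : A) = x₀⁻¹ := rfl
  ext
  · simp [WeierstrassCurve.baseChange, variableChange_a₁]
  · simp only [WeierstrassCurve.baseChange, variableChange_a₂, map_a₂, map_a₁, map_mul, h1]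
    rw [← hx]
    field_simp
    simp
  · simp [WeierstrassCurve.baseChange, variableChange_a₃]
  · simp only [WeierstrassCurve.baseChange, variableChange_a₄, map_a₂, map_a₁, map_a₃, map_a₄,
      map_mul, map_pow, h1]
    rw [← hx]
    field_simp
    simp
  · simp [WeierstrassCurve.baseChange, variableChange_a₆]

/-- The inverse transport of a point for the trivial change of variables. -/
theorem tr_symm_one {k k' : Type*} [Field k] [Field k'] [Algebra k k'] {W : WeierstrassCurve k}
    {W' : WeierstrassCurve k'} (hC : (1 : VariableChange k') • W.baseChange k' = W')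
    (F : Type*) [Field F] [Algebra k F] [Algebra k' F] [IsScalarTower k k' F] (x y : F)
    (h : (Affine.baseChange W F).Nonsingular x y) :
    ∃ h', (tr hC F).symm (Affine.Point.some x y h) = Affine.Point.some x y h' := by
  obtain ⟨R, hR⟩ : ∃ R, R = (tr hC F).symm (Affine.Point.some x y h) := ⟨_, rfl⟩
  have hR' : tr hC F R = Affine.Point.some x y h := by rw [hR, AddEquiv.apply_symm_apply]
  rw [← hR]
  clear hR
  cases R with
  | zero =>
    have h2 : tr hC F (0 : Pts W' F) = Affine.Point.some x y h := hR'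
    rw [_root_.map_zero] at h2
    exact absurd h2.symm (Affine.Point.some_ne_zero h)
  | some x1 y1 h1 =>
    obtain ⟨h2, e2⟩ := (exists_tr W W' 1 hC F).choose_spec x1 y1 h1
    have e3 : tr hC F (Affine.Point.some x1 y1 h1) = _ := e2
    rw [hR', Affine.Point.some.injEq] at e3
    have u1 : ((1 : VariableChange k').u : k') = 1 := rfl
    have u2 : (1 : VariableChange k').r = 0 := rfl
    have u3 : (1 : VariableChange k').s = 0 := rfl
    have u4 : (1 : VariableChange k').t = 0 := rfl
    rw [u1, u2, u3, u4, map_one, map_zero, one_pow, one_pow, one_mul, one_mul, add_zero,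
      mul_zero, zero_mul, add_zero, add_zero] at e3
    obtain ⟨rfl, rfl⟩ := e3
    exact ⟨h1, rfl⟩

/-- The transport of a cocycle of `Sha` by an isomorphism. -/
theorem conj_gen {A A' : Type} [Field A] [NumberField A] [Field A'] [NumberField A']
    [Algebra A A'] (hc : ∀ v : InfinitePlace A', v.IsComplex) {W : WeierstrassCurve A}
    {W' : WeierstrassCurve A'} (hC : (1 : VariableChange A') • W.baseChange A' = W')
    (r : AlgebraicClosure A ≃+* AlgebraicClosure A')
    (hr : ∀ x : A, r (algebraMap A _ x) = algebraMap A' _ (algebraMap A A' x))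
    (c : Gal A → Pts W (AlgebraicClosure A)) (h : c ∈ shaCoc W) :
    ∃ c' ∈ shaCoc W', ∀ (σ : Gal A') (σ' : Gal A), (∀ x, r (σ' x) = σ (r x)) →
      (c σ' = 0 → c' σ = 0) ∧ ∀ x y h, c σ' = Affine.Point.some x y h →
        ∃ h', c' σ = Affine.Point.some (r x) (r y) h' := by
  let j : AlgebraicClosure A ≃ₐ[A] AlgebraicClosure A' := AlgEquiv.ofRingEquiv (f := r) (by
    intro x
    rw [hr]
    exact (IsScalarTower.algebraMap_apply A A' (AlgebraicClosure A') x).symm)
  have hj : ∀ x, j x = r x := fun x => rfl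
  refine ⟨res hC j c, res_sha hc hC j c h, fun σ σ' hσ => ?_⟩
  have h1 : resG j σ = σ' := by
    apply AlgEquiv.ext
    intro x
    rw [resG_apply, AlgEquiv.symm_apply_eq, hj, hj, hσ]
  refine ⟨fun h0 => ?_, fun x y h0 h2 => ?_⟩
  · unfold res
    rw [h1, h0, _root_.map_zero, _root_.map_zero]
  · unfold res
    rw [h1, h2, Affine.Point.map_some]
    exact tr_symm_one hC (AlgebraicClosure A') _ _ _

/-- The transport of an affine point. -/
theorem tr_some {k k' : Type*} [Field k] [Field k'] [Algebra k k'] {W : WeierstrassCurve k}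
    {W' : WeierstrassCurve k'} {C : VariableChange k'} (hC : C • W.baseChange k' = W')
    (F : Type*) [Field F] [Algebra k F] [Algebra k' F] [IsScalarTower k k' F] (x y : F)
    (h : (Affine.baseChange W' F).Nonsingular x y) :
    ∃ h', tr hC F (Affine.Point.some x y h) = Affine.Point.some
        (algebraMap k' F C.u ^ 2 * x + algebraMap k' F C.r)
        (algebraMap k' F C.u ^ 3 * y + algebraMap k' F C.u ^ 2 * algebraMap k' F C.s * x +
          algebraMap k' F C.t) h' :=
  (exists_tr W W' C hC F).choose_spec x y h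

/-- **The conjugate of a cocycle.** -/
theorem exists_conj {N A : Type} [Field N] [NumberField N] [Field A] [NumberField A] [Algebra N A]
    (hc : ∀ v : InfinitePlace A, v.IsComplex) {a b e : N} {x₀ : A}
    (hx : x₀ ^ 2 = algebraMap N A e) (he : e ≠ 0)
    (hx' : ∀ z : A, ∃ α β : N, z = algebraMap N A α + algebraMap N A β * x₀)
    (j : AlgebraicClosure N ≃ₐ[N] AlgebraicClosure A) {ρ : Gal N} (hρ : ρ ∉ stH j x₀)
    {C : VariableChange A} (h1 : (C.u : A) = x₀) (h2 : C.r = 0) (h3 : C.s = 0) (h4 : C.t = 0)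
    (hC : C • (⟨0, e * a, 0, e ^ 2 * b, 0⟩ : WeierstrassCurve N).baseChange A =
      (⟨0, a, 0, b, 0⟩ : WeierstrassCurve N).baseChange A)
    (c : Gal A → Pts ((⟨0, a, 0, b, 0⟩ : WeierstrassCurve N).baseChange A) (AlgebraicClosure A))
    (hcs : c ∈ shaCoc ((⟨0, a, 0, b, 0⟩ : WeierstrassCurve N).baseChange A)) :
    ∃ c' ∈ shaCoc ((⟨0, a, 0, b, 0⟩ : WeierstrassCurve N).baseChange A),
      ∀ σ σ' : Gal A, resG j σ' = ρ * resG j σ * ρ⁻¹ →
        c' σ = (tr (one_smul_bc (⟨0, a, 0, b, 0⟩ : WeierstrassCurve N)) (AlgebraicClosure A)).symm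
          (Affine.Point.map (((j.symm.trans (ρ⁻¹ : Gal N)).trans j :
            AlgebraicClosure A ≃ₐ[N] AlgebraicClosure A) :
              AlgebraicClosure A →ₐ[N] AlgebraicClosure A)
            (tr (one_smul_bc (⟨0, a, 0, b, 0⟩ : WeierstrassCurve N)) (AlgebraicClosure A)
              (c σ'))) ∧
        -c' σ = (tr hC (AlgebraicClosure A)).symm
          (Affine.Point.map (((j.symm.trans (ρ⁻¹ : Gal N)).trans j :
            AlgebraicClosure A ≃ₐ[N] AlgebraicClosure A) :
              AlgebraicClosure A →ₐ[N] AlgebraicClosure A)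
            (tr hC (AlgebraicClosure A) (c σ'))) := by
  obtain ⟨ψ, hψe⟩ : ∃ ψ : AlgebraicClosure A ≃ₐ[N] AlgebraicClosure A,
    ψ = (j.symm.trans (ρ⁻¹ : Gal N)).trans j := ⟨_, rfl⟩
  have hψ : ∀ z, ψ z = j ((ρ⁻¹ : Gal N) (j.symm z)) := fun z => by rw [hψe]; rfl
  have hψN : ∀ z : N, ψ (algebraMap A (AlgebraicClosure A) (algebraMap N A z)) =
      algebraMap A (AlgebraicClosure A) (algebraMap N A z) := by
    intro z
    rw [← IsScalarTower.algebraMap_apply N A (AlgebraicClosure A), ψ.commutes]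
  have hψx : ψ (algebraMap A (AlgebraicClosure A) x₀) =
      -algebraMap A (AlgebraicClosure A) x₀ := by
    have h5 : ψ (algebraMap A (AlgebraicClosure A) x₀) ^ 2 =
        (algebraMap A (AlgebraicClosure A) x₀) ^ 2 := by
      rw [← map_pow, ← map_pow, hx, hψN]
    rcases sq_eq_sq_iff_eq_or_eq_neg.1 h5 with h6 | h6
    · exfalso
      apply hρ
      rw [hψ] at h6
      have h7 : (ρ⁻¹ : Gal N) (j.symm (algebraMap A (AlgebraicClosure A) x₀)) =
          j.symm (algebraMap A (AlgebraicClosure A) x₀) := by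
        apply j.injective
        rw [j.apply_symm_apply]
        exact h6
      have h8 := congrArg ρ h7
      have h9 : ρ ((ρ⁻¹ : Gal N) (j.symm (algebraMap A (AlgebraicClosure A) x₀))) =
        j.symm (algebraMap A (AlgebraicClosure A) x₀) := ρ.apply_symm_apply _
      rw [h9] at h8
      exact h8.symm
    · exact h6
  have hs : ∀ z : A, ∃ z' : A, algebraMap A (AlgebraicClosure A) z' =
      ψ (algebraMap A (AlgebraicClosure A) z) := by
    intro z
    obtain ⟨α, β, rfl⟩ := hx' z
    refine ⟨algebraMap N A α - algebraMap N A β * x₀, ?_⟩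
    rw [map_sub, map_mul, map_add, map_add, map_mul, map_mul, hψN, hψN, hψx]
    ring
  choose s0 hs0 using hs
  have hinj : Function.Injective (algebraMap A (AlgebraicClosure A)) :=
    (algebraMap A (AlgebraicClosure A)).injective
  obtain ⟨s, hs⟩ : ∃ s : A →+* A, ∀ z, algebraMap A (AlgebraicClosure A) (s z) =
      ψ (algebraMap A (AlgebraicClosure A) z) :=
    ⟨{ toFun := s0
       map_one' := hinj (by rw [hs0, map_one, map_one])
       map_mul' := fun x y => hinj (by rw [hs0, map_mul, map_mul, map_mul, hs0, hs0])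
       map_zero' := hinj (by rw [hs0, map_zero, map_zero])
       map_add' := fun x y => hinj (by rw [hs0, map_add, map_add, map_add, hs0, hs0]) }, hs0⟩
  have hsN : ∀ z : N, s (algebraMap N A z) = algebraMap N A z := fun z =>
    hinj (by rw [hs, hψN])
  have hC' : (1 : VariableChange A) •
      ((⟨0, a, 0, b, 0⟩ : WeierstrassCurve N).baseChange A).map s =
        (⟨0, a, 0, b, 0⟩ : WeierstrassCurve N).baseChange A := by
    rw [one_smul]
    have h5 : s.comp (algebraMap N A) = algebraMap N A := RingHom.ext hsN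
    change ((⟨0, a, 0, b, 0⟩ : WeierstrassCurve N).map (algebraMap N A)).map s = _
    rw [WeierstrassCurve.map_map, h5]
    rfl
  obtain ⟨c', hc', H⟩ := @conj_gen _ A A _ _ _ _ s.toAlgebra hc
    ((⟨0, a, 0, b, 0⟩ : WeierstrassCurve N).baseChange A)
    ((⟨0, a, 0, b, 0⟩ : WeierstrassCurve N).baseChange A) hC' ψ.toRingEquiv
    (fun x => (hs x).symm) c hcs
  refine ⟨c', hc', fun σ σ' hσ => ?_⟩
  have hσ' : ∀ x, ψ (σ' x) = σ (ψ x) := by
    intro x
    have h5 := congrArg (fun τ : Gal N => j ((ρ⁻¹ : Gal N) (τ (j.symm x)))) hσ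
    change j ((ρ⁻¹ : Gal N) (j.symm (σ' (j (j.symm x))))) =
      j ((ρ⁻¹ : Gal N) (ρ (j.symm (σ (j ((ρ⁻¹ : Gal N) (j.symm x))))))) at h5
    rw [j.apply_symm_apply, ← hψ, ← hψ] at h5
    rw [h5]
    have h6 : (ρ⁻¹ : Gal N) (ρ (j.symm (σ (ψ x)))) = j.symm (σ (ψ x)) := ρ.symm_apply_apply _
    rw [h6, j.apply_symm_apply]
  obtain ⟨H1, H2⟩ := H σ σ' hσ'
  rw [← hψe]
  rcases hP : c σ' with _ | ⟨x, y, h⟩
  · have e1 : c' σ = 0 := H1 hP
    have e2 : (Affine.Point.zero : Pts ((⟨0, a, 0, b, 0⟩ : WeierstrassCurve N).baseChange A)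
      (AlgebraicClosure A)) = 0 := rfl
    rw [e1, e2]
    constructor
    · rw [_root_.map_zero, _root_.map_zero, _root_.map_zero]
    · rw [_root_.map_zero, _root_.map_zero, _root_.map_zero, neg_zero]
  · obtain ⟨h5, e5⟩ := H2 x y h hP
    have e6 : ∀ z, ψ.toRingEquiv z = ψ z := fun z => rfl
    constructor
    · apply (tr (one_smul_bc (⟨0, a, 0, b, 0⟩ : WeierstrassCurve N))
        (AlgebraicClosure A)).injective
      rw [AddEquiv.apply_symm_apply, e5]
      obtain ⟨i1, j1⟩ := tr_some (one_smul_bc (⟨0, a, 0, b, 0⟩ : WeierstrassCurve N))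
        (AlgebraicClosure A) _ _ h5
      obtain ⟨i2, j2⟩ := tr_some (one_smul_bc (⟨0, a, 0, b, 0⟩ : WeierstrassCurve N))
        (AlgebraicClosure A) _ _ h
      rw [j1, j2, Affine.Point.map_some]
      have u1 : ((1 : VariableChange A).u : A) = 1 := rfl
      have u2 : (1 : VariableChange A).r = 0 := rfl
      have u3 : (1 : VariableChange A).s = 0 := rfl
      have u4 : (1 : VariableChange A).t = 0 := rfl
      simp only [Affine.Point.some.injEq, u1, u2, u3, u4, map_one, map_zero, one_pow, one_mul,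
        add_zero, mul_zero, zero_mul, e6]
      exact ⟨rfl, rfl⟩
    · apply (tr hC (AlgebraicClosure A)).injective
      rw [AddEquiv.apply_symm_apply, e5, Affine.Point.neg_some]
      obtain ⟨i2, j2⟩ := tr_some hC (AlgebraicClosure A) _ _ h
      rw [j2, Affine.Point.map_some]
      have e7 : (Affine.baseChange ((⟨0, a, 0, b, 0⟩ : WeierstrassCurve N).baseChange A)
          (AlgebraicClosure A)).negY (ψ.toRingEquiv x) (ψ.toRingEquiv y) = -ψ y := by
        have e8 : (Affine.baseChange ((⟨0, a, 0, b, 0⟩ : WeierstrassCurve N).baseChange A)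
          (AlgebraicClosure A)).a₁ = 0 := by
          change algebraMap A (AlgebraicClosure A) (algebraMap N A 0) = 0
          rw [map_zero, map_zero]
        have e9 : (Affine.baseChange ((⟨0, a, 0, b, 0⟩ : WeierstrassCurve N).baseChange A)
          (AlgebraicClosure A)).a₃ = 0 := by
          change algebraMap A (AlgebraicClosure A) (algebraMap N A 0) = 0
          rw [map_zero, map_zero]
        rw [Affine.negY, e8, e9, zero_mul, sub_zero, sub_zero]
        rfl
      have e8 : ∀ z hz, tr hC (AlgebraicClosure A) (Affine.Point.some (ψ.toRingEquiv x) z hz) =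
          Affine.Point.some _ _ (tr_some hC (AlgebraicClosure A) _ _ hz).choose := fun z hz =>
        (tr_some hC (AlgebraicClosure A) _ _ hz).choose_spec
      rw [e8]
      simp only [Affine.Point.some.injEq, h1, h2, h3, h4, map_zero, mul_zero, zero_mul, add_zero,
        e6]
      have e7' : (Affine.baseChange ((⟨0, a, 0, b, 0⟩ : WeierstrassCurve N).baseChange A)
          (AlgebraicClosure A)).negY (ψ x) (ψ y) = -ψ y := e7
      rw [e7']
      have e9 : ∀ z, (ψ : AlgebraicClosure A →ₐ[N] AlgebraicClosure A) z = ψ z := fun z => rfl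
      rw [e9, e9, map_mul, map_mul, map_pow, map_pow, hψx]
      constructor <;> ring

end Pool.Agent.Lib.MP_1a91b9_ntC.Sh
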