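import Pool.Agent.Lib.MP_1a91b9_ntC.Sh.A
import Pool.Agent.Lib.MP_1a91b9_nuT.CT.Sb

/-!
# MP_1a91b9_nt (stability of the Tate-Shafarevich group): the corestriction of a cocycle from a quadratic extension

`k' = k(x₀)`, `x₀² = e ∈ k`, `x₀` not in `k`; `W` over `k` is isomorphic to `W'` over `k'`.
-/

set_option autoImplicit false
set_option linter.unusedSectionVars false

namespace Pool.Agent.Lib.MP_1a91b9_ntC.Sh

open WeierstrassCurve Pool.Agent.Lib.MP_1a91b9_nuT.S9
open Pool.Agent.Lib.MP_1a91b9_nuT.CT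
open scoped Classical

variable [Pool.Agent.Lib.MP_1a91b9_nuT.CD]

variable {k k' : Type} [Field k] [Field k'] [CharZero k] [CharZero k'] [Algebra k k']
  [Algebra.IsAlgebraic k k']

/-- the stabilizer of `x₀` -/
def stH (j : AlgebraicClosure k ≃ₐ[k] AlgebraicClosure k') (x₀ : k') : Subgroup (Gal k) where
  carrier := {τ | τ (j.symm (algebraMap k' (AlgebraicClosure k') x₀)) =
    j.symm (algebraMap k' (AlgebraicClosure k') x₀)}
  mul_mem' := by
    intro σ τ hσ hτ
    change σ (τ _) = _
    rw [hτ, hσ]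
  one_mem' := rfl
  inv_mem' := by
    intro σ hσ
    change σ.symm _ = _
    rw [AlgEquiv.symm_apply_eq]
    exact hσ.symm

theorem stH_mul (j : AlgebraicClosure k ≃ₐ[k] AlgebraicClosure k') {x₀ : k'} {e : k}
    (hx : x₀ ^ 2 = algebraMap k k' e) (σ τ : Gal k) (hσ : σ ∉ stH j x₀) (hτ : τ ∉ stH j x₀) :
    σ * τ ∈ stH j x₀ := by
  set w := j.symm (algebraMap k' (AlgebraicClosure k') x₀) with hw
  have hw2 : w ^ 2 = algebraMap k (AlgebraicClosure k) e := by
    rw [hw, ← map_pow, ← map_pow, hx, ← IsScalarTower.algebraMap_apply, AlgEquiv.commutes]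
  have key : ∀ ρ : Gal k, ρ ∉ stH j x₀ → ρ w = -w := by
    intro ρ hρ
    have h1 : (ρ w) ^ 2 = w ^ 2 := by
      rw [← map_pow, hw2, AlgEquiv.commutes]
    rcases sq_eq_sq_iff_eq_or_eq_neg.1 h1 with h | h
    · exact absurd h hρ
    · exact h
  change σ (τ w) = w
  rw [key τ hτ, map_neg, key σ hσ, neg_neg]

theorem fix_of_mem (j : AlgebraicClosure k ≃ₐ[k] AlgebraicClosure k') {x₀ : k'}
    (hk' : ∀ z : k', ∃ α β : k, z = algebraMap k k' α + algebraMap k k' β * x₀) {τ : Gal k}
    (hτ : τ ∈ stH j x₀) (z : k') :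
    τ (j.symm (algebraMap k' (AlgebraicClosure k') z)) =
      j.symm (algebraMap k' (AlgebraicClosure k') z) := by
  obtain ⟨α, β, rfl⟩ := hk' z
  have hτ' : τ (j.symm (algebraMap k' (AlgebraicClosure k') x₀)) =
    j.symm (algebraMap k' (AlgebraicClosure k') x₀) := hτ
  simp only [map_add, map_mul, ← IsScalarTower.algebraMap_apply, AlgEquiv.commutes, hτ']

/-- the elements of `stH` are the restrictions of the elements of `Gal k'` -/
theorem exists_lift (j : AlgebraicClosure k ≃ₐ[k] AlgebraicClosure k') {x₀ : k'}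
    (hk' : ∀ z : k', ∃ α β : k, z = algebraMap k k' α + algebraMap k k' β * x₀) {τ : Gal k}
    (hτ : τ ∈ stH j x₀) : ∃ σ : Gal k', resG j σ = τ := by
  let σ : Gal k' := AlgEquiv.ofRingEquiv
    (f := ((j.symm.trans τ).trans j).toRingEquiv) fun z => by
      change j (τ (j.symm (algebraMap k' _ z))) = _
      rw [fix_of_mem j hk' hτ z, j.apply_symm_apply]
  have hσ : ∀ x, σ x = j (τ (j.symm x)) := fun x => rfl
  refine ⟨σ, ?_⟩
  ext x
  rw [resG_apply, hσ, j.symm_apply_apply, j.symm_apply_apply]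

theorem resG_mem (j : AlgebraicClosure k ≃ₐ[k] AlgebraicClosure k') (x₀ : k') (σ : Gal k') :
    resG j σ ∈ stH j x₀ := by
  change j.symm (σ (j (j.symm _))) = _
  rw [j.apply_symm_apply, σ.commutes]

theorem resG_inj (j : AlgebraicClosure k ≃ₐ[k] AlgebraicClosure k') {σ τ : Gal k'}
    (h : resG j σ = resG j τ) : σ = τ := by
  ext x
  have h1 := congrArg (fun f : Gal k => f (j.symm x)) h
  simp only [resG_apply, j.apply_symm_apply] at h1
  exact j.symm.injective h1

theorem stH_isOpen (j : AlgebraicClosure k ≃ₐ[k] AlgebraicClosure k') (x₀ : k') :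
    IsOpen (stH j x₀ : Set (Gal k)) := by
  set w := j.symm (algebraMap k' (AlgebraicClosure k') x₀) with hw
  have hfd : FiniteDimensional k (IntermediateField.adjoin k {w}) :=
    IntermediateField.adjoin.finiteDimensional (Algebra.IsAlgebraic.isAlgebraic w).isIntegral
  have h1 : (IntermediateField.adjoin k {w}).fixingSubgroup ≤ stH j x₀ := by
    intro τ hτ
    rw [IntermediateField.mem_fixingSubgroup_iff] at hτ
    exact hτ w (IntermediateField.mem_adjoin_simple_self k w)
  exact Subgroup.isOpen_mono h1 (IntermediateField.fixingSubgroup_isOpen _)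

/-- the restriction is an open embedding -/
theorem resG_openEmb (j : AlgebraicClosure k ≃ₐ[k] AlgebraicClosure k') {x₀ : k'}
    (hk' : ∀ z : k', ∃ α β : k, z = algebraMap k k' α + algebraMap k k' β * x₀) :
    Topology.IsOpenEmbedding (resG j : Gal k' → Gal k) := by
  have hcl : Topology.IsClosedEmbedding (resG j : Gal k' → Gal k) :=
    (resG_continuous j).isClosedEmbedding fun σ τ h => resG_inj j h
  refine ⟨hcl.isEmbedding, ?_⟩
  have h1 : Set.range (resG j : Gal k' → Gal k) = (stH j x₀ : Set (Gal k)) := by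
    ext τ
    constructor
    · rintro ⟨σ, rfl⟩
      exact resG_mem j x₀ σ
    · intro hτ
      exact exists_lift j hk' hτ
  rw [h1]
  exact stH_isOpen j x₀

/-- **The corestriction.** -/
theorem exists_cor {W : WeierstrassCurve k} {W' : WeierstrassCurve k'} {C : VariableChange k'}
    (hC : C • W.baseChange k' = W') (j : AlgebraicClosure k ≃ₐ[k] AlgebraicClosure k') {x₀ : k'}
    {e : k} (hx : x₀ ^ 2 = algebraMap k k' e)
    (hk' : ∀ z : k', ∃ α β : k, z = algebraMap k k' α + algebraMap k k' β * x₀) {ρ : Gal k}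
    (hρ : ρ ∉ stH j x₀) (c : Gal k' → Pts W' (AlgebraicClosure k')) (hc : c ∈ coc W') :
    ∃ D ∈ coc W, (∀ n : ℕ, n • c ∈ cob W' → n • D ∈ cob W) ∧
      ∀ σ σ' : Gal k', resG j σ' = ρ * resG j σ * ρ⁻¹ →
        res hC j D σ = c σ + (tr hC (AlgebraicClosure k')).symm
          (Affine.Point.map (((j.symm.trans (ρ⁻¹ : Gal k)).trans j :
            AlgebraicClosure k' ≃ₐ[k] AlgebraicClosure k') :
              AlgebraicClosure k' →ₐ[k] AlgebraicClosure k')
            (tr hC (AlgebraicClosure k') (c σ'))) := by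
  -- the action and the function `u`
  let act : Gal k → Pts W (AlgebraicClosure k) →+ Pts W (AlgebraicClosure k) := fun σ =>
    Affine.Point.map (σ : AlgebraicClosure k →ₐ[k] AlgebraicClosure k)
  let g : Pts W' (AlgebraicClosure k') →+ Pts W (AlgebraicClosure k) :=
    (Affine.Point.map (j.symm : AlgebraicClosure k' →ₐ[k] AlgebraicClosure k)).comp
      (tr hC (AlgebraicClosure k')).toAddMonoidHom
  have h1 : ∀ a, act 1 a = a := by
    intro Q
    rcases Q with _ | ⟨x, y, h⟩ <;> rfl
  have hm : ∀ σ τ a, act (σ * τ) a = act σ (act τ a) := by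
    intro σ τ a
    change Affine.Point.map ((σ * τ : Gal k) : AlgebraicClosure k →ₐ[k] AlgebraicClosure k) a =
      Affine.Point.map (σ : AlgebraicClosure k →ₐ[k] AlgebraicClosure k)
        (Affine.Point.map (τ : AlgebraicClosure k →ₐ[k] AlgebraicClosure k) a)
    rw [Affine.Point.map_map]
    rfl
  -- `g` and the action
  have hg : ∀ (σ : Gal k') (Q : Pts W' (AlgebraicClosure k')),
      g (Affine.Point.map (σ : AlgebraicClosure k' →ₐ[k'] AlgebraicClosure k') Q) =
        act (resG j σ) (g Q) := by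
    intro σ Q
    change Affine.Point.map (j.symm : AlgebraicClosure k' →ₐ[k] AlgebraicClosure k)
      (tr hC (AlgebraicClosure k') (Affine.Point.map _ Q)) =
        Affine.Point.map _ (Affine.Point.map _ (tr hC (AlgebraicClosure k') Q))
    rw [tr_map, Affine.Point.map_map, Affine.Point.map_map]
    congr 2
    ext x
    change j.symm (σ x) = j.symm (σ (j (j.symm x)))
    rw [j.apply_symm_apply]
  let u : Gal k → Pts W (AlgebraicClosure k) := fun τ =>
    if h : τ ∈ stH j x₀ then g (c (exists_lift j hk' h).choose) else 0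
  have hu1 : ∀ σ : Gal k', u (resG j σ) = g (c σ) := by
    intro σ
    have h := resG_mem j x₀ σ
    have h2 : u (resG j σ) = g (c (exists_lift j hk' h).choose) := dif_pos h
    rw [h2, resG_inj j (exists_lift j hk' h).choose_spec]
  have hu0 : ∀ σ, σ ∉ stH j x₀ → u σ = 0 := fun σ h => dif_neg h
  have hcu : ∀ σ ∈ stH j x₀, ∀ τ ∈ stH j x₀, u (σ * τ) = u σ + act σ (u τ) := by
    intro σ hσ τ hτ
    obtain ⟨σ', rfl⟩ := exists_lift j hk' hσ
    obtain ⟨τ', rfl⟩ := exists_lift j hk' hτ
    rw [← resG_mul, hu1, hu1, hu1, hc.2, map_add, hg]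
  have hH := stH_mul j hx
  have hulc : IsLocallyConstant u := by
    intro s
    have h2 : u ⁻¹' s = (resG j) '' ((fun σ => g (c σ)) ⁻¹' s) ∪
        ((stH j x₀ : Set (Gal k))ᶜ ∩ {_τ | (0 : Pts W (AlgebraicClosure k)) ∈ s}) := by
      ext τ
      constructor
      · intro hτ
        by_cases h : τ ∈ stH j x₀
        · obtain ⟨σ, rfl⟩ := exists_lift j hk' h
          left
          refine ⟨σ, ?_, rfl⟩
          rw [Set.mem_preimage, hu1] at hτ
          exact hτ
        · right
          refine ⟨h, ?_⟩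
          rw [Set.mem_preimage, hu0 τ h] at hτ
          exact hτ
      · rintro (⟨σ, hσ, rfl⟩ | ⟨h, h0⟩)
        · rw [Set.mem_preimage, hu1]
          exact hσ
        · rw [Set.mem_preimage, hu0 τ h]
          exact h0
    rw [h2]
    refine IsOpen.union ?_ ?_
    · have h3 : IsLocallyConstant fun σ => g (c σ) := hc.1.comp g
      exact (resG_openEmb j hk').isOpenMap _ (h3 s)
    · refine IsOpen.inter ?_ isOpen_const
      have h4 : IsClosed (stH j x₀ : Set (Gal k)) := Subgroup.isClosed_of_isOpen _ (stH_isOpen j x₀)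
      exact h4.isOpen_compl
  refine ⟨corF act ρ u, ⟨?_, ?_⟩, ?_, ?_⟩
  · -- locally constant
    have e1 : IsLocallyConstant fun τ : Gal k => u (τ * ρ⁻¹) :=
      hulc.comp_continuous (continuous_mul_const ρ⁻¹)
    have e2 : IsLocallyConstant fun τ : Gal k => u (ρ * τ) :=
      hulc.comp_continuous (continuous_const_mul ρ)
    have e3 : IsLocallyConstant fun τ : Gal k => u (ρ * τ * ρ⁻¹) :=
      hulc.comp_continuous ((continuous_mul_const ρ⁻¹).comp (continuous_const_mul ρ))
    have e4 : IsLocallyConstant fun τ : Gal k => act ρ⁻¹ (u (ρ * τ * ρ⁻¹) + u (ρ * τ)) :=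
      (e3.add e2).comp (act ρ⁻¹)
    exact (hulc.add e1).add e4
  · intro σ τ
    exact corF_coc act h1 hm (stH j x₀) hH hρ u hu0 hcu σ τ
  · intro n hn
    obtain ⟨P', hP'⟩ := hn
    rw [show n • corF act ρ u = corF act ρ (n • u) from
      funext fun τ => (corF_nsmul act ρ u n τ).symm]
    have hu2 : ∀ σ ∈ stH j x₀, (n • u) σ = act σ (g P') - g P' := by
      intro σ hσ
      obtain ⟨σ', rfl⟩ := exists_lift j hk' hσ
      rw [Pi.smul_apply, hu1, ← map_nsmul, ← hg, ← map_sub]
      exact congrArg g (hP' σ')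
    have hu3 : ∀ σ, σ ∉ stH j x₀ → (n • u) σ = 0 := by
      intro σ hσ
      rw [Pi.smul_apply, hu0 σ hσ, smul_zero]
    exact ⟨_, fun τ => corF_cob act h1 hm (stH j x₀) hH hρ (n • u) hu3 (g P') hu2 τ⟩
  · intro σ σ' hσ
    change (tr hC (AlgebraicClosure k')).symm
      (Affine.Point.map (j : AlgebraicClosure k →ₐ[k] AlgebraicClosure k')
        (corF act ρ u (resG j σ))) = _
    rw [corF_mem act (stH j x₀) hH hρ u hu0 (resG_mem j x₀ σ), ← hσ, hu1, hu1, map_add, map_add]
    congr 1
    · rw [AddEquiv.symm_apply_eq]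
      change Affine.Point.map _ (Affine.Point.map _ (tr hC (AlgebraicClosure k') (c σ))) = _
      rw [Affine.Point.map_map]
      have e1 : (j : AlgebraicClosure k →ₐ[k] AlgebraicClosure k').comp
          (j.symm : AlgebraicClosure k' →ₐ[k] AlgebraicClosure k) = AlgHom.id k _ := by
        ext x
        exact j.apply_symm_apply x
      rw [e1]
      rcases tr hC (AlgebraicClosure k') (c σ) with _ | ⟨x, y, h⟩ <;> rfl
    · congr 1
      change Affine.Point.map _ (Affine.Point.map _ (Affine.Point.map _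
        (tr hC (AlgebraicClosure k') (c σ')))) = _
      rw [Affine.Point.map_map, Affine.Point.map_map]
      rfl

/-- A cocycle which becomes trivial over `k'` becomes trivial after multiplication by two. -/
theorem two_cob_of_res {W : WeierstrassCurve k} {W' : WeierstrassCurve k'} {C : VariableChange k'}
    (hC : C • W.baseChange k' = W') (j : AlgebraicClosure k ≃ₐ[k] AlgebraicClosure k') {x₀ : k'}
    {e : k} (hx : x₀ ^ 2 = algebraMap k k' e)
    (hk' : ∀ z : k', ∃ α β : k, z = algebraMap k k' α + algebraMap k k' β * x₀)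
    (c : Gal k → Pts W (AlgebraicClosure k)) (hc : c ∈ coc W) (h : res hC j c ∈ cob W') :
    2 • c ∈ cob W := by
  obtain ⟨P, hP⟩ := cob_res hC j c h
  let act : Gal k → Pts W (AlgebraicClosure k) →+ Pts W (AlgebraicClosure k) := fun σ =>
    Affine.Point.map (σ : AlgebraicClosure k →ₐ[k] AlgebraicClosure k)
  have h1 : ∀ a, act 1 a = a := by
    intro Q
    rcases Q with _ | ⟨x, y, h⟩ <;> rfl
  have hm : ∀ σ τ a, act (σ * τ) a = act σ (act τ a) := by
    intro σ τ a
    change Affine.Point.map ((σ * τ : Gal k) : AlgebraicClosure k →ₐ[k] AlgebraicClosure k) a =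
      Affine.Point.map (σ : AlgebraicClosure k →ₐ[k] AlgebraicClosure k)
        (Affine.Point.map (τ : AlgebraicClosure k →ₐ[k] AlgebraicClosure k) a)
    rw [Affine.Point.map_map]
    rfl
  obtain ⟨R, hR⟩ := two_cob act h1 hm (stH j x₀) (stH_mul j hx) c hc.2 P
    fun σ hσ => hP σ fun z => fix_of_mem j hk' hσ z
  exact ⟨R, fun σ => hR σ⟩

end Pool.Agent.Lib.MP_1a91b9_ntC.Sh
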